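import Pool.Agent.K1H63.T2.Solve

/-!
# The inequality for a covariance which is a sum of rank-one tensors
-/

set_option autoImplicit false

namespace Pool.Agent.K1H63.T2

open Finset Matrix

variable {K ι : Type} [Fintype K] [DecidableEq K] [Fintype ι] [DecidableEq ι]

omit [DecidableEq ι] in
lemma alt_dot {M : Matrix ι ι ℝ} (hM : Mᵀ = -M) (v w : ι → ℝ) :
    v ⬝ᵥ (M *ᵥ w) = -(w ⬝ᵥ (M *ᵥ v)) := by
  rw [dotProduct_mulVec, ← mulVec_transpose, hM, neg_mulVec, neg_dotProduct, dotProduct_comm]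

omit [DecidableEq ι] in
lemma alt_self {M : Matrix ι ι ℝ} (hM : Mᵀ = -M) (v : ι → ℝ) : v ⬝ᵥ (M *ᵥ v) = 0 := by
  have := alt_dot hM v v
  linarith

/-- the array of a family of alternating matrices -/
noncomputable def be (f : K → ι → ℝ) (B : K → Matrix ι ι ℝ) (j k m : K) : ℝ :=
  f j ⬝ᵥ (B m *ᵥ f k)

/-- the matrix `∑ₘ fₘ ⊗ wₘ` -/
def fw (f w : K → ι → ℝ) : Matrix ι ι ℝ := fun i i' => ∑ m, f m i * w m i'

omit [DecidableEq K] [DecidableEq ι] in
lemma fw_mulVec (f w : K → ι → ℝ) (v : ι → ℝ) :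
    fw f w *ᵥ v = fun i => ∑ m, f m i * (w m ⬝ᵥ v) := by
  ext i
  simp only [mulVec, dotProduct, fw, Finset.sum_mul, Finset.mul_sum]
  rw [Finset.sum_comm]
  refine Finset.sum_congr rfl fun m _ => Finset.sum_congr rfl fun i' _ => by ring

omit [DecidableEq K] [DecidableEq ι] in
lemma trace_fw (f w : K → ι → ℝ) (y : Matrix ι ι ℝ) :
    (yᵀ * fw f w).trace = ∑ m, (y *ᵥ w m) ⬝ᵥ f m := by
  simp only [Matrix.trace, Matrix.diag_apply, Matrix.mul_apply, Matrix.transpose_apply, fw,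
    mulVec, dotProduct, Finset.mul_sum, Finset.sum_mul]
  have h : ∀ i : ι, ∑ k, ∑ m, y k i * (f m k * w m i) = ∑ m, ∑ k, y k i * (f m k * w m i) :=
    fun _ => Finset.sum_comm
  simp only [h]
  rw [Finset.sum_comm]
  refine Finset.sum_congr rfl fun m _ => ?_
  rw [Finset.sum_comm]
  refine Finset.sum_congr rfl fun i _ => Finset.sum_congr rfl fun i' _ => by ring

omit [DecidableEq K] [DecidableEq ι] in
lemma trace_fw_sq (f w : K → ι → ℝ) :
    (fw f w * fw f w).trace = ∑ m, ∑ k, (w m ⬝ᵥ f k) * (w k ⬝ᵥ f m) := by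
  simp only [Matrix.trace, Matrix.diag_apply, Matrix.mul_apply, fw]
  have h1 : ∀ i i' : ι, (∑ m, f m i * w m i') * (∑ k, f k i' * w k i) =
      ∑ m, ∑ k, (f m i * w m i') * (f k i' * w k i) := fun i i' => Finset.sum_mul_sum _ _ _ _
  simp only [h1]
  have h2 : ∑ i : ι, ∑ i' : ι, ∑ m, ∑ k, (f m i * w m i') * (f k i' * w k i) =
      ∑ m, ∑ k, ∑ i : ι, ∑ i' : ι, (f m i * w m i') * (f k i' * w k i) := by
    calc _ = ∑ i : ι, ∑ m, ∑ i' : ι, ∑ k, (f m i * w m i') * (f k i' * w k i) :=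
          Finset.sum_congr rfl fun i _ => Finset.sum_comm
      _ = ∑ m, ∑ i : ι, ∑ i' : ι, ∑ k, (f m i * w m i') * (f k i' * w k i) := Finset.sum_comm
      _ = ∑ m, ∑ i : ι, ∑ k, ∑ i' : ι, (f m i * w m i') * (f k i' * w k i) :=
          Finset.sum_congr rfl fun m _ => Finset.sum_congr rfl fun i _ => Finset.sum_comm
      _ = _ := Finset.sum_congr rfl fun m _ => Finset.sum_comm
  rw [h2]
  refine Finset.sum_congr rfl fun m _ => Finset.sum_congr rfl fun k _ => ?_
  unfold dotProduct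
  rw [Finset.sum_mul_sum, Finset.sum_comm]
  refine Finset.sum_congr rfl fun i' _ => Finset.sum_congr rfl fun i _ => by ring

/-- the linear functional of the linear system -/
noncomputable def phi (w : K → K → ι → ℝ) (f : K → ι → ℝ) :
    (K → Matrix ι ι ℝ) →ₗ[ℝ] ℝ where
  toFun y := ∑ j, ((y j)ᵀ * fw f (w j)).trace
  map_add' x y := by
    simp only [Pi.add_apply, transpose_add, add_mul, trace_add, Finset.sum_add_distrib]
  map_smul' c x := by
    simp only [Pi.smul_apply, transpose_smul, Matrix.smul_mul, trace_smul, RingHom.id_apply,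
      Finset.smul_sum]

lemma phi_single (w : K → K → ι → ℝ) (f : K → ι → ℝ) (j : K) (y : Matrix ι ι ℝ) :
    phi w f (Pi.single j y) = (yᵀ * fw f (w j)).trace := by
  have h0 : phi w f (Pi.single j y) =
      ∑ i, (((Pi.single j y : K → Matrix ι ι ℝ) i)ᵀ * fw f (w i)).trace := rfl
  rw [h0, Finset.sum_eq_single j]
  · rw [Pi.single_eq_same]
  · intro i _ hi
    rw [Pi.single_eq_of_ne hi]
    simp
  · intro h
    exact absurd (Finset.mem_univ j) h

lemma Bf_single (a b : K → ℝ) (f : K → ι → ℝ) (x : K → Matrix ι ι ℝ) (j : K)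
    (y : Matrix ι ι ℝ) :
    Bf a b f x (Pi.single j y) = ∑ k, (gc a b k k * ((x j *ᵥ f k) ⬝ᵥ (y *ᵥ f k)) +
      gc a b j k * ((x k *ᵥ f j) ⬝ᵥ (y *ᵥ f k))) := by
  unfold Bf
  rw [Finset.sum_eq_single j]
  · simp only [Pi.single_eq_same]
  · intro i _ hi
    simp only [Pi.single_eq_of_ne hi, zero_mulVec, dotProduct_zero, mul_zero, add_zero,
      Finset.sum_const_zero]
  · intro h
    exact absurd (Finset.mem_univ j) h

/-- the quadratic inequality for a covariance which is a sum of rank-one tensors -/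
theorem core (a b : K → ℝ) (f : K → ι → ℝ) (B : K → Matrix ι ι ℝ) (S : K → K → ℝ)
    (hnd : ∀ j, ∀ y : ι → ℝ, (∀ k, sc a b j k * (y ⬝ᵥ f k) = 0) → y = 0)
    (hB : ∀ m, (B m)ᵀ = -(B m))
    (hH : ∀ j k (A A' : ι → ℝ), A ⬝ᵥ f j = 0 → A ⬝ᵥ f k = 0 → A' ⬝ᵥ f j = 0 →
      A' ⬝ᵥ f k = 0 → 0 ≤ sc a b j k ^ 2 * S j k +
        ∑ m, (sc a b j k * be f B j k m + a m * (A ⬝ᵥ f m) + b m * (A' ⬝ᵥ f m)) ^ 2) :
    0 ≤ ∑ j, ∑ k, sc a b j k ^ 2 * (S j k + ∑ m, be f B j k m ^ 2) +
      2 * ∑ j, ∑ k, ∑ m, sc a b j k * sc a b j m * be f B j k m * be f B j m k := by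
  -- the field
  obtain ⟨ν, hν⟩ : ∃ ν : K → K → ι → ℝ, ν = fun j m => -(sc a b j m • (B m *ᵥ f j)) :=
    ⟨_, rfl⟩
  obtain ⟨x, hx, hxs⟩ := solve a b f hnd (phi ν f)
  have hxt : ∀ j, (x j)ᵀ = -(x j) := fun j => (hx j).1
  have hxf : ∀ j, x j *ᵥ f j = 0 := fun j => (hx j).2
  obtain ⟨η, hη⟩ : ∃ η : K → K → K → ℝ, η = fun j k m => f m ⬝ᵥ (x j *ᵥ f k) := ⟨_, rfl⟩
  have hηa : ∀ j k m, η j m k = -η j k m := by
    intro j k m
    simp only [hη]
    exact alt_dot (hxt j) (f k) (f m)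
  have hηj : ∀ j k, η j k j = 0 := by
    intro j k
    rw [hηa]
    simp only [hη, hxf, dotProduct_zero, neg_zero]
  have hηs : ∀ j k, η j k k = 0 := by
    intro j k
    simp only [hη]
    exact alt_self (hxt j) (f k)
  have hηz : ∀ j k, η j j k = 0 := by
    intro j k
    simp only [hη, hxf, dotProduct_zero]
  have hβa : ∀ j k m, be f B k j m = -be f B j k m := by
    intro j k m
    unfold be
    exact alt_dot (hB m) (f k) (f j)
  have hβs : ∀ j m, be f B j j m = 0 := fun j m => alt_self (hB m) (f j)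
  have id1 := ident1 a b η (be f B) hβa
  have id2 := ident2 a b η (fun j k m => hηa j k m)
  -- the trace forms
  obtain ⟨ζ, hζ⟩ : ∃ ζ : K → K → ι → ℝ, ζ = fun j m =>
    gc a b m m • (x j *ᵥ f m) + gc a b j m • (x m *ᵥ f j) := ⟨_, rfl⟩
  obtain ⟨w, hw⟩ : ∃ w : K → K → ι → ℝ, w = fun j m => ν j m + ζ j m := ⟨_, rfl⟩
  have hwf : ∀ j m k, w j m ⬝ᵥ f k = sc a b j m * be f B j k m + zt a b η j m k := by
    intro j m k
    simp only [hw, hν, hζ, hη, zt, be, add_dotProduct, neg_dotProduct, smul_dotProduct,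
      smul_eq_mul]
    rw [alt_dot (hB m) (f j) (f k), dotProduct_comm (B m *ᵥ f j), dotProduct_comm (x j *ᵥ f m),
      dotProduct_comm (x m *ᵥ f j)]
    ring
  have htr : ∀ j, 0 ≤ (fw f (w j) * fw f (w j)).trace := by
    intro j
    refine trace_sq_nonneg (fw f (w j)) (f j) ?_ ?_
    · rw [fw_mulVec]
      ext i
      simp only [hwf, hβs, mul_zero, zero_add, Pi.zero_apply]
      refine Finset.sum_eq_zero fun m _ => ?_
      simp only [zt, hηj, hηs, mul_zero, add_zero]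
    · intro y hy hyf
      have hs : Pi.single j y ∈ Es f := by
        intro i
        by_cases hi : i = j
        · subst hi
          rw [Pi.single_eq_same]
          exact ⟨hy, hyf⟩
        · rw [Pi.single_eq_of_ne hi]
          simp
      have h1 := hxs _ hs
      rw [phi_single, Bf_single, trace_fw] at h1
      rw [trace_fw]
      have h2 : ∑ m, (y *ᵥ w j m) ⬝ᵥ f m = ∑ m, (y *ᵥ ν j m) ⬝ᵥ f m -
          ∑ k, (gc a b k k * ((x j *ᵥ f k) ⬝ᵥ (y *ᵥ f k)) +
            gc a b j k * ((x k *ᵥ f j) ⬝ᵥ (y *ᵥ f k))) := by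
        rw [← Finset.sum_sub_distrib]
        refine Finset.sum_congr rfl fun m _ => ?_
        simp only [hw, hζ, mulVec_add, mulVec_smul, add_dotProduct, smul_dotProduct, smul_eq_mul]
        rw [dotProduct_comm (y *ᵥ (x j *ᵥ f m)), dotProduct_comm (y *ᵥ (x m *ᵥ f j)),
          alt_dot hy (f m) (x j *ᵥ f m), alt_dot hy (f m) (x m *ᵥ f j)]
        ring
      rw [h2, h1]
      ring
  have htr2 : 0 ≤ ∑ j, ∑ m, ∑ k, (sc a b j m * be f B j k m + zt a b η j m k) *
      (sc a b j k * be f B j m k + zt a b η j k m) := by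
    refine Finset.sum_nonneg fun j _ => ?_
    have := htr j
    rw [trace_fw_sq] at this
    simp only [hwf] at this
    exact this
  -- the planes
  have hpl : 0 ≤ ∑ j, ∑ k, (sc a b j k ^ 2 * S j k +
      ∑ m, (sc a b j k * be f B j k m - lt a b η j k m) ^ 2) := by
    refine Finset.sum_nonneg fun j _ => Finset.sum_nonneg fun k _ => ?_
    have hf1 : ∀ i, (x j *ᵥ f k) ⬝ᵥ f i = η j k i := by
      intro i; simp only [hη]; rw [dotProduct_comm]
    have hf2 : ∀ i, (x k *ᵥ f j) ⬝ᵥ f i = η k j i := by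
      intro i; simp only [hη]; rw [dotProduct_comm]
    have h1 := hH j k (-(a k • (x j *ᵥ f k) + a j • (x k *ᵥ f j)))
      (-(b k • (x j *ᵥ f k) + b j • (x k *ᵥ f j)))
      (by simp only [neg_dotProduct, add_dotProduct, smul_dotProduct, hf1, hf2, hηj, hηs]; simp)
      (by simp only [neg_dotProduct, add_dotProduct, smul_dotProduct, hf1, hf2, hηj, hηs]; simp)
      (by simp only [neg_dotProduct, add_dotProduct, smul_dotProduct, hf1, hf2, hηj, hηs]; simp)
      (by simp only [neg_dotProduct, add_dotProduct, smul_dotProduct, hf1, hf2, hηj, hηs]; simp)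
    refine le_of_le_of_eq h1 ?_
    congr 1
    refine Finset.sum_congr rfl fun m _ => ?_
    simp only [neg_dotProduct, add_dotProduct, smul_dotProduct, hf1, hf2, smul_eq_mul, lt, gc]
    ring
  -- put together
  have e1 : ∑ j, ∑ k, (sc a b j k ^ 2 * S j k +
      ∑ m, (sc a b j k * be f B j k m - lt a b η j k m) ^ 2) =
      ∑ j, ∑ k, sc a b j k ^ 2 * (S j k + ∑ m, be f B j k m ^ 2) -
      2 * ∑ j, ∑ k, ∑ m, sc a b j k * be f B j k m * lt a b η j k m +
      ∑ j, ∑ k, ∑ m, lt a b η j k m ^ 2 := by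
    simp only [Finset.mul_sum, ← Finset.sum_sub_distrib, ← Finset.sum_add_distrib, mul_add]
    refine Finset.sum_congr rfl fun j _ => Finset.sum_congr rfl fun k _ => ?_
    rw [add_sub_assoc, add_assoc]
    congr 1
    rw [← Finset.sum_sub_distrib, ← Finset.sum_add_distrib]
    refine Finset.sum_congr rfl fun m _ => ?_
    ring
  have e2 : ∑ j, ∑ m, ∑ k, (sc a b j m * be f B j k m + zt a b η j m k) *
      (sc a b j k * be f B j m k + zt a b η j k m) =
      ∑ j, ∑ k, ∑ m, sc a b j k * sc a b j m * be f B j k m * be f B j m k +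
      2 * ∑ j, ∑ k, ∑ m, sc a b j m * be f B j k m * zt a b η j k m +
      ∑ j, ∑ k, ∑ m, zt a b η j k m * zt a b η j m k := by
    have e3 : ∀ j, ∑ k, ∑ m, sc a b j m * be f B j k m * zt a b η j k m =
        ∑ k, ∑ m, sc a b j k * be f B j m k * zt a b η j m k := fun j => Finset.sum_comm
    have e4 : 2 * ∑ j, ∑ k, ∑ m, sc a b j m * be f B j k m * zt a b η j k m =
        ∑ j, ∑ k, ∑ m, sc a b j m * be f B j k m * zt a b η j k m +
        ∑ j, ∑ k, ∑ m, sc a b j k * be f B j m k * zt a b η j m k := by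
      rw [two_mul]
      congr 1
      exact Finset.sum_congr rfl fun j _ => e3 j
    rw [e4]
    simp only [← Finset.sum_add_distrib]
    refine Finset.sum_congr rfl fun j _ => ?_
    rw [Finset.sum_comm]
    refine Finset.sum_congr rfl fun k _ => Finset.sum_congr rfl fun m _ => ?_
    ring
  have hP : 0 ≤ ∑ j, ∑ k, ∑ m, pt a b η j k m ^ 2 :=
    Finset.sum_nonneg fun j _ => Finset.sum_nonneg fun k _ => Finset.sum_nonneg fun m _ =>
      sq_nonneg _
  rw [e1, id1] at hpl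
  rw [e2] at htr2
  linarith

end Pool.Agent.K1H63.T2
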