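import Pool.Agent.K1H63.T2.Pf
import Pool.Agent.K1H63.T2.Core
import Pool.Agent.R735.HA.Fib

/-!
# The coordinate theorem for a mixed block which is a sum of rank-one tensors
-/

set_option autoImplicit false

namespace Pool.Agent.K1H63.T2

open Finset Pool.Agent.TH598.GV Pool.Agent.R735.HA
open scoped ComplexConjugate

section ring

variable {R : Type} [CommRing R]

lemma alt_half (F : T6 → R) (hF : ∀ i j, F (j, i) = -F (i, j)) (X Y : K 2 → R) :
    2 * ∑ p : T6, F p * (X p.1 * Y p.2) = ∑ p : T6, F p * (X p.1 * Y p.2 - X p.2 * Y p.1) := by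
  have h : ∑ p : T6, F p * (X p.2 * Y p.1) = -∑ p : T6, F p * (X p.1 * Y p.2) := by
    rw [← Equiv.sum_comp (Equiv.prodComm (K 2) (K 2)), ← Finset.sum_neg_distrib]
    refine Finset.sum_congr rfl fun p _ => ?_
    obtain ⟨i, j⟩ := p
    change F (j, i) * (X i * Y j) = -(F (i, j) * (X i * Y j))
    rw [hF]
    ring
  simp only [mul_sub, Finset.sum_sub_distrib]
  rw [h]
  ring

lemma alt_st (F : T6 → R) (hF : ∀ i j, F (j, i) = -F (i, j)) (f g : K 2 → R) (p q : K 2) :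
    2 * ∑ r : T6, F r * (st f g p r.1 * st f g q r.2) =
      st f g p q * ∑ r : T6, F r * st f g r.1 r.2 := by
  rw [alt_half F hF, Finset.mul_sum]
  refine Finset.sum_congr rfl fun r _ => ?_
  rw [st_dec]
  ring

lemma alt_st2 (Γ : Matrix T6 T6 R) (h1 : ∀ i j q, Γ (j, i) q = -Γ (i, j) q)
    (h2 : ∀ p i j, Γ p (j, i) = -Γ p (i, j)) (f g : K 2 → R) (p q : K 2) :
    4 * ∑ r : T6, ∑ s : T6, Γ r s * (st f g p r.1 * st f g q r.2) *
      (st f g p s.1 * st f g q s.2) =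
      st f g p q ^ 2 * ∑ r : T6, ∑ s : T6, Γ r s * st f g r.1 r.2 * st f g s.1 s.2 := by
  have e1 : ∀ r : T6, 2 * ∑ s : T6, Γ r s * (st f g p r.1 * st f g q r.2) *
      (st f g p s.1 * st f g q s.2) = (st f g p q * ∑ s : T6, Γ r s * st f g s.1 s.2) *
        (st f g p r.1 * st f g q r.2) := by
    intro r
    rw [← alt_st (fun s => Γ r s) (fun i j => h2 r i j)]
    simp only [Finset.mul_sum, Finset.sum_mul]
    exact Finset.sum_congr rfl fun s _ => by ring
  have e2 : 4 * ∑ r : T6, ∑ s : T6, Γ r s * (st f g p r.1 * st f g q r.2) *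
      (st f g p s.1 * st f g q s.2) = 2 * ∑ r : T6, (2 * ∑ s : T6, Γ r s *
        (st f g p r.1 * st f g q r.2) * (st f g p s.1 * st f g q s.2)) := by
    rw [← Finset.mul_sum]
    ring
  rw [e2, Finset.sum_congr rfl fun r _ => e1 r,
    alt_st (fun r => st f g p q * ∑ s : T6, Γ r s * st f g s.1 s.2)]
  · simp only [Finset.mul_sum, Finset.sum_mul]
    exact Finset.sum_congr rfl fun r _ => Finset.sum_congr rfl fun s _ => by ring
  · intro i j
    simp only [h1 i j, neg_mul, Finset.sum_neg_distrib, mul_neg]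

end ring

/-- the first test vector -/
noncomputable def tz (s : ℂ) (A : Bool → K 2 → ℂ) (F G : K 2 → ℂ) (p : K 2) : Ix 2 → ℂ :=
  zv (fun c => -A c p) (fun x => 2 * s * st F G p x)

lemma bl_hz (L : Matrix S8 S8 ℂ) (g : S8 → T6 → ℂ) (hg : ∀ a i j, g a (j, i) = -g a (i, j))
    (uu : S8 → Bool → ℂ) (f : S8 → K 2 → ℂ)
    (hL : ∀ s m, L s m = uu m (sx s).1 * f m (sx s).2) (F G : K 2 → ℂ) (A : Bool → K 2 → ℂ)
    (hF : ∀ c, ∑ y, A c y * F y = 0) (hG : ∀ c, ∑ y, A c y * G y = 0) (s : ℂ) (p q : K 2)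
    (m : S8) :
    bl (hz L g m) (tz s A F G p) (tz s A F G q) =
      2 * s * st F G p q * (s * ∑ r, g m r * st F G r.1 r.2 +
        ∑ c, uu m c * ∑ x, A c x * f m x) := by
  have h3 : hz L g m = fun i j => ew (fun s => L s m) i j + ∑ p, g m p * wp p i j := rfl
  have h4 : (ew fun s => L s m) = fun i j => ∑ s, L s m * BS s i j := rfl
  rw [h3, bl_add, bl_sum, h4, bl_sum]
  have e1 : ∑ r, g m r * bl (wp r) (tz s A F G p) (tz s A F G q) =
      2 * s ^ 2 * (st F G p q * ∑ r, g m r * st F G r.1 r.2) := by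
    rw [← alt_st (g m) (hg m)]
    rw [Finset.mul_sum, Finset.mul_sum]
    refine Finset.sum_congr rfl fun r _ => ?_
    rw [bl_wp]
    unfold tz
    rw [zv_em, zv_em]
    ring
  have e2 : ∑ t, L t m * bl (BS t) (tz s A F G p) (tz s A F G q) =
      2 * s * st F G p q * ∑ c, uu m c * ∑ x, A c x * f m x := by
    have h5 : ∑ t, L t m * bl (BS t) (tz s A F G p) (tz s A F G q) = ∑ t : S8,
        (fun r : Bool × K 2 => uu m r.1 * f m r.2 * (2 * s) *
          (st F G p q * A r.1 r.2)) (sx t) := by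
      refine Finset.sum_congr rfl fun t _ => ?_
      have h6 := st_ann F G (A (sx t).1) (hF _) (hG _) p q (sx t).2
      rw [bl_BS, hL]
      unfold tz
      rw [zv_em, zv_em, zv_0, zv_0]
      linear_combination (-(uu m (sx t).1 * f m (sx t).2 * (2 * s))) * h6
    rw [h5]
    refine (sum_sx (fun r : Bool × K 2 => uu m r.1 * f m r.2 * (2 * s) *
          (st F G p q * A r.1 r.2))).trans ?_
    rw [Finset.mul_sum]
    refine Finset.sum_congr rfl fun c _ => ?_
    rw [Finset.mul_sum, Finset.mul_sum]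
    refine Finset.sum_congr rfl fun x _ => by ring
  rw [e1, e2]
  ring

lemma sum_cons {A : Type} [Fintype A] {n : ℕ} (F : (Fin (n + 1) → A) → ℂ) :
    ∑ a, F a = ∑ x, ∑ b : Fin n → A, F (Fin.cons x b) := by
  rw [← Equiv.sum_comp (Fin.consEquiv (fun _ => A)), Fintype.sum_prod_type]
  rfl

lemma sum_two {A : Type} [Fintype A] (F : (Fin 2 → A) → ℂ) :
    ∑ a, F a = ∑ x, ∑ y, F (Fin.cons x (Fin.cons y finZeroElim)) := by
  rw [sum_cons]
  refine Finset.sum_congr rfl fun x _ => ?_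
  rw [sum_cons]
  refine Finset.sum_congr rfl fun y _ => ?_
  rw [Fintype.sum_unique]
  have h : (default : Fin 0 → A) = finZeroElim := Subsingleton.elim _ _
  rw [h]

lemma sum_three {A : Type} [Fintype A] (F : (Fin 3 → A) → ℂ) :
    ∑ a, F a = ∑ x, ∑ y, ∑ z, F (Fin.cons x (Fin.cons y (Fin.cons z finZeroElim))) := by
  rw [sum_cons]
  refine Finset.sum_congr rfl fun x _ => ?_
  rw [sum_two]

/-- the numbers of the cubic form -/
noncomputable def xx (uu : S8 → Bool → ℂ) (f : S8 → K 2 → ℂ) (g : S8 → T6 → ℂ) (j k m : S8) : ℂ :=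
  (uu j false * uu k true - uu k false * uu j true) * ∑ r : T6, g m r * st (f j) (f k) r.1 r.2

lemma pc_rank (L : Matrix S8 S8 ℂ) (uu : S8 → Bool → ℂ) (f : S8 → K 2 → ℂ)
    (hL : ∀ s m, L s m = uu m (sx s).1 * f m (sx s).2) (p : T6) (j k : S8) :
    PB (dl p.1) (dl p.2) (ew (fun s => L s j)) (ew (fun s => L s k)) =
      4 * E0 * ((uu j false * uu k true - uu k false * uu j true) * st (f j) (f k) p.1 p.2) := by
  rw [PB_rank p _ _ (uu j) (uu k) (f j) (f k) (fun s => hL s j) (fun s => hL s k)]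
  ring

lemma ph_rank (L : Matrix S8 S8 ℂ) (g : S8 → T6 → ℂ) (uu : S8 → Bool → ℂ) (f : S8 → K 2 → ℂ)
    (hL : ∀ s m, L s m = uu m (sx s).1 * f m (sx s).2) (a : Fin 3 → S8) :
    ph L g a = 4 * E0 * (xx uu f g (a 1) (a 2) (a 0) + xx uu f g (a 0) (a 2) (a 1) +
      xx uu f g (a 1) (a 0) (a 2)) := by
  have h1 : ph L g a = PP (B := Fin (2 + 1)) (fun b i j => ew (fun s => L s (a b)) i j +
      wc (g (a b)) i j) := rfl
  rw [h1, PP_three (fun b s => L s (a b)) (fun b => g (a b)), Fin.sum_univ_three]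
  have s1 : Equiv.swap (0 : Fin 3) 0 1 = 1 := by decide
  have s2 : Equiv.swap (0 : Fin 3) 0 2 = 2 := by decide
  have s3 : Equiv.swap (0 : Fin 3) 1 1 = 0 := by decide
  have s4 : Equiv.swap (0 : Fin 3) 1 2 = 2 := by decide
  have s5 : Equiv.swap (0 : Fin 3) 2 1 = 1 := by decide
  have s6 : Equiv.swap (0 : Fin 3) 2 2 = 0 := by decide
  rw [s1, s2, s3, s4, s5, s6]
  simp only [pc_rank L uu f hL]
  unfold xx
  simp only [Finset.mul_sum, mul_add]
  congr 1
  · congr 1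
    · exact Finset.sum_congr rfl fun p _ => by ring
    · exact Finset.sum_congr rfl fun p _ => by ring
  · exact Finset.sum_congr rfl fun p _ => by ring

/-- the sum of the squares of the polarised Pfaffians -/
lemma cube (X : S8 → S8 → S8 → ℝ) (hX : ∀ j k m, X k j m = X j k m) :
    ∑ j, ∑ k, ∑ m, (X k m j + X j m k + X k j m) ^ 2 =
      3 * ∑ j, ∑ k, ∑ m, X j k m ^ 2 + 6 * ∑ j, ∑ k, ∑ m, X j k m * X j m k := by
  have r1 : ∑ j, ∑ k, ∑ m, X k m j ^ 2 = ∑ j, ∑ k, ∑ m, X j k m ^ 2 :=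
    (rot3 (fun j k m => X j k m ^ 2)).symm
  have r2 : ∑ j, ∑ k, ∑ m, X j m k ^ 2 = ∑ j, ∑ k, ∑ m, X j k m ^ 2 :=
    Finset.sum_congr rfl fun j _ => Finset.sum_comm
  have r3 : ∑ j, ∑ k, ∑ m, X k m j * X k j m = ∑ j, ∑ k, ∑ m, X j k m * X j m k :=
    (rot3 (fun j k m => X j k m * X j m k)).symm
  have r4 : ∑ j, ∑ k, ∑ m, X k m j * X j m k = ∑ j, ∑ k, ∑ m, X j k m * X j m k := by
    have h1 := (rot3 (fun j k m => X j m k * X j k m)).symm
    have h2 := (rot3 (fun j k m => X k j m * X k m j)).symm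
    calc ∑ j, ∑ k, ∑ m, X k m j * X j m k = ∑ j, ∑ k, ∑ m, X m k j * X m j k :=
          Finset.sum_congr rfl fun j _ => Finset.sum_congr rfl fun k _ =>
            Finset.sum_congr rfl fun m _ => by rw [hX m k j, hX m j k]
      _ = ∑ j, ∑ k, ∑ m, X j m k * X j k m := h2.trans h1
      _ = _ := Finset.sum_congr rfl fun j _ => Finset.sum_congr rfl fun k _ =>
            Finset.sum_congr rfl fun m _ => mul_comm _ _
  have r5 : ∑ j, ∑ k, ∑ m, X j m k * X k j m = ∑ j, ∑ k, ∑ m, X j k m * X j m k :=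
    Finset.sum_congr rfl fun j _ => Finset.sum_congr rfl fun k _ =>
      Finset.sum_congr rfl fun m _ => by rw [hX j k m]; ring
  have r6 : ∑ j, ∑ k, ∑ m, X k j m ^ 2 = ∑ j, ∑ k, ∑ m, X j k m ^ 2 :=
    Finset.sum_congr rfl fun j _ => Finset.sum_congr rfl fun k _ =>
      Finset.sum_congr rfl fun m _ => by rw [hX j k m]
  have h : ∑ j, ∑ k, ∑ m, (X k m j + X j m k + X k j m) ^ 2 =
      ∑ j, ∑ k, ∑ m, X k m j ^ 2 + ∑ j, ∑ k, ∑ m, X j m k ^ 2 +
      ∑ j, ∑ k, ∑ m, X k j m ^ 2 + 2 * ∑ j, ∑ k, ∑ m, X k m j * X j m k +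
      2 * ∑ j, ∑ k, ∑ m, X k m j * X k j m + 2 * ∑ j, ∑ k, ∑ m, X j m k * X k j m := by
    simp only [Finset.mul_sum, ← Finset.sum_add_distrib]
    exact Finset.sum_congr rfl fun j _ => Finset.sum_congr rfl fun k _ =>
      Finset.sum_congr rfl fun m _ => by ring
  rw [h, r1, r2, r3, r4, r5, r6]
  ring

end Pool.Agent.K1H63.T2
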