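import Pool.Agent.K1H63.T2.Coord

/-!
# The coordinate theorem for a mixed block which is a sum of rank-one tensors, part 2
-/

set_option autoImplicit false

namespace Pool.Agent.K1H63.T2

open Finset Pool.Agent.TH598.GV Pool.Agent.R735.HA
open scoped ComplexConjugate

/-- the matrices of the pairings -/
noncomputable def Bg (g : S8 → T6 → ℝ) (m : S8) : Matrix (K 2) (K 2) ℝ := fun x y =>
  ∑ r : T6, g m r * st (Pi.single x 1) (Pi.single y 1) r.1 r.2

lemma st_lin (f h : K 2 → ℝ) : ∀ p q, ∑ x, ∑ y, f x * h y *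
    st (Pi.single x 1) (Pi.single y 1) p q = st f h p q := by
  refine all4 (all4 ?_ ?_ ?_ ?_) (all4 ?_ ?_ ?_ ?_) (all4 ?_ ?_ ?_ ?_) (all4 ?_ ?_ ?_ ?_)
  all_goals simp only [st, mn, sum4]
  all_goals simp
  all_goals ring

lemma be_Bg (f : S8 → K 2 → ℝ) (g : S8 → T6 → ℝ) (j k m : S8) :
    be f (Bg g) j k m = ∑ r : T6, g m r * st (f j) (f k) r.1 r.2 := by
  have h1 : ∀ r : T6, st (f j) (f k) r.1 r.2 = ∑ x, ∑ y, f j x * f k y *
    st (Pi.single x 1) (Pi.single y 1) r.1 r.2 := fun r => (st_lin (f j) (f k) r.1 r.2).symm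
  simp only [h1]
  unfold be Bg Matrix.mulVec dotProduct
  simp only [Finset.mul_sum, Finset.sum_mul]
  have h2 : ∀ F : K 2 → K 2 → T6 → ℝ, ∑ x, ∑ y, ∑ r, F x y r = ∑ r, ∑ x, ∑ y, F x y r := by
    intro F
    calc ∑ x, ∑ y, ∑ r, F x y r = ∑ x, ∑ r, ∑ y, F x y r :=
          Finset.sum_congr rfl fun x _ => Finset.sum_comm
      _ = _ := Finset.sum_comm
  rw [h2]
  refine Finset.sum_congr rfl fun r _ => Finset.sum_congr rfl fun x _ =>
    Finset.sum_congr rfl fun y _ => by ring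

lemma Bg_anti (g : S8 → T6 → ℝ) (m : S8) : (Bg g m).transpose = -(Bg g m) := by
  ext x y
  rw [Matrix.transpose_apply, Matrix.neg_apply]
  unfold Bg
  rw [← Finset.sum_neg_distrib]
  refine Finset.sum_congr rfl fun r _ => ?_
  rw [st_swap (Pi.single x 1) (Pi.single y 1)]
  ring

lemma st_cast (f g : K 2 → ℝ) (x y : K 2) :
    st (fun i => ((f i : ℝ) : ℂ)) (fun i => ((g i : ℝ) : ℂ)) x y = ((st f g x y : ℝ) : ℂ) :=
  st_map Complex.ofRealHom f g x y

/-- the colours -/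
def ub (a b : S8 → ℝ) (m : S8) (c : Bool) : ℝ := if c then b m else a m

/-- the factor of the mixed block -/
noncomputable def Lr (a b : S8 → ℝ) (f : S8 → K 2 → ℝ) : Matrix S8 S8 ℝ := fun s m =>
  ub a b m (sx s).1 * f m (sx s).2

/-- casts -/
noncomputable def cM {A B : Type} (M : Matrix A B ℝ) : Matrix A B ℂ := fun x y => ((M x y : ℝ) : ℂ)

/-- casts -/
noncomputable def cG {A B : Type} (M : A → B → ℝ) : A → B → ℂ := fun x y => ((M x y : ℝ) : ℂ)

lemma hLr (a b : S8 → ℝ) (f : S8 → K 2 → ℝ) (s m : S8) : cM (Lr a b f) s m =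
    cG (ub a b) m (sx s).1 * cG f m (sx s).2 := by
  unfold cM cG Lr
  push_cast
  ring

lemma xx_cast (a b : S8 → ℝ) (f : S8 → K 2 → ℝ) (g : S8 → T6 → ℝ) (j k m : S8) :
    xx (cG (ub a b)) (cG f) (cG g) j k m = ((sc a b j k * be f (Bg g) j k m : ℝ) : ℂ) := by
  rw [be_Bg]
  unfold xx sc
  have h : ∀ r : T6, st (cG f j) (cG f k) r.1 r.2 = ((st (f j) (f k) r.1 r.2 : ℝ) : ℂ) :=
    fun r => st_cast (f j) (f k) r.1 r.2
  simp only [h]
  simp only [cG, ub, Bool.false_eq_true, if_false, if_true]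
  push_cast
  ring

/-- the Schur complement on the star -/
noncomputable def Sg (f : S8 → K 2 → ℝ) (Γ : Matrix T6 T6 ℝ) (j k : S8) : ℝ :=
  ∑ p : T6, ∑ q : T6, Γ p q * st (f j) (f k) p.1 p.2 * st (f j) (f k) q.1 q.2

lemma sum_ph (a b : S8 → ℝ) (f : S8 → K 2 → ℝ) (g : S8 → T6 → ℝ) :
    ∑ t, ph (cM (Lr a b f)) (cG g) t * conj (ph (cM (Lr a b f)) (cG g) t) =
      ((16 * Complex.normSq E0 * ∑ j, ∑ k, ∑ m, (sc a b k m * be f (Bg g) k m j +
        sc a b j m * be f (Bg g) j m k + sc a b k j * be f (Bg g) k j m) ^ 2 : ℝ) : ℂ) := by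
  have h1 := sum_three (A := S8) (fun t => ph (cM (Lr a b f)) (cG g) t *
    conj (ph (cM (Lr a b f)) (cG g) t))
  have h2 : ∀ j k m : S8, ph (cM (Lr a b f)) (cG g) (Fin.cons j (Fin.cons k (Fin.cons m
      finZeroElim))) = 4 * E0 * ((sc a b k m * be f (Bg g) k m j +
        sc a b j m * be f (Bg g) j m k + sc a b k j * be f (Bg g) k j m : ℝ) : ℂ) := by
    intro j k m
    have h3 := ph_rank (cM (Lr a b f)) (cG g) (cG (ub a b)) (cG f) (hLr a b f)
      (Fin.cons j (Fin.cons k (Fin.cons m finZeroElim)))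
    rw [h3]
    change 4 * E0 * (xx (cG (ub a b)) (cG f) (cG g) k m j + xx (cG (ub a b)) (cG f) (cG g) j m k +
      xx (cG (ub a b)) (cG f) (cG g) k j m) = _
    rw [xx_cast, xx_cast, xx_cast]
    push_cast
    ring
  refine h1.trans ?_
  simp only [h2]
  push_cast
  rw [Finset.mul_sum]
  refine Finset.sum_congr rfl fun j _ => ?_
  rw [Finset.mul_sum]
  refine Finset.sum_congr rfl fun k _ => ?_
  rw [Finset.mul_sum]
  refine Finset.sum_congr rfl fun m _ => ?_
  rw [← Complex.mul_conj]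
  simp only [map_mul, map_add, Complex.conj_ofReal, Complex.conj_ofNat]
  ring

lemma sum_pc (a b : S8 → ℝ) (f : S8 → K 2 → ℝ) (p q : T6) :
    ∑ t, pc (cM (Lr a b f)) p t * conj (pc (cM (Lr a b f)) q t) =
      ((16 * Complex.normSq E0 * ∑ j, ∑ k, sc a b j k ^ 2 * (st (f j) (f k) p.1 p.2 *
        st (f j) (f k) q.1 q.2) : ℝ) : ℂ) := by
  have h1 := sum_two (A := S8) (fun t => pc (cM (Lr a b f)) p t * conj (pc (cM (Lr a b f)) q t))
  have h2 : ∀ (p : T6) (j k : S8), pc (cM (Lr a b f)) p (Fin.cons j (Fin.cons k finZeroElim)) =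
      4 * E0 * ((sc a b j k * st (f j) (f k) p.1 p.2 : ℝ) : ℂ) := by
    intro p j k
    rw [pc_eq]
    have h3 := pc_rank (cM (Lr a b f)) (cG (ub a b)) (cG f) (hLr a b f) p j k
    refine h3.trans ?_
    have h : st (cG f j) (cG f k) p.1 p.2 = ((st (f j) (f k) p.1 p.2 : ℝ) : ℂ) :=
      st_cast (f j) (f k) p.1 p.2
    rw [h]
    simp only [cG, ub, Bool.false_eq_true, if_false, if_true, sc]
    push_cast
    ring
  refine h1.trans ?_
  simp only [h2]
  push_cast
  rw [Finset.mul_sum]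
  refine Finset.sum_congr rfl fun j _ => ?_
  rw [Finset.mul_sum]
  refine Finset.sum_congr rfl fun k _ => ?_
  rw [← Complex.mul_conj]
  simp only [map_mul, Complex.conj_ofReal, Complex.conj_ofNat]
  ring

/-- the double alternating sum in terms of the atoms -/
theorem GG_atoms (a b : S8 → ℝ) (f : S8 → K 2 → ℝ) (g : S8 → T6 → ℝ) (Γ : Matrix T6 T6 ℝ) :
    (GG (HZ (cM (Lr a b f)) (cG g) (cM Γ))).re = 48 * Complex.normSq E0 *
      (∑ j, ∑ k, sc a b j k ^ 2 * (Sg f Γ j k + ∑ m, be f (Bg g) j k m ^ 2) +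
        2 * ∑ j, ∑ k, ∑ m, sc a b j k * sc a b j m * be f (Bg g) j k m *
          be f (Bg g) j m k) := by
  rw [GG_expand, sum_ph]
  have hc := cube (fun j k m => sc a b j k * be f (Bg g) j k m) (by
    intro j k m
    have h1 : be f (Bg g) k j m = -be f (Bg g) j k m := alt_dot (Bg_anti g m) (f k) (f j)
    have h2 : sc a b k j = -sc a b j k := by unfold sc; ring
    change sc a b k j * be f (Bg g) k j m = _
    rw [h1, h2]
    ring)
  rw [hc]
  have h2 : (3 : ℂ) * ∑ p : T6, ∑ q : T6, cM Γ p q * ∑ t, pc (cM (Lr a b f)) p t *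
      conj (pc (cM (Lr a b f)) q t) =
      ((48 * Complex.normSq E0 * ∑ j, ∑ k, sc a b j k ^ 2 * Sg f Γ j k : ℝ) : ℂ) := by
    simp only [sum_pc]
    have h3 : ∑ p : T6, ∑ q : T6, Γ p q * (16 * Complex.normSq E0 * ∑ j, ∑ k,
        sc a b j k ^ 2 * (st (f j) (f k) p.1 p.2 * st (f j) (f k) q.1 q.2)) =
        16 * Complex.normSq E0 * ∑ j, ∑ k, sc a b j k ^ 2 * Sg f Γ j k := by
      unfold Sg
      simp only [Finset.mul_sum]
      have h4 : ∀ F : T6 → T6 → S8 → S8 → ℝ, ∑ p, ∑ q, ∑ j, ∑ k, F p q j k =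
          ∑ j, ∑ k, ∑ p, ∑ q, F p q j k := by
        intro F
        calc ∑ p, ∑ q, ∑ j, ∑ k, F p q j k = ∑ p, ∑ j, ∑ q, ∑ k, F p q j k :=
              Finset.sum_congr rfl fun p _ => Finset.sum_comm
          _ = ∑ j, ∑ p, ∑ q, ∑ k, F p q j k := Finset.sum_comm
          _ = ∑ j, ∑ p, ∑ k, ∑ q, F p q j k := Finset.sum_congr rfl fun p _ =>
              Finset.sum_congr rfl fun j _ => Finset.sum_comm
          _ = _ := Finset.sum_congr rfl fun j _ => Finset.sum_comm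
      rw [h4]
      exact Finset.sum_congr rfl fun j _ => Finset.sum_congr rfl fun k _ =>
        Finset.sum_congr rfl fun p _ => Finset.sum_congr rfl fun q _ => by ring
    have h5 : (48 : ℝ) * Complex.normSq E0 * ∑ j, ∑ k, sc a b j k ^ 2 * Sg f Γ j k =
        3 * ∑ p : T6, ∑ q : T6, Γ p q * (16 * Complex.normSq E0 * ∑ j, ∑ k,
        sc a b j k ^ 2 * (st (f j) (f k) p.1 p.2 * st (f j) (f k) q.1 q.2)) := by
      rw [h3]
      ring
    rw [h5]
    simp only [cM]
    push_cast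
    rfl
  rw [h2, Complex.add_re, Complex.ofReal_re, Complex.ofReal_re]
  simp only [mul_add, Finset.sum_add_distrib, Finset.mul_sum]
  have e : ∀ u v w u' v' w' : ℝ, u = w' → v = v' → w = u' → u + v + w = u' + w' + v' := by
    intros
    linarith
  refine e _ _ _ _ _ _ ?_ ?_ ?_
  · exact Finset.sum_congr rfl fun j _ => Finset.sum_congr rfl fun k _ =>
      Finset.sum_congr rfl fun m _ => by ring
  · exact Finset.sum_congr rfl fun j _ => Finset.sum_congr rfl fun k _ =>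
      Finset.sum_congr rfl fun m _ => by ring
  · exact Finset.sum_congr rfl fun j _ => Finset.sum_congr rfl fun k _ => by ring

end Pool.Agent.K1H63.T2
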