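import Pool.Agent.K1H63.T2.Coord2

/-!
# The coordinate theorem for a mixed block which is a sum of rank-one tensors, part 3
-/

set_option autoImplicit false

namespace Pool.Agent.K1H63.T2

open Finset Pool.Agent.TH598.GV Pool.Agent.R735.HA
open scoped ComplexConjugate

/-- nonnegative on the real planes -/
def RePos {I : Type} [Fintype I] (H : I → I → I → I → ℂ) : Prop :=
  ∀ z w : I → ℂ, (∀ i, conj (z i) = z i) → (∀ i, conj (w i) = w i) → 0 ≤ (qf H z w).re

lemma tz_real (s : ℝ) (A : Bool → K 2 → ℝ) (F G : K 2 → ℝ) (p : K 2) (i : Ix 2) :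
    conj (tz (s : ℂ) (cG A) (fun x => ((F x : ℝ) : ℂ)) (fun x => ((G x : ℝ) : ℂ)) p i) =
      tz (s : ℂ) (cG A) (fun x => ((F x : ℝ) : ℂ)) (fun x => ((G x : ℝ) : ℂ)) p i := by
  rcases em_or i with ⟨c, rfl⟩ | ⟨x, rfl⟩
  · unfold tz
    rw [zv_0]
    unfold cG
    rw [map_neg, Complex.conj_ofReal]
  · unfold tz
    rw [zv_em, st_cast, map_mul, map_mul, Complex.conj_ofReal, Complex.conj_ofReal,
      Complex.conj_ofNat]

/-- the inequality of the planes -/
lemma planes (a b : S8 → ℝ) (f : S8 → K 2 → ℝ) (g : S8 → T6 → ℝ) (Γ : Matrix T6 T6 ℝ)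
    (hg : ∀ a i j, g a (j, i) = -g a (i, j)) (hΓ1 : ∀ i j q, Γ (j, i) q = -Γ (i, j) q)
    (hΓ2 : ∀ p i j, Γ p (j, i) = -Γ p (i, j))
    (hK : RePos (HZ (cM (Lr a b f)) (cG g) (cM Γ))) (j k : S8) (A A' : K 2 → ℝ)
    (h1 : A ⬝ᵥ f j = 0) (h2 : A ⬝ᵥ f k = 0) (h3 : A' ⬝ᵥ f j = 0) (h4 : A' ⬝ᵥ f k = 0) :
    0 ≤ sc a b j k ^ 2 * Sg f Γ j k + ∑ m, (sc a b j k * be f (Bg g) j k m +
      a m * (A ⬝ᵥ f m) + b m * (A' ⬝ᵥ f m)) ^ 2 := by
  by_cases hpq : ∃ p q, sc a b j k * st (f j) (f k) p q ≠ 0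
  · obtain ⟨p, q, hpq⟩ := hpq
    obtain ⟨AA, hAA⟩ : ∃ AA : Bool → K 2 → ℝ, AA = fun c => if c then A' else A := ⟨_, rfl⟩
    have hAj : ∀ c, ∑ y, cG AA c y * cG f j y = 0 := by
      intro c
      have : ∑ y, AA c y * f j y = 0 := by
        cases c
        · simp only [hAA, Bool.false_eq_true, if_false]; exact h1
        · simp only [hAA, if_true]; exact h3
      unfold cG
      exact_mod_cast this
    have hAk : ∀ c, ∑ y, cG AA c y * cG f k y = 0 := by
      intro c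
      have : ∑ y, AA c y * f k y = 0 := by
        cases c
        · simp only [hAA, Bool.false_eq_true, if_false]; exact h2
        · simp only [hAA, if_true]; exact h4
      unfold cG
      exact_mod_cast this
    have h5 := hK (tz (sc a b j k : ℂ) (cG AA) (cG f j) (cG f k) p)
      (tz (sc a b j k : ℂ) (cG AA) (cG f j) (cG f k) q)
      (tz_real (sc a b j k) AA (f j) (f k) p) (tz_real (sc a b j k) AA (f j) (f k) q)
    rw [qf_HZ] at h5
    have hst : ∀ x y, st (cG f j) (cG f k) x y = ((st (f j) (f k) x y : ℝ) : ℂ) :=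
      fun x y => st_cast (f j) (f k) x y
    have h6 : ∀ m, bl (hz (cM (Lr a b f)) (cG g) m)
        (tz (sc a b j k : ℂ) (cG AA) (cG f j) (cG f k) p)
        (tz (sc a b j k : ℂ) (cG AA) (cG f j) (cG f k) q) =
        ((2 * sc a b j k * st (f j) (f k) p q * (sc a b j k * be f (Bg g) j k m +
          a m * (A ⬝ᵥ f m) + b m * (A' ⬝ᵥ f m)) : ℝ) : ℂ) := by
      intro m
      rw [bl_hz (cM (Lr a b f)) (cG g) (fun a i j => by unfold cG; rw [hg]; push_cast; rfl)
        (cG (ub a b)) (cG f) (hLr a b f) (cG f j) (cG f k) (cG AA) hAj hAk (sc a b j k : ℂ) p q m,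
        be_Bg]
      simp only [hst]
      unfold dotProduct
      simp only [cG, ub, hAA, Fintype.sum_bool, Bool.false_eq_true, if_false, if_true]
      push_cast
      ring
    have h7 : ∀ r : T6, bl (wp r)
        (tz (sc a b j k : ℂ) (cG AA) (cG f j) (cG f k) p)
        (tz (sc a b j k : ℂ) (cG AA) (cG f j) (cG f k) q) =
        ((4 * sc a b j k ^ 2 * (st (f j) (f k) p r.1 * st (f j) (f k) q r.2) : ℝ) : ℂ) := by
      intro r
      rw [bl_wp]
      unfold tz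
      rw [zv_em, zv_em, hst, hst]
      push_cast
      ring
    simp only [h6, h7] at h5
    have h8 : (∑ p_1 : T6, ∑ q_1 : T6, cM Γ p_1 q_1 *
        ((4 * sc a b j k ^ 2 * (st (f j) (f k) p p_1.1 * st (f j) (f k) q p_1.2) : ℝ) : ℂ) *
        conj ((4 * sc a b j k ^ 2 * (st (f j) (f k) p q_1.1 * st (f j) (f k) q q_1.2) : ℝ) : ℂ)).re
        = (2 * sc a b j k * st (f j) (f k) p q) ^ 2 * (sc a b j k ^ 2 * Sg f Γ j k) := by
      have h9 := alt_st2 Γ hΓ1 hΓ2 (f j) (f k) p q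
      have h10 : (∑ p_1 : T6, ∑ q_1 : T6, cM Γ p_1 q_1 *
        ((4 * sc a b j k ^ 2 * (st (f j) (f k) p p_1.1 * st (f j) (f k) q p_1.2) : ℝ) : ℂ) *
        conj ((4 * sc a b j k ^ 2 * (st (f j) (f k) p q_1.1 * st (f j) (f k) q q_1.2) : ℝ) : ℂ)) =
        ((∑ p_1 : T6, ∑ q_1 : T6, Γ p_1 q_1 *
        (4 * sc a b j k ^ 2 * (st (f j) (f k) p p_1.1 * st (f j) (f k) q p_1.2)) *
        (4 * sc a b j k ^ 2 * (st (f j) (f k) p q_1.1 * st (f j) (f k) q q_1.2)) : ℝ) : ℂ) := by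
        simp only [Complex.conj_ofReal, cM]
        push_cast
        rfl
      rw [h10, Complex.ofReal_re]
      have h11 : ∑ p_1 : T6, ∑ q_1 : T6, Γ p_1 q_1 *
        (4 * sc a b j k ^ 2 * (st (f j) (f k) p p_1.1 * st (f j) (f k) q p_1.2)) *
        (4 * sc a b j k ^ 2 * (st (f j) (f k) p q_1.1 * st (f j) (f k) q q_1.2)) =
        4 * sc a b j k ^ 4 * (4 * ∑ p_1 : T6, ∑ q_1 : T6, Γ p_1 q_1 *
        (st (f j) (f k) p p_1.1 * st (f j) (f k) q p_1.2) *
        (st (f j) (f k) p q_1.1 * st (f j) (f k) q q_1.2)) := by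
        simp only [Finset.mul_sum]
        exact Finset.sum_congr rfl fun p _ => Finset.sum_congr rfl fun q _ => by ring
      rw [h11, h9]
      unfold Sg
      ring
    rw [h8] at h5
    have h12 : ∀ x : ℝ, ‖((2 * sc a b j k * st (f j) (f k) p q * x : ℝ) : ℂ)‖ ^ 2 =
        (2 * sc a b j k * st (f j) (f k) p q) ^ 2 * x ^ 2 := by
      intro x
      rw [Complex.norm_real, Real.norm_eq_abs, sq_abs]
      ring
    simp only [h12] at h5
    rw [← Finset.mul_sum, ← mul_add] at h5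
    have h13 : 0 < (2 * sc a b j k * st (f j) (f k) p q) ^ 2 := by
      have : 2 * sc a b j k * st (f j) (f k) p q ≠ 0 := by
        rw [mul_assoc]
        exact mul_ne_zero two_ne_zero hpq
      positivity
    have h14 := nonneg_of_mul_nonneg_right h5 h13
    linarith
  · push Not at hpq
    have h5 : sc a b j k ^ 2 * Sg f Γ j k = 0 := by
      unfold Sg
      rw [Finset.mul_sum]
      refine Finset.sum_eq_zero fun p _ => ?_
      rw [Finset.mul_sum]
      refine Finset.sum_eq_zero fun q _ => ?_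
      have := hpq p.1 p.2
      calc _ = Γ p q * (sc a b j k * st (f j) (f k) p.1 p.2) *
            (sc a b j k * st (f j) (f k) q.1 q.2) := by ring
        _ = 0 := by rw [this]; ring
    rw [h5, zero_add]
    exact Finset.sum_nonneg fun m _ => sq_nonneg _

/-- **The coordinate theorem**, mixed block which is a sum of rank-one tensors. -/
theorem coordR (a b : S8 → ℝ) (f : S8 → K 2 → ℝ) (g : S8 → T6 → ℝ) (Γ : Matrix T6 T6 ℝ)
    (hnd : ∀ j, ∀ y : K 2 → ℝ, (∀ k, sc a b j k * (y ⬝ᵥ f k) = 0) → y = 0)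
    (hg : ∀ a i j, g a (j, i) = -g a (i, j)) (hΓ1 : ∀ i j q, Γ (j, i) q = -Γ (i, j) q)
    (hΓ2 : ∀ p i j, Γ p (j, i) = -Γ p (i, j))
    (hK : RePos (HZ (cM (Lr a b f)) (cG g) (cM Γ))) :
    0 ≤ (GG (HZ (cM (Lr a b f)) (cG g) (cM Γ))).re := by
  rw [GG_atoms]
  have h1 := core a b f (Bg g) (Sg f Γ) hnd (Bg_anti g)
    (fun j k A A' h1 h2 h3 h4 => planes a b f g Γ hg hΓ1 hΓ2 hK j k A A' h1 h2 h3 h4)
  have h2 := Complex.normSq_nonneg E0
  positivity

end Pool.Agent.K1H63.T2
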