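import Mathlib

/-!
# A positive definite matrix with two by two symmetric blocks is a sum of rank-one tensors
-/

set_option autoImplicit false

namespace Pool.Agent.K1H63.T2

open Finset Matrix

variable {ι : Type} [Fintype ι] [DecidableEq ι]

lemma diag_real (M : Matrix ι ι ℝ) (hM : Mᵀ = M) :
    ∃ (U : Matrix ι ι ℝ) (d : ι → ℝ), U * Uᵀ = 1 ∧ M = U * diagonal d * Uᵀ ∧
      (M.PosSemidef → ∀ i, 0 ≤ d i) := by
  have hH : M.IsHermitian := by
    rw [Matrix.IsHermitian, conjTranspose_eq_transpose_of_trivial]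
    exact hM
  refine ⟨(hH.eigenvectorUnitary : Matrix ι ι ℝ), hH.eigenvalues, ?_, ?_, ?_⟩
  · have h := Unitary.mul_star_self_of_mem hH.eigenvectorUnitary.2
    rw [star_eq_conjTranspose, conjTranspose_eq_transpose_of_trivial] at h
    exact h
  · have h := hH.spectral_theorem
    rw [Unitary.conjStarAlgAut_apply, star_eq_conjTranspose,
      conjTranspose_eq_transpose_of_trivial] at h
    exact h
  · intro hp i
    exact hp.eigenvalues_nonneg i

lemma sq_real (M : Matrix ι ι ℝ) (hM : M.PosSemidef) : ∃ B : Matrix ι ι ℝ, M = B * Bᵀ := by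
  have ht : Mᵀ = M := by
    have := hM.isHermitian
    rw [Matrix.IsHermitian, conjTranspose_eq_transpose_of_trivial] at this
    exact this
  obtain ⟨U, d, -, hU, hd⟩ := diag_real M ht
  refine ⟨U * diagonal (fun i => Real.sqrt (d i)), ?_⟩
  rw [transpose_mul, diagonal_transpose]
  have h1 : diagonal (fun i => Real.sqrt (d i)) * diagonal (fun i => Real.sqrt (d i)) =
      diagonal d := by
    rw [diagonal_mul_diagonal]
    congr 1
    funext i
    exact Real.mul_self_sqrt (hd hM i)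
  calc M = U * diagonal d * Uᵀ := hU
    _ = U * (diagonal (fun i => Real.sqrt (d i)) * diagonal (fun i => Real.sqrt (d i))) * Uᵀ := by
        rw [h1]
    _ = _ := by simp only [Matrix.mul_assoc]

omit [DecidableEq ι] in
lemma dot_AAt (F : Matrix ι ι ℝ) (E : Matrix ι ι ℝ) (x y : ι → ℝ) :
    x ⬝ᵥ ((F * E * Fᵀ) *ᵥ y) = (Fᵀ *ᵥ x) ⬝ᵥ (E *ᵥ (Fᵀ *ᵥ y)) := by
  rw [← mulVec_mulVec, ← mulVec_mulVec, dotProduct_mulVec, ← mulVec_transpose]

/-- the decomposition -/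
theorem sep (P c R : Matrix ι ι ℝ) (hP : Pᵀ = P) (hc : cᵀ = c) (hR : Rᵀ = R)
    (hpos : ∀ x y : ι → ℝ, (x ≠ 0 ∨ y ≠ 0) →
      0 < x ⬝ᵥ (P *ᵥ x) + 2 * (x ⬝ᵥ (c *ᵥ y)) + y ⬝ᵥ (R *ᵥ y)) :
    ∃ (f : ι ⊕ ι → ι → ℝ) (a b : ι ⊕ ι → ℝ),
      (∀ x y, P x y = ∑ m, a m * a m * (f m x * f m y)) ∧
      (∀ x y, c x y = ∑ m, a m * b m * (f m x * f m y)) ∧
      (∀ x y, R x y = ∑ m, b m * b m * (f m x * f m y)) := by
  have hPH : P.IsHermitian := by
    rw [Matrix.IsHermitian, conjTranspose_eq_transpose_of_trivial]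
    exact hP
  have hPpos : P.PosDef := by
    refine PosDef.of_dotProduct_mulVec_pos hPH fun x hx => ?_
    have h := hpos x 0 (Or.inl hx)
    rw [star_trivial]
    simpa using h
  obtain ⟨A, hA⟩ := sq_real P hPpos.posSemidef
  have hdetA : IsUnit A.det := by
    have h1 : IsUnit P.det := by
      rw [← Matrix.isUnit_iff_isUnit_det]
      exact hPpos.isUnit
    rw [hA, Matrix.det_mul] at h1
    exact isUnit_of_mul_isUnit_left h1
  obtain ⟨N, hN⟩ : ∃ N : Matrix ι ι ℝ, N = A⁻¹ * c * (A⁻¹)ᵀ := ⟨_, rfl⟩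
  have hNt : Nᵀ = N := by
    rw [hN, transpose_mul, transpose_mul, transpose_transpose, hc, Matrix.mul_assoc]
  obtain ⟨U, d, hUU, hU, -⟩ := diag_real N hNt
  obtain ⟨F, hF⟩ : ∃ F : Matrix ι ι ℝ, F = A * U := ⟨_, rfl⟩
  have hFP : P = F * Fᵀ := by
    rw [hF, transpose_mul]
    calc P = A * 1 * Aᵀ := by rw [Matrix.mul_one]; exact hA
      _ = A * (U * Uᵀ) * Aᵀ := by rw [hUU]
      _ = _ := by simp only [Matrix.mul_assoc]
  have hAN : A * N * Aᵀ = c := by
    rw [hN]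
    have h1 : A * A⁻¹ = 1 := Matrix.mul_nonsing_inv A hdetA
    have h2 : (A⁻¹)ᵀ * Aᵀ = 1 := by rw [← transpose_mul, h1, transpose_one]
    calc A * (A⁻¹ * c * (A⁻¹)ᵀ) * Aᵀ = (A * A⁻¹) * c * ((A⁻¹)ᵀ * Aᵀ) := by
          simp only [Matrix.mul_assoc]
      _ = c := by rw [h1, h2, Matrix.one_mul, Matrix.mul_one]
  have hFc : c = F * diagonal d * Fᵀ := by
    rw [hF, transpose_mul]
    calc c = A * N * Aᵀ := hAN.symm
      _ = A * (U * diagonal d * Uᵀ) * Aᵀ := by rw [← hU]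
      _ = _ := by simp only [Matrix.mul_assoc]
  have hdetF : IsUnit F.det := by
    have h1 : IsUnit P.det := by
      rw [← Matrix.isUnit_iff_isUnit_det]
      exact hPpos.isUnit
    rw [hFP, Matrix.det_mul] at h1
    exact isUnit_of_mul_isUnit_left h1
  have hdetFt : IsUnit Fᵀ.det := by rw [det_transpose]; exact hdetF
  obtain ⟨Q, hQ⟩ : ∃ Q : Matrix ι ι ℝ, Q = R - F * (diagonal d * diagonal d) * Fᵀ := ⟨_, rfl⟩
  have hQH : Q.IsHermitian := by
    rw [Matrix.IsHermitian, conjTranspose_eq_transpose_of_trivial, hQ, transpose_sub, hR,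
      transpose_mul, transpose_mul, transpose_transpose, transpose_mul, diagonal_transpose,
      ← Matrix.mul_assoc]
  have hQpos : Q.PosSemidef := by
    refine PosSemidef.of_dotProduct_mulVec_nonneg hQH fun y => ?_
    rw [star_trivial]
    obtain ⟨v, hv⟩ : ∃ v : ι → ℝ, v = diagonal d *ᵥ (Fᵀ *ᵥ y) := ⟨_, rfl⟩
    obtain ⟨x, hx⟩ : ∃ x : ι → ℝ, Fᵀ *ᵥ x = -v := by
      refine ⟨(Fᵀ)⁻¹ *ᵥ (-v), ?_⟩
      rw [mulVec_mulVec, Matrix.mul_nonsing_inv _ hdetFt, one_mulVec]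
    have h0 : 0 ≤ x ⬝ᵥ (P *ᵥ x) + 2 * (x ⬝ᵥ (c *ᵥ y)) + y ⬝ᵥ (R *ᵥ y) := by
      by_cases h : x ≠ 0 ∨ y ≠ 0
      · exact (hpos x y h).le
      · push Not at h
        rw [h.1, h.2]
        simp
    have e1 : x ⬝ᵥ (P *ᵥ x) = v ⬝ᵥ v := by
      have : P = F * 1 * Fᵀ := by rw [Matrix.mul_one]; exact hFP
      rw [this, dot_AAt, one_mulVec, hx]
      simp
    have e2 : x ⬝ᵥ (c *ᵥ y) = -(v ⬝ᵥ v) := by
      rw [hFc, dot_AAt, hx, ← hv]
      simp
    have e3 : y ⬝ᵥ (Q *ᵥ y) = y ⬝ᵥ (R *ᵥ y) - v ⬝ᵥ v := by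
      rw [hQ, sub_mulVec, dotProduct_sub, dot_AAt, ← mulVec_mulVec, ← hv]
      congr 1
      rw [dotProduct_mulVec, ← mulVec_transpose, diagonal_transpose, ← hv]
    rw [e3]
    rw [e1, e2] at h0
    linarith
  obtain ⟨Y, hY⟩ := sq_real Q hQpos
  have hRR : R = F * (diagonal d * diagonal d) * Fᵀ + Y * Yᵀ := by
    rw [← hY, hQ]
    simp
  refine ⟨Sum.elim (fun i x => F x i) (fun i x => Y x i), Sum.elim (fun _ => 1) (fun _ => 0),
    Sum.elim d (fun _ => 1), fun x y => ?_, fun x y => ?_, fun x y => ?_⟩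
  · rw [Fintype.sum_sum_type]
    simp only [Sum.elim_inl, Sum.elim_inr, mul_zero, zero_mul, Finset.sum_const_zero, add_zero,
      one_mul]
    conv_lhs => rw [hFP]
    rw [mul_apply]
    rfl
  · rw [Fintype.sum_sum_type]
    simp only [Sum.elim_inl, Sum.elim_inr, zero_mul, Finset.sum_const_zero, add_zero,
      one_mul]
    conv_lhs => rw [hFc]
    rw [mul_apply]
    refine Finset.sum_congr rfl fun i _ => ?_
    rw [mul_diagonal, transpose_apply]
    ring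
  · rw [Fintype.sum_sum_type]
    simp only [Sum.elim_inl, Sum.elim_inr, one_mul]
    conv_lhs => rw [hRR]
    rw [Matrix.add_apply, mul_apply, mul_apply]
    congr 1
    refine Finset.sum_congr rfl fun i _ => ?_
    rw [diagonal_mul_diagonal, mul_diagonal, transpose_apply]
    ring

end Pool.Agent.K1H63.T2
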