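import Pool.Agent.K1H63.T2.Coord3
import Pool.Agent.K1H63.T2.Decomp
import Pool.Agent.R735.HA.Semi

/-!
# Normal form of a real tensor with a null plane, positive definite mixed block
-/

set_option autoImplicit false

namespace Pool.Agent.K1H63.T2

open Finset Pool.Agent.TH598.GV Pool.Agent.R735.HA
open scoped ComplexConjugate

/-- normal form with a given factor of the mixed block -/
theorem dec_of (H : Ix 2 → Ix 2 → Ix 2 → Ix 2 → ℂ) (hH : HS H)
    (h0 : ∀ k l, H (0, false) (0, true) k l = 0) (L : Matrix S8 S8 ℂ) (G : T6 → S8 → ℂ)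
    (hg : ∀ p t, ∑ a, G p a * conj (L t a) = H (em p.1) (em p.2) (pz t).1 (pz t).2)
    (hLs : ∀ s t, ∑ a, L s a * conj (L t a) = H (pz s).1 (pz s).2 (pz t).1 (pz t).2) :
    H = HZ L (fun a p => G p a) (fun p q => H (em p.1) (em p.2) (em q.1) (em q.2) -
      ∑ a, G p a * conj (G q a)) := by
  have hg' : ∀ s q, ∑ a, L s a * conj (G q a) = H (pz s).1 (pz s).2 (em q.1) (em q.2) := by
    intro s q
    rw [hH.herm (em q.1) (em q.2) (pz s).1 (pz s).2, ← hg q s, map_sum]
    refine Finset.sum_congr rfl fun a _ => ?_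
    rw [map_mul, Complex.conj_conj]
    ring
  funext i j i' j'
  have h0' : ∀ x y, H x y (0, false) (0, true) = 0 := by
    intro x y
    rw [hH.herm (0, false) (0, true) x y, h0, map_zero]
  have hcl : ∀ x y i' j', H x y i' j' = ∑ t, H x y (pz t).1 (pz t).2 * BS t i' j'
      + ∑ q : T6, H x y (em q.1) (em q.2) * wp q i' j' := by
    intro x y i' j'
    exact dec2 (fun i' j' => H x y i' j') (fun i j => herm_alt hH x y i j) (h0' x y) i' j'
  have hcr : H i j i' j' = ∑ s, H (pz s).1 (pz s).2 i' j' * BS s i j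
      + ∑ p : T6, H (em p.1) (em p.2) i' j' * wp p i j :=
    dec2 (fun i j => H i j i' j') (fun i j => hH.alt i j i' j') (h0 i' j') i j
  have hh1 : ∀ a, hz L (fun a p => G p a) a i j
      = ∑ s, L s a * BS s i j + ∑ p, G p a * wp p i j := fun a => rfl
  have hh2 : ∀ a, conj (hz L (fun a p => G p a) a i' j')
      = ∑ s, conj (L s a) * BS s i' j' + ∑ p, conj (G p a) * wp p i' j' := by
    intro a
    change conj (∑ s, L s a * BS s i' j' + ∑ p, G p a * wp p i' j') = _
    rw [map_add, map_sum, map_sum]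
    congr 1
    · refine Finset.sum_congr rfl fun s _ => by rw [map_mul, BS_real]
    · refine Finset.sum_congr rfl fun s _ => by rw [map_mul, conj_wp]
  unfold HZ RZ SZ
  rw [hcr]
  have hsum : ∑ a, hz L (fun a p => G p a) a i j * conj (hz L (fun a p => G p a) a i' j')
      = ∑ s, ∑ t, H (pz s).1 (pz s).2 (pz t).1 (pz t).2 * BS s i j * BS t i' j'
        + ∑ s, ∑ q : T6, H (pz s).1 (pz s).2 (em q.1) (em q.2) * BS s i j * wp q i' j'
        + ∑ p : T6, ∑ t, H (em p.1) (em p.2) (pz t).1 (pz t).2 * wp p i j * BS t i' j'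
        + ∑ p : T6, ∑ q, (∑ a, G p a * conj (G q a)) * wp p i j * wp q i' j' := by
    have h1 : ∀ a, hz L (fun a p => G p a) a i j * conj (hz L (fun a p => G p a) a i' j')
        = (∑ s, L s a * BS s i j) * (∑ t, conj (L t a) * BS t i' j')
          + (∑ s, L s a * BS s i j) * (∑ q, conj (G q a) * wp q i' j')
          + (∑ p, G p a * wp p i j) * (∑ t, conj (L t a) * BS t i' j')
          + (∑ p, G p a * wp p i j) * (∑ q, conj (G q a) * wp q i' j') := by
      intro a
      rw [hh1, hh2]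
      ring
    rw [Finset.sum_congr rfl fun a _ => h1 a, Finset.sum_add_distrib, Finset.sum_add_distrib,
      Finset.sum_add_distrib, Pool.Agent.TH73.J3420.bil (fun s a => L s a)
        (fun t a => conj (L t a)),
      Pool.Agent.TH73.J3420.bil (fun s a => L s a) (fun q a => conj (G q a)),
      Pool.Agent.TH73.J3420.bil (fun p a => G p a) (fun t a => conj (L t a)),
      Pool.Agent.TH73.J3420.bil (fun p a => G p a) (fun q a => conj (G q a))]
    congr 1
    congr 1
    congr 1
    · exact Finset.sum_congr rfl fun s _ => Finset.sum_congr rfl fun t _ => by rw [hLs]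
    · exact Finset.sum_congr rfl fun s _ => Finset.sum_congr rfl fun t _ => by rw [hg']
    · exact Finset.sum_congr rfl fun s _ => Finset.sum_congr rfl fun t _ => by rw [hg]
  rw [hsum]
  have e1 : ∑ p : T6, H (em p.1) (em p.2) i' j' * wp p i j
      = ∑ p : T6, ∑ t, H (em p.1) (em p.2) (pz t).1 (pz t).2 * wp p i j * BS t i' j'
        + ∑ p : T6, ∑ q : T6, H (em p.1) (em p.2) (em q.1) (em q.2) * wp p i j * wp q i' j' := by
    rw [← Finset.sum_add_distrib]
    refine Finset.sum_congr rfl fun p _ => ?_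
    rw [hcl (em p.1) (em p.2) i' j', add_mul, Finset.sum_mul, Finset.sum_mul]
    congr 1
    · exact Finset.sum_congr rfl fun q _ => by ring
    · exact Finset.sum_congr rfl fun q _ => by ring
  have e2 : ∑ s, H (pz s).1 (pz s).2 i' j' * BS s i j
      = ∑ s, ∑ t, H (pz s).1 (pz s).2 (pz t).1 (pz t).2 * BS s i j * BS t i' j'
        + ∑ s, ∑ q : T6, H (pz s).1 (pz s).2 (em q.1) (em q.2) * BS s i j * wp q i' j' := by
    rw [← Finset.sum_add_distrib]
    refine Finset.sum_congr rfl fun p _ => ?_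
    rw [hcl (pz p).1 (pz p).2 i' j', add_mul, Finset.sum_mul, Finset.sum_mul]
    congr 1
    · exact Finset.sum_congr rfl fun q _ => by ring
    · exact Finset.sum_congr rfl fun q _ => by ring
  have e3 : ∑ p : T6, ∑ q : T6, (H (em p.1) (em p.2) (em q.1) (em q.2) -
        ∑ a, G p a * conj (G q a)) * wp p i j * wp q i' j'
      = ∑ p : T6, ∑ q : T6, H (em p.1) (em p.2) (em q.1) (em q.2) * wp p i j * wp q i' j'
        - ∑ p : T6, ∑ q : T6, (∑ a, G p a * conj (G q a)) * wp p i j * wp q i' j' := by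
    rw [← Finset.sum_sub_distrib]
    refine Finset.sum_congr rfl fun p _ => ?_
    rw [← Finset.sum_sub_distrib]
    exact Finset.sum_congr rfl fun q _ => by ring
  rw [e1, e2, e3]
  ring

/-- the complex tensor of a real tensor -/
noncomputable def cT (r : Ix 2 → Ix 2 → Ix 2 → Ix 2 → ℝ) : Ix 2 → Ix 2 → Ix 2 → Ix 2 → ℂ :=
  fun i j k l => ((r i j k l : ℝ) : ℂ)

/-- symmetries of a real tensor -/
structure RS {I : Type} (r : I → I → I → I → ℝ) : Prop where
  pair : ∀ i j k l, r k l i j = r i j k l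
  alt : ∀ i j k l, r j i k l = -r i j k l

lemma RS.alt2 {I : Type} {r : I → I → I → I → ℝ} (h : RS r) (i j k l : I) :
    r i j l k = -r i j k l := by
  rw [← h.pair i j l k, h.alt, h.pair]

lemma cT_HS {r : Ix 2 → Ix 2 → Ix 2 → Ix 2 → ℝ} (h : RS r) : HS (cT r) := by
  constructor
  · intro i j k l
    unfold cT
    rw [Complex.conj_ofReal, h.pair]
  · intro i j k l
    unfold cT
    rw [h.alt]
    push_cast
    rfl

/-- normal form of a real tensor -/
theorem dec_real (r : Ix 2 → Ix 2 → Ix 2 → Ix 2 → ℝ) (hr : RS r)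
    (h0 : ∀ k l, r (0, false) (0, true) k l = 0) (a b : S8 → ℝ) (f : S8 → K 2 → ℝ)
    (hL : IsUnit (Lr a b f).det)
    (hLs : ∀ s t, ∑ m, Lr a b f s m * Lr a b f t m = r (pz s).1 (pz s).2 (pz t).1 (pz t).2) :
    ∃ (g : S8 → T6 → ℝ) (Γ : Matrix T6 T6 ℝ), (∀ a i j, g a (j, i) = -g a (i, j)) ∧
      (∀ i j q, Γ (j, i) q = -Γ (i, j) q) ∧ (∀ p i j, Γ p (j, i) = -Γ p (i, j)) ∧
      cT r = HZ (cM (Lr a b f)) (cG g) (cM Γ) := by
  classical
  have hLt : IsUnit (Lr a b f).transpose.det := by
    rw [Matrix.det_transpose]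
    exact hL
  obtain ⟨C, hC⟩ : ∃ C : Matrix T6 S8 ℝ, ∀ p t, C p t = r (em p.1) (em p.2) (pz t).1 (pz t).2 :=
    ⟨_, fun _ _ => rfl⟩
  obtain ⟨G, hG⟩ : ∃ G : Matrix T6 S8 ℝ, G = C * ((Lr a b f).transpose)⁻¹ := ⟨_, rfl⟩
  have hGC : G * (Lr a b f).transpose = C := by
    rw [hG, Matrix.mul_assoc, Matrix.nonsing_inv_mul _ hLt, Matrix.mul_one]
  have hg : ∀ p t, ∑ m, G p m * Lr a b f t m = r (em p.1) (em p.2) (pz t).1 (pz t).2 := by
    intro p t
    have := congrFun (congrFun hGC p) t
    rw [Matrix.mul_apply] at this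
    rw [← hC]
    exact this
  have hGalt : ∀ i j m, G (j, i) m = -G (i, j) m := by
    intro i j m
    rw [hG, Matrix.mul_apply, Matrix.mul_apply, ← Finset.sum_neg_distrib]
    refine Finset.sum_congr rfl fun t _ => ?_
    rw [hC, hC]
    change r (em j) (em i) _ _ * _ = -(r (em i) (em j) _ _ * _)
    rw [hr.alt]
    ring
  have key := dec_of (cT r) (cT_HS hr) (fun k l => by
    unfold cT; rw [h0]; exact Complex.ofReal_zero) (cM (Lr a b f)) (fun p m => ((G p m : ℝ) : ℂ))
    (fun p t => by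
      rw [cT, ← hg]
      simp only [cM, Complex.conj_ofReal]
      push_cast
      rfl)
    (fun s t => by
      rw [cT, ← hLs]
      simp only [cM, Complex.conj_ofReal]
      push_cast
      rfl)
  refine ⟨fun m p => G p m, fun p q => r (em p.1) (em p.2) (em q.1) (em q.2) -
    ∑ m, G p m * G q m, fun m i j => hGalt i j m, ?_, ?_, ?_⟩
  · intro i j q
    change r (em j) (em i) _ _ - ∑ a, G (j, i) a * G q a = -(r (em i) (em j) _ _ -
      ∑ a, G (i, j) a * G q a)
    rw [hr.alt]
    simp only [hGalt i j, neg_mul, Finset.sum_neg_distrib]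
    ring
  · intro p i j
    change r _ _ (em j) (em i) - ∑ a, G p a * G (j, i) a = -(r _ _ (em i) (em j) -
      ∑ a, G p a * G (i, j) a)
    rw [hr.alt2]
    simp only [hGalt i j, mul_neg, Finset.sum_neg_distrib]
    ring
  · refine key.trans ?_
    have h1 : (fun (m : S8) (p : T6) => ((G p m : ℝ) : ℂ)) = cG (fun m p => G p m) := rfl
    rw [h1]
    congr 1
    funext p q
    simp only [cT, cM, Complex.conj_ofReal]
    push_cast
    rfl

end Pool.Agent.K1H63.T2
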