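import Pool.Agent.K1H63.T2.Open

/-!
# A criterion in terms of sectional curvatures and the integrated forms
-/

set_option autoImplicit false

namespace Pool.Agent.K1H63.T2

open Finset Module MeasureTheory
open Pool.Agent.W666.GB Pool.Agent.TH598.GV Pool.Agent.R735.HA

section

variable {V : Type} [NormedAddCommGroup V] [InnerProductSpace ℝ V]

lemma second_order {A B C : ℝ} (h : ∀ t : ℝ, t ^ 2 * A + t ^ 3 * C + t ^ 4 * B ≤ 0) : A ≤ 0 := by
  by_contra hA
  push Not at hA
  have hB : 0 < 1 + |B| := by positivity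
  obtain ⟨t, ht⟩ : ∃ t, t = Real.sqrt (A / (1 + |B|)) := ⟨_, rfl⟩
  have ht2 : t ^ 2 = A / (1 + |B|) := by rw [ht]; exact Real.sq_sqrt (by positivity)
  have ht0 : 0 < t ^ 2 := by rw [ht2]; positivity
  have h1 := h t
  have h2 := h (-t)
  have h3 : t ^ 2 * (A + t ^ 2 * B) ≤ 0 := by nlinarith
  have h4 : A + t ^ 2 * B ≤ 0 := nonpos_of_mul_nonpos_right h3 ht0
  have h5 : t ^ 2 * (1 + |B|) = A := by rw [ht2]; field_simp
  have h6 : -|B| ≤ B := neg_abs_le B
  nlinarith

variable {T : V → V → V → V → ℝ}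

/-- the second order condition at a maximum -/
lemma second (hT : AlgCurv T) (h : ∀ x y : V, T x y x y ≤ 0) {z w : V}
    (h0 : T z w z w = 0) (u v : V) :
    T u w u w + T z v z v + 2 * T u w z v + 2 * T z w u v ≤ 0 := by
  refine second_order (B := T u v u v) (C := 2 * T u w u v + 2 * T z v u v) fun t => ?_
  have h1 := h (z + t • u) (w + t • v)
  have e1 : T z w z v = 0 := first_left hT h h0 v
  have e2 : T z w u w = 0 := first_right hT h h0 u
  have e3 : T z v z w = 0 := by rw [hT.pair]; exact e1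
  have e4 : T u w z w = 0 := by rw [hT.pair]; exact e2
  simp only [hT.add, hT.smul, c2add hT, c2smul hT, c3add hT, c3smul hT, c4add hT, c4smul hT] at h1
  rw [h0, e1, e2, e3, e4, hT.pair z w u v, hT.pair u w z v, hT.pair u w u v,
    hT.pair z v u v] at h1
  linarith

/-- **Criterion.** If all sectional curvatures are at most `-κ`, the bound is attained at the plane of
`z`, `w`, and the planes spanned by `z` or `w` and a vector orthogonal to this plane have sectional
curvature at least `-Λ`, then `|R z w u v| ≤ (2 / 3) (Λ - κ)`. -/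
theorem near_of_sec {R : V → V → V → V → ℝ} (hR : AlgCurv R) {κ Λ : ℝ}
    (hsec : ∀ x y : V, ‖x‖ = 1 → ‖y‖ = 1 → inner ℝ x y = 0 → R x y x y ≤ -κ)
    {z w : V} (hz : ‖z‖ = 1) (hw : ‖w‖ = 1) (hzw : inner ℝ z w = 0) (hval : R z w z w = -κ)
    (hlow : ∀ u : V, ‖u‖ = 1 → inner ℝ z u = 0 → inner ℝ w u = 0 →
      -Λ ≤ R z u z u ∧ -Λ ≤ R w u w u) : NearPlane R κ (2 / 3 * (Λ - κ)) := by
  refine ⟨hsec, z, w, hz, hw, hzw, hval, fun u v hu hv huv hzu hwu hzv hwv => ?_⟩
  have hT := shift_curv hR κ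
  obtain ⟨T, hTdef⟩ : ∃ T, T = shiftT R κ := ⟨_, rfl⟩
  rw [← hTdef] at hT
  have hTs : ∀ x y : V, T x y x y ≤ 0 := by
    refine sec_all hT fun x y hx hy hxy => ?_
    have h1 := hsec x y hx hy hxy
    simp only [hTdef, shiftT]
    rw [real_inner_self_eq_norm_sq, real_inner_self_eq_norm_sq, hx, hy, hxy]
    linarith
  have hT0 : T z w z w = 0 := by
    simp only [hTdef, shiftT]
    rw [real_inner_self_eq_norm_sq, real_inner_self_eq_norm_sq, hz, hw, hzw, hval]
    ring
  have hρ : T z w u v = R z w u v := by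
    simp only [hTdef, shiftT]
    rw [hzu, hwv, hzv, hwu]
    ring
  have hone : ∀ a b : V, ‖a‖ = 1 → ‖b‖ = 1 → inner ℝ a b = 0 → T a b a b = R a b a b + κ := by
    intro a b ha hb hab
    simp only [hTdef, shiftT]
    rw [real_inner_self_eq_norm_sq, real_inner_self_eq_norm_sq, ha, hb, hab]
    ring
  have l1 : -(Λ - κ) ≤ T u w u w := by
    have h1 := (hlow u hu hzu hwu).2
    have h2 : T u w u w = T w u w u := by rw [hT.anti, c34 hT w u u w]
    rw [h2, hone w u hw hu hwu]
    linarith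
  have l2 : -(Λ - κ) ≤ T v w v w := by
    have h1 := (hlow v hv hzv hwv).2
    have h2 : T v w v w = T w v w v := by rw [hT.anti, c34 hT w v v w]
    rw [h2, hone w v hw hv hwv]
    linarith
  have l3 : -(Λ - κ) ≤ T z u z u := by
    have h1 := (hlow u hu hzu hwu).1
    rw [hone z u hz hu hzu]
    linarith
  have l4 : -(Λ - κ) ≤ T z v z v := by
    have h1 := (hlow v hv hzv hwv).1
    rw [hone z v hz hv hzv]
    linarith
  have neg1 : ∀ a b c : V, T (-a) b c v = -T a b c v := fun a b c => by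
    have := hT.smul (-1) a b c v
    rw [neg_one_smul] at this
    linarith
  have s1 := second hT hTs hT0 u v
  have s2 := second hT hTs hT0 ((-1 : ℝ) • u) v
  have s3 := second hT hTs hT0 v u
  have s4 := second hT hTs hT0 v ((-1 : ℝ) • u)
  simp only [hT.smul, c2smul hT, c3smul hT, c4smul hT] at s2 s4
  have b1 := hT.bianchi u w z v
  have e1 : T w z u v = -T z w u v := by rw [hT.anti]
  have e2 : T z w v u = -T z w u v := c34 hT z w u v
  have b2 := hT.bianchi v w z u
  have e3 : T w z v u = T z w u v := by rw [hT.anti, e2]; ring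
  have e4 : T z v w u = -T u w z v := by rw [← hT.pair z v w u, hT.anti]
  rw [e1] at b1
  rw [e3, e4] at b2
  rw [e2] at s3 s4
  rw [abs_le, ← hρ]
  constructor <;> linarith

end

variable {M : Type} [MeasurableSpace M]

/-- the integrated form -/
theorem fieldN (μ : Measure M) (K : CurvField 3 M) (κ r : M → ℝ)
    (h : ∀ p, 0 ≤ r p ∧ 2 * r p ≤ κ p ∧ NearPlane (K.R p) (κ p) (r p)) :
    0 ≤ (-1) ^ 3 * ∫ p, K.gb p ∂μ ∧
    (Integrable K.gb μ → Integrable (fun p => roundGB 3 (κ p - 2 * r p)) μ →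
      ∫ p, roundGB 3 (κ p - 2 * r p) ∂μ ≤ (-1) ^ 3 * ∫ p, K.gb p ∂μ) ∧
    (Integrable K.gb μ → μ {p | 2 * r p < κ p} ≠ 0 → 0 < (-1) ^ 3 * ∫ p, K.gb p ∂μ) := by
  have h0 : ∀ p, roundGB 3 (κ p - 2 * r p) ≤ (-1) ^ 3 * K.gb p := by
    intro p
    obtain ⟨h1, h2, h3⟩ := h p
    exact pointN (K.e p) (K.curv p) h1 h2 h3
  have hδ : ∀ p, 0 ≤ κ p - 2 * r p := fun p => by linarith [(h p).2.1]
  have h1 : ∀ p, 0 ≤ (-1) ^ 3 * K.gb p := fun p => (roundGB_nonneg' 3 (hδ p)).trans (h0 p)
  refine ⟨?_, fun hi hi' => ?_, fun hi hμ => ?_⟩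
  · rw [← integral_const_mul]
    exact integral_nonneg h1
  · rw [← integral_const_mul]
    exact integral_mono hi' (hi.const_mul _) h0
  · rw [← integral_const_mul,
      integral_pos_iff_support_of_nonneg (fun p => h1 p) (hi.const_mul _)]
    refine lt_of_lt_of_le (pos_iff_ne_zero.mpr hμ) (measure_mono fun p hp => ?_)
    have h2 : 0 < roundGB 3 (κ p - 2 * r p) := by
      have h3 : 0 < κ p - 2 * r p := by
        have : 2 * r p < κ p := hp
        linarith
      have hπ := Real.pi_pos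
      unfold roundGB
      positivity
    exact (h2.trans_le (h0 p)).ne'

end Pool.Agent.K1H63.T2
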