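import Pool.Agent.K1H63.T2.SemiR
import Pool.Agent.W669.HD.Main
import Pool.Agent.TH598.GV.Field2

/-!
# Dimension four
-/

set_option autoImplicit false

namespace Pool.Agent.K1H63.T2

open Finset Pool.Agent.TH598.GV Pool.Agent.R735.HA
open Pool.Agent.W666.GB
open Pool.Agent.W669.HD (unitT addT negT LivesOn OpNonneg)
open scoped ComplexConjugate

section geo

variable {V : Type} [NormedAddCommGroup V] [InnerProductSpace ℝ V]

/-- dimension four, geometric form -/
theorem four_geo (e : OrthonormalBasis (Fin 2 × Bool) ℝ V) {R : V → V → V → V → ℝ}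
    (hR : AlgCurv R) {δ : ℝ} (hδ : 0 ≤ δ)
    (hs : ∀ x y, R x y x y + δ * unitT x y x y ≤ 0) : roundGB 2 δ ≤ (-1) ^ 2 * gbc e R := by
  have hfin : Module.finrank ℝ (⊤ : Submodule ℝ V) ≤ 4 := by
    rw [finrank_top, Module.finrank_eq_card_basis e.toBasis]
    simp
  have h1 := Pool.Agent.W669.HD.sum_bound e (R₁ := addT R fun x y z w => δ * unitT x y z w)
    (R₂ := fun x y z w => (-δ) * unitT x y z w) ⊤
    (Pool.Agent.W669.HD.add_curv hR (Pool.Agent.W669.HD.unit_curv δ))
    (Pool.Agent.W669.HD.unit_curv (-δ)) hfin (by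
      intro x hx y z w
      rw [Submodule.top_orthogonal_eq_bot, Submodule.mem_bot] at hx
      have h := (Pool.Agent.W669.HD.add_curv hR (Pool.Agent.W669.HD.unit_curv δ)).smul 0 x y z w
      rw [zero_smul, zero_mul] at h
      rw [hx]
      exact h) hs hδ (by
      intro n x y
      refine le_of_eq ?_
      symm
      refine Finset.sum_eq_zero fun a _ => Finset.sum_eq_zero fun b _ => ?_
      simp only [negT, addT]
      ring)
  have h2 : addT (addT R fun x y z w => δ * unitT x y z w)
      (fun x y z w => (-δ) * unitT x y z w) = R := by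
    funext x y z w
    simp only [addT]
    ring
  rw [h2] at h1
  exact h1

end geo

/-- symmetries of a curvature tensor -/
structure RC {I : Type} (r : I → I → I → I → ℝ) : Prop extends RS r where
  bianchi : ∀ i j k l, r i j k l + r j k i l + r k i j l = 0

/-- the multilinear extension -/
noncomputable def ml {I : Type} [Fintype I] (r : I → I → I → I → ℝ) (x y z w : I → ℝ) : ℝ :=
  ∑ i, ∑ j, ∑ k, ∑ l, r i j k l * (x i * y j * z k * w l)

lemma ml_cast {I : Type} [Fintype I] (r : I → I → I → I → ℝ) (x y : I → ℝ) :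
    qf (fun i j k l => ((r i j k l : ℝ) : ℂ)) (fun i => ((x i : ℝ) : ℂ))
      (fun i => ((y i : ℝ) : ℂ)) = ((ml r x y x y : ℝ) : ℂ) := by
  unfold qf ml
  simp only [Complex.conj_ofReal]
  push_cast
  rfl

lemma swap_pair {I : Type} [Fintype I] (F : I → I → I → I → ℝ) :
    ∑ i, ∑ j, ∑ k, ∑ l, F i j k l = ∑ k, ∑ l, ∑ i, ∑ j, F i j k l := by
  calc ∑ i, ∑ j, ∑ k, ∑ l, F i j k l = ∑ a : I × I, ∑ b : I × I, F a.1 a.2 b.1 b.2 := by
        simp only [Fintype.sum_prod_type]
    _ = ∑ b : I × I, ∑ a : I × I, F a.1 a.2 b.1 b.2 := Finset.sum_comm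
    _ = _ := by simp only [Fintype.sum_prod_type]

lemma swap_cyc {I : Type} [Fintype I] (F : I → I → I → I → ℝ) :
    ∑ i, ∑ j, ∑ k, ∑ l, F i j k l = ∑ k, ∑ i, ∑ j, ∑ l, F i j k l := by
  calc ∑ i, ∑ j, ∑ k, ∑ l, F i j k l = ∑ i, ∑ k, ∑ j, ∑ l, F i j k l :=
        Finset.sum_congr rfl fun i _ => Finset.sum_comm
    _ = _ := Finset.sum_comm

/-- the multilinear extension is a curvature tensor -/
lemma ml_curv {r : K 2 → K 2 → K 2 → K 2 → ℝ} (hr : RC r) :
    AlgCurv (fun x y z w : EuclideanSpace ℝ (Fin 2 × Bool) => -ml r x y z w) where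
  add x x' y z w := by
    have h : ml r (x + x') y z w = ml r x y z w + ml r x' y z w := by
      unfold ml
      simp only [← Finset.sum_add_distrib]
      exact Finset.sum_congr rfl fun i _ => Finset.sum_congr rfl fun j _ =>
        Finset.sum_congr rfl fun k _ => Finset.sum_congr rfl fun l _ => by
          rw [Pi.add_apply]; ring
    have h2 : ((x + x' : EuclideanSpace ℝ (Fin 2 × Bool)) : Fin 2 × Bool → ℝ) =
      (x : Fin 2 × Bool → ℝ) + (x' : Fin 2 × Bool → ℝ) := rfl
    rw [h2, h]
    ring
  smul t x y z w := by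
    have h : ml r (t • x) y z w = t * ml r x y z w := by
      unfold ml
      simp only [Finset.mul_sum]
      exact Finset.sum_congr rfl fun i _ => Finset.sum_congr rfl fun j _ =>
        Finset.sum_congr rfl fun k _ => Finset.sum_congr rfl fun l _ => by
          rw [Pi.smul_apply, smul_eq_mul]; ring
    have h2 : ((t • x : EuclideanSpace ℝ (Fin 2 × Bool)) : Fin 2 × Bool → ℝ) =
      t • (x : Fin 2 × Bool → ℝ) := rfl
    rw [h2, h]
    ring
  anti x y z w := by
    have h : ml r y x z w = -ml r x y z w := by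
      unfold ml
      rw [Finset.sum_comm]
      simp only [← Finset.sum_neg_distrib]
      exact Finset.sum_congr rfl fun i _ => Finset.sum_congr rfl fun j _ =>
        Finset.sum_congr rfl fun k _ => Finset.sum_congr rfl fun l _ => by
          rw [hr.alt]; ring
    rw [h]
  pair x y z w := by
    have h : ml r z w x y = ml r x y z w := by
      unfold ml
      rw [swap_pair]
      exact Finset.sum_congr rfl fun i _ => Finset.sum_congr rfl fun j _ =>
        Finset.sum_congr rfl fun k _ => Finset.sum_congr rfl fun l _ => by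
          rw [hr.pair]; ring
    rw [h]
  bianchi x y z w := by
    have h1 : ml r y z x w = ∑ i, ∑ j, ∑ k, ∑ l, r j k i l * (x i * y j * z k * w l) := by
      unfold ml
      rw [swap_cyc]
      exact Finset.sum_congr rfl fun i _ => Finset.sum_congr rfl fun j _ =>
        Finset.sum_congr rfl fun k _ => Finset.sum_congr rfl fun l _ => by ring
    have h2 : ml r z x y w = ∑ i, ∑ j, ∑ k, ∑ l, r k i j l * (x i * y j * z k * w l) := by
      unfold ml
      rw [swap_cyc, swap_cyc]
      exact Finset.sum_congr rfl fun i _ => Finset.sum_congr rfl fun j _ =>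
        Finset.sum_congr rfl fun k _ => Finset.sum_congr rfl fun l _ => by ring
    have h3 : ml r x y z w + ml r y z x w + ml r z x y w = 0 := by
      rw [h1, h2]
      unfold ml
      simp only [← Finset.sum_add_distrib]
      refine Finset.sum_eq_zero fun i _ => Finset.sum_eq_zero fun j _ =>
        Finset.sum_eq_zero fun k _ => Finset.sum_eq_zero fun l _ => ?_
      have := hr.bianchi i j k l
      linear_combination (x i * y j * z k * w l) * this
    linarith

/-- nonnegative on the real planes, quantitative form -/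
def RePosD {I : Type} [Fintype I] [DecidableEq I] (δ : ℝ) (H : I → I → I → I → ℂ) : Prop :=
  ∀ z w : I → ℂ, (∀ i, conj (z i) = z i) → (∀ i, conj (w i) = w i) →
    δ * (qf UU z w).re ≤ (qf H z w).re

/-- dimension four -/
lemma fourR (r : K 2 → K 2 → K 2 → K 2 → ℝ) (hr : RC r) (δ : ℝ) (hδ : 0 ≤ δ)
    (hK : RePosD δ (fun i j k l => ((r i j k l : ℝ) : ℂ))) :
    2 ^ 2 * ((2 * 2).factorial : ℝ) * δ ^ 2 ≤
      (GG (fun i j k l => ((r i j k l : ℝ) : ℂ))).re := by
  have hs : ∀ x y : EuclideanSpace ℝ (Fin 2 × Bool), -ml r x y x y + δ * unitT x y x y ≤ 0 := by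
    intro x y
    have h1 := hK (fun i => ((x i : ℝ) : ℂ)) (fun i => ((y i : ℝ) : ℂ))
      (fun i => Complex.conj_ofReal _) (fun i => Complex.conj_ofReal _)
    rw [ml_cast, Complex.ofReal_re] at h1
    have hUU : (UU : K 2 → K 2 → K 2 → K 2 → ℂ) = fun a b c d =>
        ((unitCurv a b c d : ℝ) : ℂ) := by
      funext a b c d
      have e2 : ∀ (P : Prop) [Decidable P], (((if P then 1 else 0 : ℝ)) : ℂ) =
          if P then 1 else 0 := by
        intro P _
        split_ifs <;> simp
      simp only [UU, unitCurv]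
      rw [Complex.ofReal_sub, Complex.ofReal_mul, Complex.ofReal_mul, e2, e2, e2, e2]
    rw [hUU, ml_cast, Complex.ofReal_re] at h1
    have h2 : ml unitCurv x y x y = unitT x y x y := by
      unfold ml unitT unitCurv
      simp only [PiLp.inner_apply, RCLike.inner_apply, conj_trivial, sub_mul,
        Finset.sum_sub_distrib]
      congr 1
      · have h : ∀ i j : Fin 2 × Bool, ∑ k, ∑ l, (if i = k then (1 : ℝ) else 0) *
            (if j = l then 1 else 0) * (x i * y j * x k * y l) = x i * x i * (y j * y j) := by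
          intro i j
          rw [Finset.sum_eq_single i, Finset.sum_eq_single j]
          · rw [if_pos rfl, if_pos rfl]; ring
          · intro l _ hl
            rw [if_neg (Ne.symm hl)]; ring
          · intro h; exact absurd (Finset.mem_univ _) h
          · intro k _ hk
            refine Finset.sum_eq_zero fun l _ => ?_
            rw [if_neg (Ne.symm hk)]; ring
          · intro h; exact absurd (Finset.mem_univ _) h
        rw [Finset.sum_mul_sum]
        exact Finset.sum_congr rfl fun i _ => Finset.sum_congr rfl fun j _ => h i j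
      · have h : ∀ i j : Fin 2 × Bool, ∑ k, ∑ l, (if i = l then (1 : ℝ) else 0) *
            (if j = k then 1 else 0) * (x i * y j * x k * y l) = y i * x i * (x j * y j) := by
          intro i j
          rw [Finset.sum_eq_single j, Finset.sum_eq_single i]
          · rw [if_pos rfl, if_pos rfl]; ring
          · intro l _ hl
            rw [if_neg (Ne.symm hl)]; ring
          · intro h; exact absurd (Finset.mem_univ _) h
          · intro k _ hk
            refine Finset.sum_eq_zero fun l _ => ?_
            rw [if_neg (Ne.symm hk)]; ring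
          · intro h; exact absurd (Finset.mem_univ _) h
        rw [Finset.sum_mul_sum]
        exact Finset.sum_congr rfl fun i _ => Finset.sum_congr rfl fun j _ => h i j
    rw [h2] at h1
    linarith
  have key := four_geo (EuclideanSpace.basisFun (Fin 2 × Bool) ℝ) (ml_curv hr) hδ hs
  have hcomp : ∀ i j k l : Fin 2 × Bool, ml r (EuclideanSpace.basisFun (Fin 2 × Bool) ℝ i)
      (EuclideanSpace.basisFun (Fin 2 × Bool) ℝ j) (EuclideanSpace.basisFun (Fin 2 × Bool) ℝ k)
      (EuclideanSpace.basisFun (Fin 2 × Bool) ℝ l) = r i j k l := by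
    intro i j k l
    unfold ml
    have hb : ∀ a b : Fin 2 × Bool, (EuclideanSpace.basisFun (Fin 2 × Bool) ℝ a) b =
        if b = a then (1 : ℝ) else 0 := by
      intro a b
      rw [EuclideanSpace.basisFun_apply, PiLp.single_apply]
    simp only [hb]
    rw [Finset.sum_eq_single i, Finset.sum_eq_single j, Finset.sum_eq_single k,
      Finset.sum_eq_single l]
    · simp
    · intro b _ hb
      rw [if_neg hb]; ring
    · intro h; exact absurd (Finset.mem_univ _) h
    · intro b _ hb
      refine Finset.sum_eq_zero fun l _ => ?_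
      rw [if_neg hb]; ring
    · intro h; exact absurd (Finset.mem_univ _) h
    · intro b _ hb
      refine Finset.sum_eq_zero fun k _ => Finset.sum_eq_zero fun l _ => ?_
      rw [if_neg hb]; ring
    · intro h; exact absurd (Finset.mem_univ _) h
    · intro b _ hb
      refine Finset.sum_eq_zero fun j _ => Finset.sum_eq_zero fun k _ =>
        Finset.sum_eq_zero fun l _ => ?_
      rw [if_neg hb]; ring
    · intro h; exact absurd (Finset.mem_univ _) h
  rw [Pool.Agent.TH828.J3423.GG_re]
  have hg : (-1) ^ 2 * gbc (EuclideanSpace.basisFun (Fin 2 × Bool) ℝ)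
      (fun x y z w : EuclideanSpace ℝ (Fin 2 × Bool) => -ml r x y z w) =
      1 / ((8 * Real.pi) ^ 2 * ((2 : ℕ).factorial : ℝ)) *
      ∑ σ : Equiv.Perm (Fin 2 × Bool), ∑ τ : Equiv.Perm (Fin 2 × Bool),
        Pool.Agent.W666.GB.sn σ * Pool.Agent.W666.GB.sn τ *
        ∏ b : Fin 2, r (σ (b, false)) (σ (b, true)) (τ (b, false)) (τ (b, true)) := by
    unfold gbc
    simp only [hcomp, Finset.prod_neg, Finset.card_univ, Fintype.card_fin,
      Pool.Agent.W666.GB.sn]
    ring
  rw [hg] at key
  have hπ := Real.pi_pos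
  have hc : 0 < (8 * Real.pi) ^ 2 * ((2 : ℕ).factorial : ℝ) := by positivity
  have h2 : ((8 * Real.pi) ^ 2 * ((2 : ℕ).factorial : ℝ)) * roundGB 2 δ =
      2 ^ 2 * ((2 * 2).factorial : ℝ) * δ ^ 2 := by
    unfold roundGB
    have h8 : (8 * Real.pi) ^ 2 = 2 ^ 2 * (4 * Real.pi) ^ 2 := by
      rw [← mul_pow]; ring
    rw [h8]
    field_simp
  have h3 := mul_le_mul_of_nonneg_left key hc.le
  rw [h2] at h3
  refine h3.trans (le_of_eq ?_)
  field_simp

end Pool.Agent.K1H63.T2
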