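import Pool.Agent.K1H63.T2.QuantR

/-!
# The Hopf sign in dimension six when the largest sectional curvature is attained at a plane which is
curvature-orthogonal to its complement
-/

set_option autoImplicit false

namespace Pool.Agent.K1H63.T2

open Finset MeasureTheory Module
open Pool.Agent.W666.GB Pool.Agent.TH598.GV Pool.Agent.R735.HA
open scoped ComplexConjugate

section

variable {V : Type} [NormedAddCommGroup V] [InnerProductSpace ℝ V]

/-- All sectional curvatures of `R` are at most `-κ`, and there is a plane with sectional curvature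
`-κ`, spanned by the orthonormal pair `z`, `w`, such that `R z w u v = 0` for all `u`, `v`
orthogonal to the plane. -/
def ExtPlane (R : V → V → V → V → ℝ) (κ : ℝ) : Prop :=
  (∀ x y : V, ‖x‖ = 1 → ‖y‖ = 1 → inner ℝ x y = 0 → R x y x y ≤ -κ) ∧
  ∃ z w : V, ‖z‖ = 1 ∧ ‖w‖ = 1 ∧ inner ℝ z w = 0 ∧ R z w z w = -κ ∧
    ∀ u v : V, inner ℝ z u = 0 → inner ℝ w u = 0 → inner ℝ z v = 0 → inner ℝ w v = 0 →
      R z w u v = 0

variable {T : V → V → V → V → ℝ}

lemma cz (hT : AlgCurv T) (y z w : V) : T 0 y z w = 0 := by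
  have := hT.smul 0 0 y z w
  rwa [zero_smul, zero_mul] at this

lemma c2add (hT : AlgCurv T) (x y y' z w : V) : T x (y + y') z w = T x y z w + T x y' z w := by
  rw [hT.anti, hT.add, hT.anti y, hT.anti y']
  ring

lemma c2smul (hT : AlgCurv T) (t : ℝ) (x y z w : V) : T x (t • y) z w = t * T x y z w := by
  rw [hT.anti, hT.smul, hT.anti y]
  ring

lemma c3add (hT : AlgCurv T) (x y z z' w : V) : T x y (z + z') w = T x y z w + T x y z' w := by
  rw [← hT.pair, hT.add, hT.pair z, hT.pair z']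

lemma c3smul (hT : AlgCurv T) (t : ℝ) (x y z w : V) : T x y (t • z) w = t * T x y z w := by
  rw [← hT.pair, hT.smul, hT.pair z]

lemma c34 (hT : AlgCurv T) (x y z w : V) : T x y w z = -T x y z w := by
  rw [← hT.pair, hT.anti, hT.pair z]

lemma c4add (hT : AlgCurv T) (x y z w w' : V) : T x y z (w + w') = T x y z w + T x y z w' := by
  rw [c34 hT, c3add hT, c34 hT x y w z, c34 hT x y w' z]
  ring

lemma c4smul (hT : AlgCurv T) (t : ℝ) (x y z w : V) : T x y z (t • w) = t * T x y z w := by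
  rw [c34 hT, c3smul hT, c34 hT x y w z]
  ring

lemma cd (hT : AlgCurv T) (x z w : V) : T x x z w = 0 := by
  have := hT.anti x x z w
  linarith

/-- a bound on orthonormal pairs is a bound on all pairs -/
lemma sec_all (hT : AlgCurv T) (h : ∀ x y : V, ‖x‖ = 1 → ‖y‖ = 1 → inner ℝ x y = 0 →
    T x y x y ≤ 0) (x y : V) : T x y x y ≤ 0 := by
  by_cases hx : x = 0
  · rw [hx, cz hT]
  obtain ⟨y', hy'⟩ : ∃ y', y' = y - (inner ℝ x y / ‖x‖ ^ 2) • x := ⟨_, rfl⟩
  have hx0 : ‖x‖ ≠ 0 := norm_ne_zero_iff.2 hx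
  have hin : inner ℝ x y' = 0 := by
    rw [hy', inner_sub_right, inner_smul_right, real_inner_self_eq_norm_sq]
    field_simp
    ring
  have hy : y = y' + (inner ℝ x y / ‖x‖ ^ 2) • x := by rw [hy']; simp
  have e1 : T x y x y = T x y' x y' := by
    rw [hy, c2add hT, c2smul hT, cd hT, mul_zero, add_zero, c4add hT, c4smul hT]
    have : T x y' x x = 0 := by
      have := c34 hT x y' x x
      linarith
    rw [this]
    ring
  rw [e1]
  by_cases hy0 : y' = 0
  · rw [hy0, hT.anti, cz hT, neg_zero]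
  have hy1 : ‖y'‖ ≠ 0 := norm_ne_zero_iff.2 hy0
  have h1 := h (‖x‖⁻¹ • x) (‖y'‖⁻¹ • y')
    (by rw [norm_smul, norm_inv, norm_norm, inv_mul_cancel₀ hx0])
    (by rw [norm_smul, norm_inv, norm_norm, inv_mul_cancel₀ hy1])
    (by rw [inner_smul_left, inner_smul_right, hin]; simp)
  rw [hT.smul, c2smul hT, c3smul hT, c4smul hT] at h1
  have h2 : T x y' x y' = (‖x‖ ^ 2 * ‖y'‖ ^ 2) *
      (‖x‖⁻¹ * (‖y'‖⁻¹ * (‖x‖⁻¹ * (‖y'‖⁻¹ * T x y' x y')))) := by
    field_simp
  rw [h2]
  exact mul_nonpos_of_nonneg_of_nonpos (by positivity) h1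

/-- the first order condition at a maximum -/
lemma first_order {a b : ℝ} (h : ∀ t : ℝ, 2 * t * a + t ^ 2 * b ≤ 0) : a = 0 := by
  have hb : b ≤ 0 := by
    have h1 := h 1
    have h2 := h (-1)
    linarith
  by_contra ha
  have ha2 : 0 < a ^ 2 := by positivity
  by_cases hb0 : b = 0
  · have h1 := h a
    rw [hb0] at h1
    nlinarith
  · have hb1 : b < 0 := lt_of_le_of_ne hb hb0
    have h1 := h (-a / b)
    have h2 : 2 * (-a / b) * a + (-a / b) ^ 2 * b = -(a ^ 2) / b := by
      field_simp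
      ring
    rw [h2] at h1
    have h3 : 0 < -(a ^ 2) / b := div_pos_of_neg_of_neg (by linarith) hb1
    linarith

lemma first_left (hT : AlgCurv T) (h : ∀ x y : V, T x y x y ≤ 0) {z w : V}
    (h0 : T z w z w = 0) (u : V) : T z w z u = 0 := by
  refine first_order (b := T z u z u) fun t => ?_
  have h1 := h z (w + t • u)
  rw [c2add hT, c2smul hT, c4add hT, c4smul hT, c4add hT, c4smul hT, h0,
    hT.pair z w z u] at h1
  linarith

lemma first_right (hT : AlgCurv T) (h : ∀ x y : V, T x y x y ≤ 0) {z w : V}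
    (h0 : T z w z w = 0) (u : V) : T z w u w = 0 := by
  refine first_order (b := T u w u w) fun t => ?_
  have h1 := h (z + t • u) w
  rw [hT.add, hT.smul, c3add hT, c3smul hT, c3add hT, c3smul hT, h0,
    hT.pair z w u w] at h1
  linarith

/-- an orthonormal basis which begins with a given orthonormal pair -/
lemma frameR (e : OrthonormalBasis (Fin 3 × Bool) ℝ V) {z w : V} (hz : ‖z‖ = 1) (hw : ‖w‖ = 1)
    (hzw : inner ℝ z w = 0) : ∃ b : OrthonormalBasis (Fin 3 × Bool) ℝ V,
      b (0, false) = z ∧ b (0, true) = w := by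
  classical
  have : FiniteDimensional ℝ V := Module.Finite.of_basis e.toBasis
  obtain ⟨v, hv⟩ : ∃ v : Fin 3 × Bool → V, v = fun i =>
    if i = (0, false) then z else if i = (0, true) then w else 0 := ⟨_, rfl⟩
  have hv0 : v (0, false) = z := by rw [hv]; simp
  have hv1 : v (0, true) = w := by rw [hv]; simp
  have hon : Orthonormal ℝ (({(0, false), (0, true)} : Set (Fin 3 × Bool)).domRestrict v) := by
    rw [orthonormal_iff_ite]
    rintro ⟨i, hi⟩ ⟨j, hj⟩
    simp only [Set.domRestrict_apply]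
    rcases hi with rfl | hi
    · rcases hj with rfl | hj
      · rw [hv0, real_inner_self_eq_norm_sq, hz]
        simp
      · rw [Set.mem_singleton_iff] at hj
        subst hj
        rw [hv0, hv1, hzw, if_neg]
        intro h
        have h2 := congrArg (fun q => q.1.2) h
        simp at h2
    · rw [Set.mem_singleton_iff] at hi
      subst hi
      rcases hj with rfl | hj
      · rw [hv0, hv1, real_inner_comm, hzw, if_neg]
        intro h
        have h2 := congrArg (fun q => q.1.2) h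
        simp at h2
      · rw [Set.mem_singleton_iff] at hj
        subst hj
        rw [hv1, real_inner_self_eq_norm_sq, hw]
        simp
  have hc : Module.finrank ℝ V = Fintype.card (Fin 3 × Bool) :=
    Module.finrank_eq_card_basis e.toBasis
  obtain ⟨b, hb⟩ := hon.exists_orthonormalBasis_extension_of_card_eq hc
  exact ⟨b, by rw [hb _ (by simp), hv0], by rw [hb _ (by simp), hv1]⟩

/-- The pointwise inequality in an adapted orthonormal basis. -/
theorem pointB (b : OrthonormalBasis (Fin 3 × Bool) ℝ V) {R : V → V → V → V → ℝ} (hR : AlgCurv R)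
    {κ : ℝ} (hκ : 0 ≤ κ) (hTs : ∀ x y : V, shiftT R κ x y x y ≤ 0)
    (hker : ∀ k l, shiftT R κ (b (0, false)) (b (0, true)) (b k) (b l) = 0) :
    roundGB 3 κ ≤ (-1) ^ 3 * gbc b R := by
  classical
  have hin : ∀ i j, inner ℝ (b i) (b j) = if i = j then (1 : ℝ) else 0 := fun i j => by
    rw [b.inner_eq_ite]
  obtain ⟨r, hr⟩ : ∃ r : Fin 3 × Bool → Fin 3 × Bool → Fin 3 × Bool → Fin 3 × Bool → ℝ,
    r = fun i j k l => -R (b i) (b j) (b k) (b l) := ⟨_, rfl⟩
  have hRC : RC r := by
    refine ⟨⟨fun i j k l => ?_, fun i j k l => ?_⟩, fun i j k l => ?_⟩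
    · simp only [hr]; rw [hR.pair]
    · simp only [hr]; rw [hR.anti]
    · simp only [hr]
      have := hR.bianchi (b i) (b j) (b k) (b l)
      linarith
  have hcT : cT r = fun a b' c d => (((-R (b a) (b b') (b c) (b d) : ℝ)) : ℂ) := by
    funext a b' c d
    simp only [cT, hr]
  have hcomp : ∀ i j k l, -shiftT R κ (b i) (b j) (b k) (b l) =
      r i j k l - κ * unitCurv i j k l := by
    intro i j k l
    simp only [shiftT, unitCurv, hin, hr]
    ring
  have key := quantR6 r hRC κ hκ ?_ ?_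
  · have hsum : ∑ σ : Equiv.Perm (Fin 3 × Bool), ∑ τ : Equiv.Perm (Fin 3 × Bool),
          Pool.Agent.W666.GB.sn σ * Pool.Agent.W666.GB.sn τ *
            ∏ b : Fin 3, r (σ (b, false)) (σ (b, true)) (τ (b, false)) (τ (b, true)) =
        (-1) ^ 3 * ∑ σ : Equiv.Perm (Fin 3 × Bool),
          ∑ τ : Equiv.Perm (Fin 3 × Bool),
          ((Equiv.Perm.sign σ : ℤ) : ℝ) * ((Equiv.Perm.sign τ : ℤ) : ℝ) *
            ∏ c : Fin 3, R (b (σ (c, false))) (b (σ (c, true))) (b (τ (c, false)))
              (b (τ (c, true))) := by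
      simp only [hr, Finset.prod_neg, Finset.mul_sum, Finset.card_univ, Fintype.card_fin,
        Pool.Agent.W666.GB.sn]
      refine Finset.sum_congr rfl fun σ _ => Finset.sum_congr rfl fun τ _ => by ring
    have hGG : (GG (cT r)).re = ∑ σ : Equiv.Perm (Fin 3 × Bool), ∑ τ : Equiv.Perm (Fin 3 × Bool),
          Pool.Agent.W666.GB.sn σ * Pool.Agent.W666.GB.sn τ *
            ∏ b : Fin 3, r (σ (b, false)) (σ (b, true)) (τ (b, false)) (τ (b, true)) :=
      Pool.Agent.TH828.J3423.GG_re r
    rw [hGG, hsum] at key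
    have hπ := Real.pi_pos
    have hc : 0 < 1 / ((8 * Real.pi) ^ 3 * ((3 : ℕ).factorial : ℝ)) := by positivity
    have h1 := mul_le_mul_of_nonneg_left key hc.le
    have h2 : 1 / ((8 * Real.pi) ^ 3 * ((3 : ℕ).factorial : ℝ)) *
        (2 ^ (2 + 1) * ((2 * (2 + 1)).factorial : ℝ) * κ ^ (2 + 1)) = roundGB 3 κ := by
      unfold roundGB
      have h8 : (8 * Real.pi) ^ 3 = 2 ^ 3 * (4 * Real.pi) ^ 3 := by
        rw [← mul_pow]; ring
      rw [h8]
      field_simp
    rw [h2] at h1
    refine h1.trans (le_of_eq ?_)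
    unfold gbc
    ring
  · -- the real planes
    intro x y hx hy
    have him : ∀ x : Fin 3 × Bool → ℂ, (∀ i, conj (x i) = x i) →
        vc b (fun a => (x a).im) = 0 := by
      intro x hx
      unfold vc
      refine Finset.sum_eq_zero fun a _ => ?_
      change (x a).im • b a = 0
      rw [Complex.conj_eq_iff_im.1 (hx a), zero_smul]
    have hU : (qf UU x y).re = unitR (vc b fun a => (x a).re) (vc b fun a => (y a).re)
        (vc b fun a => (x a).re) (vc b fun a => (y a).re) := by
      rw [UU_comp b, qf_comp neg_unit_curv b x y, him x hx, him y hy]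
      simp only [cxs, unitR, inner_zero_left, inner_zero_right]
      ring
    have hQ : (qf (cT r) x y).re = -R (vc b fun a => (x a).re) (vc b fun a => (y a).re)
        (vc b fun a => (x a).re) (vc b fun a => (y a).re) := by
      rw [hcT, qf_comp hR b x y, him x hx, him y hy]
      have e0 : ∀ p q s, R 0 p q s = 0 := fun p q s => cz hR p q s
      have e1 : ∀ p q s, R p 0 q s = 0 := fun p q s => by rw [hR.anti, e0, neg_zero]
      have e2 : ∀ p q s, R p q 0 s = 0 := fun p q s => by rw [← hR.pair, e0]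
      simp only [cxs, e0, e1, e2]
      ring
    rw [hU, hQ]
    have h1 := hTs (vc b fun a => (x a).re) (vc b fun a => (y a).re)
    simp only [shiftT] at h1
    simp only [unitR]
    linarith
  · intro k l
    have h1 := hcomp (0, false) (0, true) k l
    rw [hker, neg_zero] at h1
    have h2 : r (0, false) (0, true) k l = κ * unitCurv (0, false) (0, true) k l := by linarith
    have hUU : (UU : Fin 3 × Bool → Fin 3 × Bool → Fin 3 × Bool →
        Fin 3 × Bool → ℂ) = fun a b c d => ((unitCurv a b c d : ℝ) : ℂ) := by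
      funext a b c d
      have e2 : ∀ (P : Prop) [Decidable P], (((if P then 1 else 0 : ℝ)) : ℂ) =
          if P then 1 else 0 := by
        intro P _
        split_ifs <;> simp
      simp only [UU, unitCurv]
      rw [Complex.ofReal_sub, Complex.ofReal_mul, Complex.ofReal_mul, e2, e2, e2, e2]
    rw [hUU]
    unfold cT
    rw [h2]
    push_cast
    rfl

/-- **Hopf sign in dimension six, pointwise.** -/
theorem pointR (e : OrthonormalBasis (Fin 3 × Bool) ℝ V) {R : V → V → V → V → ℝ} (hR : AlgCurv R)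
    {κ : ℝ} (hκ : 0 ≤ κ) (hE : ExtPlane R κ) : roundGB 3 κ ≤ (-1) ^ 3 * gbc e R := by
  classical
  obtain ⟨hsec, z, w, hz, hw, hzw, hval, hperp⟩ := hE
  obtain ⟨b, hb0, hb1⟩ := frameR e hz hw hzw
  rw [Pool.Agent.W688.HD.bas 3 V e b R hR]
  have hT := shift_curv hR κ
  obtain ⟨T, hTdef⟩ : ∃ T, T = shiftT R κ := ⟨_, rfl⟩
  rw [← hTdef] at hT
  have hTs : ∀ x y : V, T x y x y ≤ 0 := by
    refine sec_all hT fun x y hx hy hxy => ?_
    have h1 := hsec x y hx hy hxy
    simp only [hTdef, shiftT]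
    rw [real_inner_self_eq_norm_sq, real_inner_self_eq_norm_sq, hx, hy, hxy]
    linarith
  have hT0 : T z w z w = 0 := by
    simp only [hTdef, shiftT]
    rw [real_inner_self_eq_norm_sq, real_inner_self_eq_norm_sq, hz, hw, hzw, hval]
    ring
  have hin : ∀ i j, inner ℝ (b i) (b j) = if i = j then (1 : ℝ) else 0 := fun i j => by
    rw [b.inner_eq_ite]
  have hker : ∀ k l, T z w (b k) (b l) = 0 := by
    have hzk : ∀ l, T z w (b (0, false)) (b l) = 0 := fun l => by
      rw [hb0]; exact first_left hT hTs hT0 _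
    have hwk : ∀ l, T z w (b (0, true)) (b l) = 0 := fun l => by
      rw [hb1, c34 hT]
      rw [first_right hT hTs hT0, neg_zero]
    intro k l
    by_cases hk0 : k = (0, false)
    · rw [hk0]; exact hzk l
    by_cases hk1 : k = (0, true)
    · rw [hk1]; exact hwk l
    by_cases hl0 : l = (0, false)
    · rw [hl0, c34 hT, hzk, neg_zero]
    by_cases hl1 : l = (0, true)
    · rw [hl1, c34 hT, hwk, neg_zero]
    have a1 : inner ℝ z (b k) = 0 := by rw [← hb0, hin, if_neg (Ne.symm hk0)]
    have a2 : inner ℝ w (b k) = 0 := by rw [← hb1, hin, if_neg (Ne.symm hk1)]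
    have a3 : inner ℝ z (b l) = 0 := by rw [← hb0, hin, if_neg (Ne.symm hl0)]
    have a4 : inner ℝ w (b l) = 0 := by rw [← hb1, hin, if_neg (Ne.symm hl1)]
    simp only [hTdef, shiftT]
    rw [hperp _ _ a1 a2 a3 a4, a1, a2, a3, a4]
    ring
  refine pointB b hR hκ (fun x y => ?_) (fun k l => ?_)
  · rw [← hTdef]
    exact hTs x y
  · rw [← hTdef, hb0, hb1]
    exact hker k l

end

variable {M : Type} [MeasurableSpace M]

/-- the integrated form -/
theorem fieldR (μ : Measure M) (K : CurvField 3 M) (κ : M → ℝ)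
    (h : ∀ p, 0 ≤ κ p ∧ ExtPlane (K.R p) (κ p)) :
    0 ≤ (-1) ^ 3 * ∫ p, K.gb p ∂μ ∧
    (Integrable K.gb μ → Integrable (fun p => roundGB 3 (κ p)) μ →
      ∫ p, roundGB 3 (κ p) ∂μ ≤ (-1) ^ 3 * ∫ p, K.gb p ∂μ) := by
  have h0 : ∀ p, roundGB 3 (κ p) ≤ (-1) ^ 3 * K.gb p := by
    intro p
    obtain ⟨h1, h2⟩ := h p
    exact pointR (K.e p) (K.curv p) h1 h2
  have h1 : ∀ p, 0 ≤ (-1) ^ 3 * K.gb p := fun p => (roundGB_nonneg' 3 (h p).1).trans (h0 p)
  refine ⟨?_, fun hi hi' => ?_⟩
  · rw [← integral_const_mul]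
    exact integral_nonneg h1
  · rw [← integral_const_mul]
    exact integral_mono hi' (hi.const_mul _) h0

end Pool.Agent.K1H63.T2
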