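import Mathlib

/-!
# Two identities for triples of rank-one tensors
-/

set_option autoImplicit false

namespace Pool.Agent.K1H63.T2

open Finset

variable {K : Type} [Fintype K]

/-- cyclic rotation of a triple sum -/
lemma rot3 (F : K → K → K → ℝ) :
    ∑ j, ∑ k, ∑ m, F j k m = ∑ j, ∑ k, ∑ m, F k m j := by
  calc ∑ j, ∑ k, ∑ m, F j k m = ∑ k, ∑ j, ∑ m, F j k m := Finset.sum_comm
    _ = ∑ k, ∑ m, ∑ j, F j k m := Finset.sum_congr rfl fun k _ => Finset.sum_comm
    _ = ∑ m, ∑ k, ∑ j, F j k m := Finset.sum_comm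
    _ = ∑ m, ∑ j, ∑ k, F j k m := Finset.sum_congr rfl fun k _ => Finset.sum_comm

/-- the area of two colours -/
def sc (a b : K → ℝ) (j k : K) : ℝ := a j * b k - b j * a k

/-- the scalar product of two colours -/
def gc (a b : K → ℝ) (j k : K) : ℝ := a j * a k + b j * b k

/-- the value of the test form of the pair `j, k` on the atom `m` -/
def lt (a b : K → ℝ) (η : K → K → K → ℝ) (j k m : K) : ℝ :=
  gc a b k m * η j k m + gc a b j m * η k j m

/-- the part of the test form with the colour `k` -/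
def zt (a b : K → ℝ) (η : K → K → K → ℝ) (j k m : K) : ℝ :=
  gc a b k k * η j k m + gc a b j k * η k j m

/-- the alternating sum -/
def pt (a b : K → ℝ) (η : K → K → K → ℝ) (j k m : K) : ℝ :=
  sc a b k m * η j k m + sc a b m j * η k m j + sc a b j k * η m j k

/-- the sum of the squares of the test forms is minus a trace form minus a sum of squares -/
theorem ident2 (a b : K → ℝ) (η : K → K → K → ℝ) (h : ∀ j k m, η j m k = -η j k m) :
    ∑ j, ∑ k, ∑ m, lt a b η j k m ^ 2 + 2 * ∑ j, ∑ k, ∑ m, zt a b η j k m * zt a b η j m k +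
      2 / 3 * ∑ j, ∑ k, ∑ m, pt a b η j k m ^ 2 = 0 := by
  obtain ⟨F, hF⟩ : ∃ F : K → K → K → ℝ, F = fun j k m => lt a b η j k m ^ 2 +
    2 * (zt a b η j k m * zt a b η j m k) + 2 / 3 * pt a b η j k m ^ 2 := ⟨_, rfl⟩
  have h1 : ∑ j, ∑ k, ∑ m, lt a b η j k m ^ 2 +
      2 * ∑ j, ∑ k, ∑ m, zt a b η j k m * zt a b η j m k +
      2 / 3 * ∑ j, ∑ k, ∑ m, pt a b η j k m ^ 2 = ∑ j, ∑ k, ∑ m, F j k m := by
    simp only [hF, Finset.sum_add_distrib, Finset.mul_sum]
  have h2 := rot3 F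
  have h3 := rot3 (fun j k m => F k m j)
  have h4 : ∑ j, ∑ k, ∑ m, F j k m + ∑ j, ∑ k, ∑ m, F k m j + ∑ j, ∑ k, ∑ m, F m j k = 0 := by
    simp only [← Finset.sum_add_distrib]
    refine Finset.sum_eq_zero fun j _ => Finset.sum_eq_zero fun k _ =>
      Finset.sum_eq_zero fun m _ => ?_
    simp only [hF, lt, zt, pt, sc, gc]
    rw [h j k m, h k m j, h m j k]
    ring
  rw [h1]
  linarith

/-- the pairing of the test forms with an alternating array -/
theorem ident1 (a b : K → ℝ) (η β : K → K → K → ℝ) (h : ∀ j k m, β k j m = -β j k m) :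
    ∑ j, ∑ k, ∑ m, sc a b j k * β j k m * lt a b η j k m =
      2 * ∑ j, ∑ k, ∑ m, sc a b j m * β j k m * zt a b η j k m := by
  have h1 : ∑ j, ∑ k, ∑ m, sc a b j k * β j k m * lt a b η j k m =
      ∑ j, ∑ k, ∑ m, (sc a b j m * β j k m * zt a b η j k m +
        sc a b k m * β k j m * zt a b η k j m) := by
    refine Finset.sum_congr rfl fun j _ => Finset.sum_congr rfl fun k _ =>
      Finset.sum_congr rfl fun m _ => ?_
    rw [h j k m]
    simp only [lt, zt, sc, gc]
    ring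
  rw [h1]
  simp only [Finset.sum_add_distrib]
  have h2 : ∑ j, ∑ k, ∑ m, sc a b k m * β k j m * zt a b η k j m =
      ∑ j, ∑ k, ∑ m, sc a b j m * β j k m * zt a b η j k m := Finset.sum_comm
  rw [h2]
  ring

end Pool.Agent.K1H63.T2
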