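import Pool.Agent.K1H63.T2.Geo

/-!
# Adapted orthonormal bases
-/

set_option autoImplicit false

namespace Pool.Agent.K1H63.T2

open Finset Module
open Pool.Agent.W666.GB Pool.Agent.TH598.GV Pool.Agent.R735.HA

variable {V : Type} [NormedAddCommGroup V] [InnerProductSpace ℝ V]

/-- extension of a partial orthonormal family to an orthonormal basis -/
lemma ext_basis (e : OrthonormalBasis (Fin 3 × Bool) ℝ V) (v : Fin 3 × Bool → V)
    (s : Set (Fin 3 × Bool))
    (h : ∀ i ∈ s, ∀ j ∈ s, inner ℝ (v i) (v j) = if i = j then (1 : ℝ) else 0) :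
    ∃ b : OrthonormalBasis (Fin 3 × Bool) ℝ V, ∀ i ∈ s, b i = v i := by
  classical
  have : FiniteDimensional ℝ V := Module.Finite.of_basis e.toBasis
  have hon : Orthonormal ℝ (s.domRestrict v) := by
    rw [orthonormal_iff_ite]
    rintro ⟨i, hi⟩ ⟨j, hj⟩
    simp only [Set.domRestrict_apply]
    rw [h i hi j hj]
    by_cases hij : i = j
    · rw [if_pos hij, if_pos]
      exact Subtype.ext hij
    · rw [if_neg hij, if_neg]
      intro h'
      exact hij (congrArg Subtype.val h')
  have hc : Module.finrank ℝ V = Fintype.card (Fin 3 × Bool) :=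
    Module.finrank_eq_card_basis e.toBasis
  obtain ⟨b, hb⟩ := hon.exists_orthonormalBasis_extension_of_card_eq hc
  exact ⟨b, hb⟩

/-- first order condition on the circle -/
lemma circle {lam a : ℝ} (h : ∀ c s : ℝ, c ^ 2 + s ^ 2 = 1 → c * lam + s * a ≤ lam) : a = 0 := by
  refine first_order (b := -2 * lam) fun t => ?_
  have h0 : 0 < 1 + t ^ 2 := by positivity
  have h1 := h ((1 - t ^ 2) / (1 + t ^ 2)) (2 * t / (1 + t ^ 2)) (by
    field_simp
    ring)
  have h2 : (1 - t ^ 2) / (1 + t ^ 2) * lam + 2 * t / (1 + t ^ 2) * a =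
      ((1 - t ^ 2) * lam + 2 * t * a) / (1 + t ^ 2) := by ring
  rw [h2, div_le_iff₀ h0] at h1
  linarith

/-- the constraint set of the maximum -/
def cset (z w : V) : Set (V × V) :=
  {p | ‖p.1‖ = 1 ∧ ‖p.2‖ = 1 ∧ inner ℝ p.1 p.2 = 0 ∧ inner ℝ z p.1 = 0 ∧ inner ℝ w p.1 = 0 ∧
    inner ℝ z p.2 = 0 ∧ inner ℝ w p.2 = 0}

lemma cset_compact [FiniteDimensional ℝ V] (z w : V) : IsCompact (cset z w) := by
  have hP : ProperSpace V := FiniteDimensional.proper_real V
  have hcl : IsClosed (cset z w) := by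
    have e : cset z w = {p : V × V | ‖p.1‖ = 1} ∩ ({p : V × V | ‖p.2‖ = 1} ∩
        ({p : V × V | inner ℝ p.1 p.2 = 0} ∩ ({p : V × V | inner ℝ z p.1 = 0} ∩
          ({p : V × V | inner ℝ w p.1 = 0} ∩ ({p : V × V | inner ℝ z p.2 = 0} ∩
            {p : V × V | inner ℝ w p.2 = 0}))))) := rfl
    rw [e]
    refine (isClosed_eq (by fun_prop) (by fun_prop)).inter
      ((isClosed_eq (by fun_prop) (by fun_prop)).inter
      ((isClosed_eq (by fun_prop) (by fun_prop)).inter
      ((isClosed_eq (by fun_prop) (by fun_prop)).inter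
      ((isClosed_eq (by fun_prop) (by fun_prop)).inter
      ((isClosed_eq (by fun_prop) (by fun_prop)).inter
      (isClosed_eq (by fun_prop) (by fun_prop)))))))
  refine (isCompact_closedBall (0 : V × V) 1).of_isClosed_subset hcl fun p hp => ?_
  rw [mem_closedBall_zero_iff, Prod.norm_def, hp.1, hp.2.1, max_self]

lemma cont_T [FiniteDimensional ℝ V] (e : OrthonormalBasis (Fin 3 × Bool) ℝ V)
    {T : V → V → V → V → ℝ} (hT : AlgCurv T) (z w : V) :
    Continuous fun p : V × V => T z w p.1 p.2 := by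
  have h : ∀ p : V × V, T z w p.1 p.2 = ∑ i, ∑ j, inner ℝ (e i) p.1 * inner ℝ (e j) p.2 *
      T z w (e i) (e j) := by
    intro p
    have h1 : ∀ x y : V, T z w x y = ∑ i, inner ℝ (e i) x * T z w (e i) y := by
      intro x y
      have h2 := l1 hT e (fun i => inner ℝ (e i) x) y z w
      have h3 : vc e (fun i => inner ℝ (e i) x) = x := e.sum_repr' x
      rw [h3] at h2
      rw [← hT.pair, h2]
      exact Finset.sum_congr rfl fun i _ => by rw [hT.pair]
    have h4 : ∀ x y : V, T z w x y = ∑ j, inner ℝ (e j) y * T z w x (e j) := by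
      intro x y
      rw [c34 hT, h1, ← Finset.sum_neg_distrib]
      exact Finset.sum_congr rfl fun i _ => by rw [c34 hT z w x (e i)]; ring
    rw [h1]
    refine Finset.sum_congr rfl fun i _ => ?_
    rw [h4, Finset.mul_sum]
    exact Finset.sum_congr rfl fun j _ => by ring
  simp only [h]
  fun_prop

/-- An orthonormal basis which begins with `z`, `w` and in which the form `T z w` on the orthogonal
complement is in normal form. -/
theorem normal (e : OrthonormalBasis (Fin 3 × Bool) ℝ V) {T : V → V → V → V → ℝ}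
    (hT : AlgCurv T) {z w : V} (hz : ‖z‖ = 1) (hw : ‖w‖ = 1) (hzw : inner ℝ z w = 0) :
    ∃ b : OrthonormalBasis (Fin 3 × Bool) ℝ V, b (0, false) = z ∧ b (0, true) = w ∧
      0 ≤ T z w (b (1, false)) (b (1, true)) ∧ 0 ≤ T z w (b (2, false)) (b (2, true)) ∧
      ∀ c d, T z w (b (1, c)) (b (2, d)) = 0 := by
  classical
  have hfin : FiniteDimensional ℝ V := Module.Finite.of_basis e.toBasis
  obtain ⟨b0, hb0, hb1⟩ := frameR e hz hw hzw
  have hin : ∀ (b : OrthonormalBasis (Fin 3 × Bool) ℝ V) i j, inner ℝ (b i) (b j) =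
      if i = j then (1 : ℝ) else 0 := fun b i j => by rw [b.inner_eq_ite]
  have hne : (cset z w).Nonempty := by
    refine ⟨(b0 (1, false), b0 (1, true)), b0.norm_eq_one _, b0.norm_eq_one _, ?_, ?_, ?_, ?_, ?_⟩
    · rw [hin, if_neg (by simp)]
    · rw [← hb0, hin, if_neg (by simp)]
    · rw [← hb1, hin, if_neg (by simp)]
    · rw [← hb0, hin, if_neg (by simp)]
    · rw [← hb1, hin, if_neg (by simp)]
  obtain ⟨⟨p, q⟩, hpq, hmax⟩ := (cset_compact z w).exists_isMaxOn hne
    (cont_T e hT z w).continuousOn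
  have hmax' : ∀ u v : V, (u, v) ∈ cset z w → T z w u v ≤ T z w p q := fun u v h => hmax h
  obtain ⟨hp, hq, hpq0, hzp, hwp, hzq, hwq⟩ := hpq
  simp only at hp hq hpq0 hzp hwp hzq hwq
  have hlam : 0 ≤ T z w p q := by
    have h1 := hmax' q p ⟨hq, hp, by rw [real_inner_comm]; exact hpq0, hzq, hwq, hzp, hwp⟩
    rw [c34 hT] at h1
    linarith
  have unit : ∀ (c s : ℝ) (x u : V), c ^ 2 + s ^ 2 = 1 → ‖x‖ = 1 → ‖u‖ = 1 → inner ℝ x u = 0 →
      ‖c • x + s • u‖ = 1 := by
    intro c s x u hcs hx hu hxu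
    have h1 : ‖c • x + s • u‖ ^ 2 = 1 := by
      rw [← real_inner_self_eq_norm_sq]
      simp only [inner_add_left, inner_add_right, inner_smul_left, inner_smul_right,
        conj_trivial]
      rw [real_inner_comm x u, hxu, real_inner_self_eq_norm_sq, real_inner_self_eq_norm_sq, hx, hu]
      linarith
    have h2 : 0 ≤ ‖c • x + s • u‖ := norm_nonneg _
    nlinarith
  -- first order conditions
  have hq0 : ∀ u : V, ‖u‖ = 1 → inner ℝ z u = 0 → inner ℝ w u = 0 → inner ℝ p u = 0 →
      inner ℝ q u = 0 → T z w p u = 0 := by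
    intro u hu hzu hwu hpu hqu
    refine circle (lam := T z w p q) fun c s hcs => ?_
    have h1 := hmax' p (c • q + s • u) ⟨hp, unit c s q u hcs hq hu hqu, ?_, hzp, hwp, ?_, ?_⟩
    · rw [c4add hT, c4smul hT, c4smul hT] at h1
      exact h1
    · simp only [inner_add_right, inner_smul_right, hpq0, hpu, mul_zero, add_zero]
    · simp only [inner_add_right, inner_smul_right, hzq, hzu, mul_zero, add_zero]
    · simp only [inner_add_right, inner_smul_right, hwq, hwu, mul_zero, add_zero]
  have hp0 : ∀ u : V, ‖u‖ = 1 → inner ℝ z u = 0 → inner ℝ w u = 0 → inner ℝ p u = 0 →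
      inner ℝ q u = 0 → T z w q u = 0 := by
    intro u hu hzu hwu hpu hqu
    have h0 : T z w u q = 0 := by
      refine circle (lam := T z w p q) fun c s hcs => ?_
      have h1 := hmax' (c • p + s • u) q ⟨unit c s p u hcs hp hu hpu, hq, ?_, ?_, ?_, hzq, hwq⟩
      · rw [c3add hT, c3smul hT, c3smul hT] at h1
        exact h1
      · simp only [inner_add_left, inner_smul_left, conj_trivial]
        rw [hpq0, real_inner_comm, hqu]
        ring
      · simp only [inner_add_right, inner_smul_right, hzp, hzu, mul_zero, add_zero]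
      · simp only [inner_add_right, inner_smul_right, hwp, hwu, mul_zero, add_zero]
    rw [c34 hT, h0, neg_zero]
  -- the basis
  obtain ⟨v, hv⟩ : ∃ v : Fin 3 × Bool → V, v = fun i =>
    if i = (0, false) then z else if i = (0, true) then w else if i = (1, false) then p else q :=
    ⟨_, rfl⟩
  have v0 : v (0, false) = z := by rw [hv]; simp
  have v1 : v (0, true) = w := by rw [hv]; simp
  have v2 : v (1, false) = p := by rw [hv]; simp
  have v3 : v (1, true) = q := by rw [hv]; simp
  have hzz : inner ℝ z z = (1 : ℝ) := by rw [real_inner_self_eq_norm_sq, hz]; norm_num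
  have hww : inner ℝ w w = (1 : ℝ) := by rw [real_inner_self_eq_norm_sq, hw]; norm_num
  have hpp : inner ℝ p p = (1 : ℝ) := by rw [real_inner_self_eq_norm_sq, hp]; norm_num
  have hqq : inner ℝ q q = (1 : ℝ) := by rw [real_inner_self_eq_norm_sq, hq]; norm_num
  have hwz : inner ℝ w z = (0 : ℝ) := by rw [real_inner_comm]; exact hzw
  have hpz : inner ℝ p z = (0 : ℝ) := by rw [real_inner_comm]; exact hzp
  have hpw : inner ℝ p w = (0 : ℝ) := by rw [real_inner_comm]; exact hwp
  have hqz : inner ℝ q z = (0 : ℝ) := by rw [real_inner_comm]; exact hzq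
  have hqw : inner ℝ q w = (0 : ℝ) := by rw [real_inner_comm]; exact hwq
  have hqp : inner ℝ q p = (0 : ℝ) := by rw [real_inner_comm]; exact hpq0
  have hall : ∀ i j : Fin 3 × Bool, i.1 ≠ 2 → j.1 ≠ 2 →
      inner ℝ (v i) (v j) = if i = j then (1 : ℝ) else 0 := by
    refine all6 (all6 ?_ ?_ ?_ ?_ ?_ ?_) (all6 ?_ ?_ ?_ ?_ ?_ ?_) (all6 ?_ ?_ ?_ ?_ ?_ ?_)
      (all6 ?_ ?_ ?_ ?_ ?_ ?_) (all6 ?_ ?_ ?_ ?_ ?_ ?_) (all6 ?_ ?_ ?_ ?_ ?_ ?_)
    all_goals intro h1 h2
    all_goals first
      | exact absurd rfl h1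
      | exact absurd rfl h2
      | (simp only [v0, v1, v2, v3, hzz, hww, hpp, hqq, hwz, hpz, hpw, hqz, hqw, hqp, hzw, hzp,
          hwp, hzq, hwq, hpq0]; simp)
  obtain ⟨b, hb⟩ := ext_basis e v {i | i.1 ≠ 2} (fun i hi j hj => hall i j hi hj)
  have b0' : b (0, false) = z := by rw [hb (0, false) (by simp), v0]
  have b1' : b (0, true) = w := by rw [hb (0, true) (by simp), v1]
  have b2' : b (1, false) = p := by rw [hb (1, false) (by simp), v2]
  have b3' : b (1, true) = q := by rw [hb (1, true) (by simp), v3]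
  have hcross : ∀ c d, T z w (b (1, c)) (b (2, d)) = 0 := by
    intro c d
    have k1 : inner ℝ z (b (2, d)) = 0 := by rw [← b0', hin, if_neg (by simp)]
    have k2 : inner ℝ w (b (2, d)) = 0 := by rw [← b1', hin, if_neg (by simp)]
    have k3 : inner ℝ p (b (2, d)) = 0 := by rw [← b2', hin, if_neg (by simp)]
    have k4 : inner ℝ q (b (2, d)) = 0 := by rw [← b3', hin, if_neg (by simp)]
    cases c
    · rw [b2']; exact hq0 _ (b.norm_eq_one _) k1 k2 k3 k4
    · rw [b3']; exact hp0 _ (b.norm_eq_one _) k1 k2 k3 k4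
  by_cases hμ : 0 ≤ T z w (b (2, false)) (b (2, true))
  · exact ⟨b, b0', b1', by rw [b2', b3']; exact hlam, hμ, hcross⟩
  · refine ⟨b.reindex (Equiv.swap (2, false) (2, true)), ?_, ?_, ?_, ?_, ?_⟩
    · rw [OrthonormalBasis.reindex_apply, Equiv.symm_swap,
        Equiv.swap_apply_of_ne_of_ne (by simp) (by simp), b0']
    · rw [OrthonormalBasis.reindex_apply, Equiv.symm_swap,
        Equiv.swap_apply_of_ne_of_ne (by simp) (by simp), b1']
    · rw [OrthonormalBasis.reindex_apply, OrthonormalBasis.reindex_apply, Equiv.symm_swap,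
        Equiv.swap_apply_of_ne_of_ne (by simp) (by simp),
        Equiv.swap_apply_of_ne_of_ne (by simp) (by simp), b2', b3']
      exact hlam
    · rw [OrthonormalBasis.reindex_apply, OrthonormalBasis.reindex_apply, Equiv.symm_swap,
        Equiv.swap_apply_left, Equiv.swap_apply_right, c34 hT]
      linarith
    · intro c d
      rw [OrthonormalBasis.reindex_apply, OrthonormalBasis.reindex_apply, Equiv.symm_swap,
        Equiv.swap_apply_of_ne_of_ne (by simp) (by simp)]
      cases d
      · rw [Equiv.swap_apply_left]; exact hcross _ _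
      · rw [Equiv.swap_apply_right]; exact hcross _ _

end Pool.Agent.K1H63.T2
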