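import Pool.Agent.K1H63.T2.Normal
import Pool.Agent.Y519.HB.Top

/-!
# The Hopf sign in dimension six when the largest sectional curvature is attained at a plane which is
nearly curvature-orthogonal to its complement
-/

set_option autoImplicit false

namespace Pool.Agent.K1H63.T2

open Finset Module MeasureTheory
open Pool.Agent.W666.GB Pool.Agent.TH598.GV Pool.Agent.R735.HA
open Pool.Agent.W669.HD (unitT addT negT LivesOn OpNonneg)
open Pool.Agent.Y519.HB (sqDec)

section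

variable {V : Type} [NormedAddCommGroup V] [InnerProductSpace ℝ V]

/-- All sectional curvatures of `R` are at most `-κ`, and there is a plane with sectional curvature
`-κ`, spanned by the orthonormal pair `z`, `w`, such that `|R z w u v| ≤ r` for all orthonormal
pairs `u`, `v` orthogonal to the plane. -/
def NearPlane (R : V → V → V → V → ℝ) (κ r : ℝ) : Prop :=
  (∀ x y : V, ‖x‖ = 1 → ‖y‖ = 1 → inner ℝ x y = 0 → R x y x y ≤ -κ) ∧
  ∃ z w : V, ‖z‖ = 1 ∧ ‖w‖ = 1 ∧ inner ℝ z w = 0 ∧ R z w z w = -κ ∧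
    ∀ u v : V, ‖u‖ = 1 → ‖v‖ = 1 → inner ℝ u v = 0 → inner ℝ z u = 0 → inner ℝ w u = 0 →
      inner ℝ z v = 0 → inner ℝ w v = 0 → |R z w u v| ≤ r

lemma sq_curv (x y : V) : AlgCurv (sqDec x y) where
  add a a' b c d := by simp only [sqDec, inner_add_right]; ring
  smul t a b c d := by simp only [sqDec, inner_smul_right]; ring
  anti a b c d := by simp only [sqDec]; ring
  pair a b c d := by simp only [sqDec]; ring
  bianchi a b c d := by simp only [sqDec]; ring

lemma curv_sum {n : ℕ} {S : Fin n → V → V → V → V → ℝ} (h : ∀ i, AlgCurv (S i)) :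
    AlgCurv (fun a b c d => ∑ i, S i a b c d) where
  add a a' b c d := by
    rw [← Finset.sum_add_distrib]
    exact Finset.sum_congr rfl fun i _ => (h i).add _ _ _ _ _
  smul t a b c d := by
    rw [Finset.mul_sum]
    exact Finset.sum_congr rfl fun i _ => (h i).smul _ _ _ _ _
  anti a b c d := by
    rw [← Finset.sum_neg_distrib]
    exact Finset.sum_congr rfl fun i _ => (h i).anti _ _ _ _
  pair a b c d := Finset.sum_congr rfl fun i _ => (h i).pair _ _ _ _
  bianchi a b c d := by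
    rw [← Finset.sum_add_distrib, ← Finset.sum_add_distrib]
    exact Finset.sum_eq_zero fun i _ => (h i).bianchi _ _ _ _

lemma neg_c {T : V → V → V → V → ℝ} (h : AlgCurv T) : AlgCurv (fun a b c d => -T a b c d) where
  add a a' b c d := by rw [h.add]; ring
  smul t a b c d := by rw [h.smul]; ring
  anti a b c d := by rw [h.anti]
  pair a b c d := by rw [h.pair]
  bianchi a b c d := by
    have := h.bianchi a b c d
    linarith

/-- four squares of decomposable bivectors -/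
noncomputable def fam (c s : ℝ) (z w p q a b a' b' : V) : ℝ :=
  sqDec (c • z + s • p) (c • w + s • q) a b a' b' + sqDec (c • z + s • q) (c • w - s • p) a b a' b' +
  (sqDec (c • z - s • p) (c • w - s • q) a b a' b' +
    sqDec (c • z - s • q) (c • w + s • p) a b a' b')

lemma fam_zw (c s : ℝ) (z w p q : V) (hzz : inner ℝ z z = (1 : ℝ)) (hww : inner ℝ w w = (1 : ℝ))
    (hzw : inner ℝ z w = (0 : ℝ)) (hwz : inner ℝ w z = (0 : ℝ)) (hpz : inner ℝ p z = (0 : ℝ))
    (hpw : inner ℝ p w = (0 : ℝ)) (hqz : inner ℝ q z = (0 : ℝ)) (hqw : inner ℝ q w = (0 : ℝ))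
    (a b : V) : fam c s z w p q z w a b = 4 * c ^ 4 * (inner ℝ z a * inner ℝ w b -
      inner ℝ z b * inner ℝ w a) + 4 * (c ^ 2 * s ^ 2) * (inner ℝ p a * inner ℝ q b -
      inner ℝ p b * inner ℝ q a) := by
  simp only [fam, sqDec, inner_add_left, inner_sub_left, inner_smul_left, conj_trivial, hzz, hww,
    hzw, hwz, hpz, hpw, hqz, hqw]
  ring

/-- the value on a plane -/
lemma fam_xy (c s : ℝ) (z w p q x y : V) (z1 w1 p1 q1 z2 w2 p2 q2 : ℝ) (h1 : inner ℝ z x = z1)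
    (h2 : inner ℝ w x = w1) (h3 : inner ℝ p x = p1) (h4 : inner ℝ q x = q1)
    (h5 : inner ℝ z y = z2) (h6 : inner ℝ w y = w2) (h7 : inner ℝ p y = p2)
    (h8 : inner ℝ q y = q2) : fam c s z w p q x y x y =
      4 * c ^ 4 * (z1 * w2 - z2 * w1) ^ 2 +
      8 * (c ^ 2 * s ^ 2) * ((z1 * w2 - z2 * w1) * (p1 * q2 - p2 * q1)) +
      4 * s ^ 4 * (p1 * q2 - p2 * q1) ^ 2 +
      2 * (c ^ 2 * s ^ 2) * (((z1 * q2 - z2 * q1) - (w1 * p2 - w2 * p1)) ^ 2 +
        ((z1 * p2 - z2 * p1) + (w1 * q2 - w2 * q1)) ^ 2) := by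
  simp only [fam, sqDec, inner_add_left, inner_sub_left, inner_smul_left, conj_trivial, h1, h2, h3,
    h4, h5, h6, h7, h8]
  ring

/-- the inequality for one family -/
lemma fam_le (z1 w1 p1 q1 z2 w2 p2 q2 K ρ : ℝ) (hρ : 0 ≤ ρ) (hK : 2 * ρ ≤ K) :
    2 * ρ * ((z1 * w2 - z2 * w1) * (p1 * q2 - p2 * q1)) +
      (1 / 2) * ρ * (((z1 * q2 - z2 * q1) - (w1 * p2 - w2 * p1)) ^ 2 +
        ((z1 * p2 - z2 * p1) + (w1 * q2 - w2 * q1)) ^ 2) ≤
    K * ((z1 * p2 - z2 * p1) ^ 2 + (z1 * q2 - z2 * q1) ^ 2 + (w1 * p2 - w2 * p1) ^ 2 +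
      (w1 * q2 - w2 * q1) ^ 2) := by
  have h1 : K * ((z1 * p2 - z2 * p1) ^ 2 + (z1 * q2 - z2 * q1) ^ 2 + (w1 * p2 - w2 * p1) ^ 2 +
      (w1 * q2 - w2 * q1) ^ 2) - (2 * ρ * ((z1 * w2 - z2 * w1) * (p1 * q2 - p2 * q1)) +
      (1 / 2) * ρ * (((z1 * q2 - z2 * q1) - (w1 * p2 - w2 * p1)) ^ 2 +
        ((z1 * p2 - z2 * p1) + (w1 * q2 - w2 * q1)) ^ 2)) =
      (K - 2 * ρ) * ((z1 * p2 - z2 * p1) ^ 2 + (z1 * q2 - z2 * q1) ^ 2 +
        (w1 * p2 - w2 * p1) ^ 2 + (w1 * q2 - w2 * q1) ^ 2) +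
      (3 / 2) * ρ * (((z1 * p2 - z2 * p1) - (w1 * q2 - w2 * q1)) ^ 2 +
        ((z1 * q2 - z2 * q1) + (w1 * p2 - w2 * p1)) ^ 2) := by ring
  have h2 : 0 ≤ (K - 2 * ρ) * ((z1 * p2 - z2 * p1) ^ 2 + (z1 * q2 - z2 * q1) ^ 2 +
        (w1 * p2 - w2 * p1) ^ 2 + (w1 * q2 - w2 * q1) ^ 2) :=
    mul_nonneg (by linarith) (by positivity)
  have h3 : 0 ≤ (3 / 2) * ρ * (((z1 * p2 - z2 * p1) - (w1 * q2 - w2 * q1)) ^ 2 +
        ((z1 * q2 - z2 * q1) + (w1 * p2 - w2 * p1)) ^ 2) := by positivity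
  linarith

lemma sum6 (F : Fin 3 × Bool → ℝ) : ∑ i, F i = F (0, false) + F (0, true) + F (1, false) +
    F (1, true) + F (2, false) + F (2, true) := by
  rw [Fintype.sum_prod_type, Fin.sum_univ_three]
  simp only [Fintype.sum_bool]
  ring

/-- the unit tensor on a plane in coordinates -/
lemma unit_xy (b : OrthonormalBasis (Fin 3 × Bool) ℝ V) (x y : V) : unitT x y x y =
    (∑ i, inner ℝ (b i) x ^ 2) * (∑ i, inner ℝ (b i) y ^ 2) -
      (∑ i, inner ℝ (b i) x * inner ℝ (b i) y) ^ 2 := by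
  have h : ∀ x y : V, inner ℝ x y = ∑ i, inner ℝ (b i) x * inner ℝ (b i) y := by
    intro x y
    rw [← b.sum_inner_mul_inner x y]
    exact Finset.sum_congr rfl fun i _ => by rw [real_inner_comm x (b i)]
  unfold unitT
  rw [real_inner_comm x y]
  conv_lhs => rw [h x x, h y y, h x y]
  simp only [pow_two]

/-- Lagrange's identity -/
lemma lagrange (x0 x1 x2 x3 x4 x5 y0 y1 y2 y3 y4 y5 : ℝ) :
    (x0 ^ 2 + x1 ^ 2 + x2 ^ 2 + x3 ^ 2 + x4 ^ 2 + x5 ^ 2) *
      (y0 ^ 2 + y1 ^ 2 + y2 ^ 2 + y3 ^ 2 + y4 ^ 2 + y5 ^ 2) -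
      (x0 * y0 + x1 * y1 + x2 * y2 + x3 * y3 + x4 * y4 + x5 * y5) ^ 2 =
    (x0 * y1 - y0 * x1) ^ 2 +
    ((x0 * y2 - y0 * x2) ^ 2 + (x0 * y3 - y0 * x3) ^ 2 + (x1 * y2 - y1 * x2) ^ 2 +
      (x1 * y3 - y1 * x3) ^ 2) +
    ((x0 * y4 - y0 * x4) ^ 2 + (x0 * y5 - y0 * x5) ^ 2 + (x1 * y4 - y1 * x4) ^ 2 +
      (x1 * y5 - y1 * x5) ^ 2) +
    (x2 * y3 - y2 * x3) ^ 2 + (x4 * y5 - y4 * x5) ^ 2 +
    ((x2 * y4 - y2 * x4) ^ 2 + (x2 * y5 - y2 * x5) ^ 2 + (x3 * y4 - y3 * x4) ^ 2 +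
      (x3 * y5 - y3 * x5) ^ 2) := by
  ring

/-- the two families are bounded by the unit tensor on planes -/
lemma two_le (b : OrthonormalBasis (Fin 3 × Bool) ℝ V) {K c s1 s2 ρ1 ρ2 : ℝ} (hK0 : 0 < K)
    (hc : 8 * c ^ 4 = K) (h1 : 4 * (c ^ 2 * s1 ^ 2) = ρ1) (h2 : 4 * (c ^ 2 * s2 ^ 2) = ρ2)
    (hK1 : 2 * ρ1 ≤ K) (hK2 : 2 * ρ2 ≤ K) (x y : V) :
    fam c s1 (b (0, false)) (b (0, true)) (b (1, false)) (b (1, true)) x y x y +
      fam c s2 (b (0, false)) (b (0, true)) (b (2, false)) (b (2, true)) x y x y ≤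
      K * unitT x y x y := by
  obtain ⟨u, hu⟩ : ∃ u : Fin 3 × Bool → ℝ, ∀ i, inner ℝ (b i) x = u i := ⟨_, fun _ => rfl⟩
  obtain ⟨v, hv⟩ : ∃ v : Fin 3 × Bool → ℝ, ∀ i, inner ℝ (b i) y = v i := ⟨_, fun _ => rfl⟩
  have hρ1 : 0 ≤ ρ1 := by rw [← h1]; positivity
  have hρ2 : 0 ≤ ρ2 := by rw [← h2]; positivity
  have hs : ∀ s ρ : ℝ, 0 ≤ ρ → 4 * (c ^ 2 * s ^ 2) = ρ → 2 * ρ ≤ K → 4 * s ^ 4 ≤ K := by
    intro s ρ hρ h hK
    have e1 : K * (4 * s ^ 4) = 2 * ρ ^ 2 := by
      rw [← hc, ← h]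
      ring
    have e2 : 2 * ρ ^ 2 ≤ K * K := by nlinarith
    rw [← e1] at e2
    exact le_of_mul_le_mul_left e2 hK0
  have g1 := hs s1 ρ1 hρ1 h1 hK1
  have g2 := hs s2 ρ2 hρ2 h2 hK2
  rw [fam_xy c s1 _ _ _ _ x y _ _ _ _ _ _ _ _ (hu _) (hu _) (hu _) (hu _) (hv _) (hv _) (hv _)
      (hv _),
    fam_xy c s2 _ _ _ _ x y _ _ _ _ _ _ _ _ (hu _) (hu _) (hu _) (hu _) (hv _) (hv _) (hv _)
      (hv _), unit_xy b]
  simp only [hu, hv, sum6]
  have f1 := fam_le (u (0, false)) (u (0, true)) (u (1, false)) (u (1, true)) (v (0, false))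
    (v (0, true)) (v (1, false)) (v (1, true)) K ρ1 hρ1 hK1
  have f2 := fam_le (u (0, false)) (u (0, true)) (u (2, false)) (u (2, true)) (v (0, false))
    (v (0, true)) (v (2, false)) (v (2, true)) K ρ2 hρ2 hK2
  have k1 := mul_le_mul_of_nonneg_right g1
    (sq_nonneg (u (1, false) * v (1, true) - v (1, false) * u (1, true)))
  have k2 := mul_le_mul_of_nonneg_right g2
    (sq_nonneg (u (2, false) * v (2, true) - v (2, false) * u (2, true)))
  have m1 : 0 ≤ K * ((u (1, false) * v (2, false) - v (1, false) * u (2, false)) ^ 2 +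
      (u (1, false) * v (2, true) - v (1, false) * u (2, true)) ^ 2 +
      (u (1, true) * v (2, false) - v (1, true) * u (2, false)) ^ 2 +
      (u (1, true) * v (2, true) - v (1, true) * u (2, true)) ^ 2) := by positivity
  have e1 : c ^ 2 * s1 ^ 2 = ρ1 / 4 := by linarith
  have e2 : c ^ 2 * s2 ^ 2 = ρ2 / 4 := by linarith
  have e3 : c ^ 4 = K / 8 := by linarith
  rw [e1, e2, e3, lagrange]
  generalize (u (1, false) * v (2, false) - v (1, false) * u (2, false)) ^ 2 +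
      (u (1, false) * v (2, true) - v (1, false) * u (2, true)) ^ 2 +
      (u (1, true) * v (2, false) - v (1, true) * u (2, false)) ^ 2 +
      (u (1, true) * v (2, true) - v (1, true) * u (2, true)) ^ 2 = A1 at m1 ⊢
  generalize (u (0, false) * v (0, true) - v (0, false) * u (0, true)) = B01 at f1 f2 ⊢
  generalize (u (1, false) * v (1, true) - v (1, false) * u (1, true)) = B23 at k1 f1 ⊢
  generalize (u (2, false) * v (2, true) - v (2, false) * u (2, true)) = B45 at k2 f2 ⊢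
  generalize (u (0, false) * v (1, false) - v (0, false) * u (1, false)) = B02 at f1 ⊢
  generalize (u (0, false) * v (1, true) - v (0, false) * u (1, true)) = B03 at f1 ⊢
  generalize (u (0, true) * v (1, false) - v (0, true) * u (1, false)) = B12 at f1 ⊢
  generalize (u (0, true) * v (1, true) - v (0, true) * u (1, true)) = B13 at f1 ⊢
  generalize (u (0, false) * v (2, false) - v (0, false) * u (2, false)) = B04 at f2 ⊢
  generalize (u (0, false) * v (2, true) - v (0, false) * u (2, true)) = B05 at f2 ⊢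
  generalize (u (0, true) * v (2, false) - v (0, true) * u (2, false)) = B14 at f2 ⊢
  generalize (u (0, true) * v (2, true) - v (0, true) * u (2, true)) = B15 at f2 ⊢
  linarith

/-- the first vectors of the bivectors -/
noncomputable def XX (b : OrthonormalBasis (Fin 3 × Bool) ℝ V) (c s1 s2 : ℝ) : Fin 8 → V :=
  ![c • b (0, false) + s1 • b (1, false), c • b (0, false) + s1 • b (1, true),
    c • b (0, false) - s1 • b (1, false), c • b (0, false) - s1 • b (1, true),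
    c • b (0, false) + s2 • b (2, false), c • b (0, false) + s2 • b (2, true),
    c • b (0, false) - s2 • b (2, false), c • b (0, false) - s2 • b (2, true)]

/-- the second vectors of the bivectors -/
noncomputable def YY2 (b : OrthonormalBasis (Fin 3 × Bool) ℝ V) (c s1 s2 : ℝ) : Fin 8 → V :=
  ![c • b (0, true) + s1 • b (1, true), c • b (0, true) - s1 • b (1, false),
    c • b (0, true) - s1 • b (1, true), c • b (0, true) + s1 • b (1, false),
    c • b (0, true) + s2 • b (2, true), c • b (0, true) - s2 • b (2, false),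
    c • b (0, true) - s2 • b (2, true), c • b (0, true) + s2 • b (2, false)]

lemma sum_XY (b : OrthonormalBasis (Fin 3 × Bool) ℝ V) (c s1 s2 : ℝ) (x y z w : V) :
    ∑ k, sqDec (XX b c s1 s2 k) (YY2 b c s1 s2 k) x y z w =
      fam c s1 (b (0, false)) (b (0, true)) (b (1, false)) (b (1, true)) x y z w +
      fam c s2 (b (0, false)) (b (0, true)) (b (2, false)) (b (2, true)) x y z w := by
  rw [Fin.sum_univ_eight]
  unfold fam
  change sqDec (c • b (0, false) + s1 • b (1, false)) (c • b (0, true) + s1 • b (1, true)) x y z w +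
    sqDec (c • b (0, false) + s1 • b (1, true)) (c • b (0, true) - s1 • b (1, false)) x y z w +
    sqDec (c • b (0, false) - s1 • b (1, false)) (c • b (0, true) - s1 • b (1, true)) x y z w +
    sqDec (c • b (0, false) - s1 • b (1, true)) (c • b (0, true) + s1 • b (1, false)) x y z w +
    sqDec (c • b (0, false) + s2 • b (2, false)) (c • b (0, true) + s2 • b (2, true)) x y z w +
    sqDec (c • b (0, false) + s2 • b (2, true)) (c • b (0, true) - s2 • b (2, false)) x y z w +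
    sqDec (c • b (0, false) - s2 • b (2, false)) (c • b (0, true) - s2 • b (2, true)) x y z w +
    sqDec (c • b (0, false) - s2 • b (2, true)) (c • b (0, true) + s2 • b (2, false)) x y z w = _
  ring

/-- **Hopf sign in dimension six, pointwise**, extremal plane nearly curvature-orthogonal to its
complement. -/
theorem pointN (e : OrthonormalBasis (Fin 3 × Bool) ℝ V) {R : V → V → V → V → ℝ} (hR : AlgCurv R)
    {κ r : ℝ} (hr : 0 ≤ r) (hκ : 2 * r ≤ κ) (hE : NearPlane R κ r) :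
    roundGB 3 (κ - 2 * r) ≤ (-1) ^ 3 * gbc e R := by
  classical
  obtain ⟨hsec, z, w, hz, hw, hzw, hval, hperp⟩ := hE
  have hT := shift_curv hR κ
  obtain ⟨T, hTdef⟩ : ∃ T, T = shiftT R κ := ⟨_, rfl⟩
  rw [← hTdef] at hT
  obtain ⟨b, hb0, hb1, hn1, hn2, hn3⟩ := normal e (neg_c hT) hz hw hzw
  rw [Pool.Agent.W688.HD.bas 3 V e b R hR]
  have hTs : ∀ x y : V, T x y x y ≤ 0 := by
    refine sec_all hT fun x y hx hy hxy => ?_
    have h1 := hsec x y hx hy hxy
    simp only [hTdef, shiftT]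
    rw [real_inner_self_eq_norm_sq, real_inner_self_eq_norm_sq, hx, hy, hxy]
    linarith
  have hT0 : T z w z w = 0 := by
    simp only [hTdef, shiftT]
    rw [real_inner_self_eq_norm_sq, real_inner_self_eq_norm_sq, hz, hw, hzw, hval]
    ring
  have hin : ∀ i j, inner ℝ (b i) (b j) = if i = j then (1 : ℝ) else 0 := fun i j => by
    rw [b.inner_eq_ite]
  obtain ⟨ρ1, hρ1⟩ : ∃ ρ1, -T z w (b (1, false)) (b (1, true)) = ρ1 := ⟨_, rfl⟩
  obtain ⟨ρ2, hρ2⟩ : ∃ ρ2, -T z w (b (2, false)) (b (2, true)) = ρ2 := ⟨_, rfl⟩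
  rw [hρ1] at hn1
  rw [hρ2] at hn2
  have hTR : ∀ i j : Fin 3 × Bool, i ≠ (0, false) → i ≠ (0, true) → j ≠ (0, false) →
      j ≠ (0, true) → T z w (b i) (b j) = R z w (b i) (b j) := by
    intro i j h1 h2 h3 h4
    have a1 : inner ℝ z (b i) = 0 := by rw [← hb0, hin, if_neg (Ne.symm h1)]
    have a2 : inner ℝ w (b i) = 0 := by rw [← hb1, hin, if_neg (Ne.symm h2)]
    have a3 : inner ℝ z (b j) = 0 := by rw [← hb0, hin, if_neg (Ne.symm h3)]
    have a4 : inner ℝ w (b j) = 0 := by rw [← hb1, hin, if_neg (Ne.symm h4)]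
    simp only [hTdef, shiftT]
    rw [a1, a2, a3, a4]
    ring
  have hle : ∀ a : Fin 3, a ≠ 0 → -T z w (b (a, false)) (b (a, true)) ≤ r := by
    intro a ha
    have n1 : (a, false) ≠ ((0, false) : Fin 3 × Bool) := fun h => ha (congrArg Prod.fst h)
    have n2 : (a, false) ≠ ((0, true) : Fin 3 × Bool) := fun h => ha (congrArg Prod.fst h)
    have n3 : (a, true) ≠ ((0, false) : Fin 3 × Bool) := fun h => ha (congrArg Prod.fst h)
    have n4 : (a, true) ≠ ((0, true) : Fin 3 × Bool) := fun h => ha (congrArg Prod.fst h)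
    rw [hTR _ _ n1 n2 n3 n4]
    have h1 := hperp (b (a, false)) (b (a, true)) (b.norm_eq_one _) (b.norm_eq_one _)
      (by rw [hin, if_neg (by simp)])
      (by rw [← hb0, hin, if_neg (Ne.symm n1)]) (by rw [← hb1, hin, if_neg (Ne.symm n2)])
      (by rw [← hb0, hin, if_neg (Ne.symm n3)]) (by rw [← hb1, hin, if_neg (Ne.symm n4)])
    have h2 := neg_abs_le (R z w (b (a, false)) (b (a, true)))
    linarith
  have hρ1r : ρ1 ≤ r := by rw [← hρ1]; exact hle 1 (by decide)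
  have hρ2r : ρ2 ≤ r := by rw [← hρ2]; exact hle 2 (by decide)
  have hzk : ∀ u, T z w z u = 0 := fun u => first_left hT hTs hT0 _
  have hzk' : ∀ u, T z w u z = 0 := fun u => by rw [c34 hT, hzk, neg_zero]
  have hwk' : ∀ u, T z w u w = 0 := fun u => first_right hT hTs hT0 _
  have hwk : ∀ u, T z w w u = 0 := fun u => by rw [c34 hT, hwk', neg_zero]
  have hdd : ∀ u, T z w u u = 0 := fun u => by
    have := c34 hT z w u u
    linarith
  have hT1 : T z w (b (1, false)) (b (1, true)) = -ρ1 := by linarith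
  have hT2 : T z w (b (2, false)) (b (2, true)) = -ρ2 := by linarith
  have hT1' : T z w (b (1, true)) (b (1, false)) = ρ1 := by rw [c34 hT, hT1]; ring
  have hT2' : T z w (b (2, true)) (b (2, false)) = ρ2 := by rw [c34 hT, hT2]; ring
  have hT3 : ∀ c d, T z w (b (1, c)) (b (2, d)) = 0 := fun c d => by
    have := hn3 c d
    linarith
  have hT3' : ∀ c d, T z w (b (2, c)) (b (1, d)) = 0 := fun c d => by
    rw [c34 hT, hT3, neg_zero]
  -- the kernel condition for a modification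
  rcases eq_or_lt_of_le hr with hr0 | hr0
  · -- `r = 0`
    have e1 : ρ1 = 0 := le_antisymm (by linarith) hn1
    have e2 : ρ2 = 0 := le_antisymm (by linarith) hn2
    rw [← hr0, mul_zero, sub_zero]
    refine pointB b hR (by linarith) (fun x y => ?_) ?_
    · rw [← hTdef]
      exact hTs x y
    · rw [← hTdef, hb0, hb1]
      refine all6 (all6 ?_ ?_ ?_ ?_ ?_ ?_) (all6 ?_ ?_ ?_ ?_ ?_ ?_) (all6 ?_ ?_ ?_ ?_ ?_ ?_)
        (all6 ?_ ?_ ?_ ?_ ?_ ?_) (all6 ?_ ?_ ?_ ?_ ?_ ?_) (all6 ?_ ?_ ?_ ?_ ?_ ?_)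
      all_goals simp only [hb0, hb1, hzk, hzk', hwk, hwk', hdd, hT1, hT2, hT1', hT2', hT3, hT3',
        e1, e2, neg_zero]
  · -- `0 < r`
    obtain ⟨K, hK⟩ : ∃ K, K = 2 * r := ⟨_, rfl⟩
    have hK0 : 0 < K := by rw [hK]; linarith
    obtain ⟨c, hc⟩ : ∃ c, c = Real.sqrt (Real.sqrt (K / 8)) := ⟨_, rfl⟩
    have hc0 : 0 < c := by rw [hc]; positivity
    have hc2 : c ^ 2 = Real.sqrt (K / 8) := by rw [hc]; exact Real.sq_sqrt (Real.sqrt_nonneg _)
    have hc4 : 8 * c ^ 4 = K := by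
      have h1 : c ^ 4 = (c ^ 2) ^ 2 := by ring
      rw [h1, hc2, Real.sq_sqrt (by positivity)]
      ring
    have hs : ∀ ρ : ℝ, 0 ≤ ρ → 4 * (c ^ 2 * (Real.sqrt ρ / (2 * c)) ^ 2) = ρ := by
      intro ρ hρ
      rw [div_pow, Real.sq_sqrt hρ]
      field_simp
      ring
    obtain ⟨s1, hs1⟩ : ∃ s1, s1 = Real.sqrt ρ1 / (2 * c) := ⟨_, rfl⟩
    obtain ⟨s2, hs2⟩ : ∃ s2, s2 = Real.sqrt ρ2 / (2 * c) := ⟨_, rfl⟩
    have h1 : 4 * (c ^ 2 * s1 ^ 2) = ρ1 := by rw [hs1]; exact hs ρ1 hn1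
    have h2 : 4 * (c ^ 2 * s2 ^ 2) = ρ2 := by rw [hs2]; exact hs ρ2 hn2
    obtain ⟨S, hS⟩ : ∃ S : V → V → V → V → ℝ, S = fun x y z' w' =>
      T x y z' w' + (∑ k, sqDec (XX b c s1 s2 k) (YY2 b c s1 s2 k) x y z' w') +
        (-K) * unitT x y z' w' := ⟨_, rfl⟩
    have hSc : AlgCurv S := by
      have h3 := Pool.Agent.W669.HD.add_curv (Pool.Agent.W669.HD.add_curv hT
        (curv_sum (fun k => sq_curv (XX b c s1 s2 k) (YY2 b c s1 s2 k))))
        (Pool.Agent.W669.HD.unit_curv (-K))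
      rw [hS]
      exact h3
    have hSs : ∀ x y : V, S x y x y ≤ 0 := by
      intro x y
      have h3 := two_le b hK0 hc4 h1 h2 (by rw [hK]; linarith) (by rw [hK]; linarith) x y
      have h4 := hTs x y
      simp only [hS]
      rw [sum_XY]
      linarith
    obtain ⟨T', hT'⟩ : ∃ T' : V → V → V → V → ℝ, T' = fun x y z' w' =>
      -(∑ k, sqDec (XX b c s1 s2 k) (YY2 b c s1 s2 k) x y z' w') -
        (κ - 2 * r) * unitT x y z' w' := ⟨_, rfl⟩
    have hadd : addT S T' = R := by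
      funext x y z' w'
      simp only [addT, hS, hT', hTdef, shiftT, unitT, hK]
      ring
    have key := Pool.Agent.Y519.HB.six_super b (δ := κ - 2 * r) (by linarith)
      (x := XX b c s1 s2) (y := YY2 b c s1 s2) (S := S) (T := T') hSc hSs
      (fun x y z' w' => by rw [hT'])
    rw [hadd] at key
    have hS0 : roundGB 3 0 ≤ (-1) ^ 3 * gbc b S := by
      refine pointB b hSc le_rfl (fun x y => ?_) ?_
      · have h3 := hSs x y
        simp only [shiftT]
        linarith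
      · have h3 : ∀ k l, shiftT S 0 (b (0, false)) (b (0, true)) (b k) (b l) =
            T z w (b k) (b l) + K * (inner ℝ (b (0, false)) (b k) * inner ℝ (b (0, true)) (b l) -
              inner ℝ (b (0, false)) (b l) * inner ℝ (b (0, true)) (b k)) +
            ρ1 * (inner ℝ (b (1, false)) (b k) * inner ℝ (b (1, true)) (b l) -
              inner ℝ (b (1, false)) (b l) * inner ℝ (b (1, true)) (b k)) +
            ρ2 * (inner ℝ (b (2, false)) (b k) * inner ℝ (b (2, true)) (b l) -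
              inner ℝ (b (2, false)) (b l) * inner ℝ (b (2, true)) (b k)) -
            K * unitT (b (0, false)) (b (0, true)) (b k) (b l) := by
          intro k l
          simp only [shiftT, hS]
          rw [sum_XY, fam_zw c s1 _ _ _ _ (by rw [hin, if_pos rfl]) (by rw [hin, if_pos rfl])
            (by rw [hin, if_neg (by simp)]) (by rw [hin, if_neg (by simp)])
            (by rw [hin, if_neg (by simp)]) (by rw [hin, if_neg (by simp)])
            (by rw [hin, if_neg (by simp)]) (by rw [hin, if_neg (by simp)]),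
            fam_zw c s2 _ _ _ _ (by rw [hin, if_pos rfl]) (by rw [hin, if_pos rfl])
            (by rw [hin, if_neg (by simp)]) (by rw [hin, if_neg (by simp)])
            (by rw [hin, if_neg (by simp)]) (by rw [hin, if_neg (by simp)])
            (by rw [hin, if_neg (by simp)]) (by rw [hin, if_neg (by simp)]), hb0, hb1,
            ← hc4, ← h1, ← h2]
          ring
        refine fun k l => (h3 k l).trans ?_
        simp only [unitT, hin]
        revert k l
        refine all6 (all6 ?_ ?_ ?_ ?_ ?_ ?_) (all6 ?_ ?_ ?_ ?_ ?_ ?_) (all6 ?_ ?_ ?_ ?_ ?_ ?_)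
          (all6 ?_ ?_ ?_ ?_ ?_ ?_) (all6 ?_ ?_ ?_ ?_ ?_ ?_) (all6 ?_ ?_ ?_ ?_ ?_ ?_)
        all_goals simp only [hb0, hb1, hzk, hzk', hwk, hwk', hdd, hT1, hT2, hT1', hT2', hT3, hT3']
        all_goals simp
    have h5 : roundGB 3 (0 : ℝ) = 0 := by
      unfold roundGB
      ring
    rw [h5] at hS0
    have h6 := key.1
    have h7 := key.2
    linarith

end

end Pool.Agent.K1H63.T2
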