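import Pool.Agent.K1H63.T2.Star

/-!
# The polarised Pfaffian on mixed forms of rank one
-/

set_option autoImplicit false

namespace Pool.Agent.K1H63.T2

open Finset Pool.Agent.TH598.GV Pool.Agent.R735.HA
open scoped ComplexConjugate

/-- the determinants of the basis -/
noncomputable def EE (x y i j : K 2) : ℂ := D6 (dl x) (dl y) (ev false) (dl i) (ev true) (dl j)

lemma EE_s1 (u v i j : K 2) : EE u v i j = -EE v u i j := D6_sw0 _ _ _ _ _ _

lemma EE_s2 (x u v j : K 2) : EE x u v j = -EE x v u j :=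
  D6_perm (0, true) (1, true) (by decide) (all6 rfl rfl rfl rfl rfl rfl)

lemma EE_s3 (x y u v : K 2) : EE x y u v = -EE x y v u := D6_swt _ _ _ _ _ _

lemma EE_z1 (u i j : K 2) : EE u u i j = 0 := D6_zero (0, false) (0, true) (by decide) rfl

lemma EE_z2 (x u j : K 2) : EE x u u j = 0 := D6_zero (0, true) (1, true) (by decide) rfl

lemma EE_z3 (x y u : K 2) : EE x y u u = 0 := D6_zero (1, true) (2, true) (by decide) rfl

/-- the determinant of the ordered basis -/
noncomputable def E0 : ℂ := EE (0, false) (0, true) (1, false) (1, true)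

/-- the covector of the complement with components `f` -/
noncomputable def cv (f : K 2 → ℂ) : Ix 2 → ℂ := fun t => ∑ i, f i * dl i t

/-- the covector of the plane with components `u` -/
noncomputable def pv2 (u : Bool → ℂ) : Ix 2 → ℂ := fun t => ∑ c, u c * ev c t

lemma D6_lin (x y : K 2) (f g : K 2 → ℂ) :
    D6 (dl x) (dl y) (ev false) (cv f) (ev true) (cv g) =
      ∑ i, ∑ j, f i * g j * EE x y i j := by
  unfold EE
  simp only [D6_eq, cv]
  have h : ∀ σ : Equiv.Perm (Ix 2), cs σ * (dl x (σ (0, false)) * dl y (σ (0, true)) *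
      (ev false (σ (1, false)) * (∑ i, f i * dl i (σ (1, true))) *
        (ev true (σ (2, false)) * ∑ i, g i * dl i (σ (2, true))))) =
      ∑ i, ∑ j, f i * g j * (cs σ * (dl x (σ (0, false)) * dl y (σ (0, true)) *
        (ev false (σ (1, false)) * dl i (σ (1, true)) *
          (ev true (σ (2, false)) * dl j (σ (2, true)))))) := by
    intro σ
    simp only [Finset.mul_sum, Finset.sum_mul]
    rw [Finset.sum_comm]
    refine Finset.sum_congr rfl fun i _ => Finset.sum_congr rfl fun j _ => by ring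
  rw [Finset.sum_congr rfl fun σ _ => h σ, Finset.sum_comm]
  refine Finset.sum_congr rfl fun i _ => ?_
  rw [Finset.sum_comm]
  refine Finset.sum_congr rfl fun j _ => ?_
  rw [← Finset.mul_sum]

lemma D6_st (f g : K 2 → ℂ) : ∀ x y : K 2,
    D6 (dl x) (dl y) (ev false) (cv f) (ev true) (cv g) = E0 * st f g x y := by
  have a1 := fun i j => EE_s1 (0, true) (0, false) i j
  have a2 := fun i j => EE_s1 (1, false) (0, false) i j
  have a3 := fun i j => EE_s1 (1, true) (0, false) i j
  have a4 := fun i j => EE_s1 (1, false) (0, true) i j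
  have a5 := fun i j => EE_s1 (1, true) (0, true) i j
  have a6 := fun i j => EE_s1 (1, true) (1, false) i j
  have b1 := fun i j => EE_s2 i (0, true) (0, false) j
  have b2 := fun i j => EE_s2 i (1, false) (0, false) j
  have b3 := fun i j => EE_s2 i (1, true) (0, false) j
  have b4 := fun i j => EE_s2 i (1, false) (0, true) j
  have b5 := fun i j => EE_s2 i (1, true) (0, true) j
  have b6 := fun i j => EE_s2 i (1, true) (1, false) j
  have c1 := fun i j => EE_s3 i j (0, true) (0, false)
  have c2 := fun i j => EE_s3 i j (1, false) (0, false)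
  have c3 := fun i j => EE_s3 i j (1, true) (0, false)
  have c4 := fun i j => EE_s3 i j (1, false) (0, true)
  have c5 := fun i j => EE_s3 i j (1, true) (0, true)
  have c6 := fun i j => EE_s3 i j (1, true) (1, false)
  simp only [D6_lin, sum4]
  refine all4 (all4 ?_ ?_ ?_ ?_) (all4 ?_ ?_ ?_ ?_) (all4 ?_ ?_ ?_ ?_) (all4 ?_ ?_ ?_ ?_)
  all_goals simp only [EE_z1, EE_z2, EE_z3, a1, a2, a3, a4, a5, a6, b1, b2, b3, b4, b5, b6,
    c2, c3, c4, c5, c6, neg_zero]
  all_goals simp only [st, mn, E0]
  all_goals ring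

lemma D6_uv (p : T6) (u v : Bool → ℂ) (F G : Ix 2 → ℂ) :
    D6 (dl p.1) (dl p.2) (pv2 u) F (pv2 v) G = (u false * v true - v false * u true) *
      D6 (dl p.1) (dl p.2) (ev false) F (ev true) G := by
  have h : D6 (dl p.1) (dl p.2) (pv2 u) F (pv2 v) G =
      ∑ c, ∑ d, u c * v d * D6 (dl p.1) (dl p.2) (ev c) F (ev d) G := by
    simp only [D6_eq, pv2]
    have h : ∀ σ : Equiv.Perm (Ix 2), cs σ * (dl p.1 (σ (0, false)) * dl p.2 (σ (0, true)) *
        ((∑ i, u i * ev i (σ (1, false))) * F (σ (1, true)) *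
          ((∑ i, v i * ev i (σ (2, false))) * G (σ (2, true))))) =
        ∑ i, ∑ j, u i * v j * (cs σ * (dl p.1 (σ (0, false)) * dl p.2 (σ (0, true)) *
          (ev i (σ (1, false)) * F (σ (1, true)) *
            (ev j (σ (2, false)) * G (σ (2, true)))))) := by
      intro σ
      simp only [Finset.mul_sum, Finset.sum_mul]
      rw [Finset.sum_comm]
      refine Finset.sum_congr rfl fun i _ => Finset.sum_congr rfl fun j _ => by ring
    rw [Finset.sum_congr rfl fun σ _ => h σ, Finset.sum_comm]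
    refine Finset.sum_congr rfl fun i _ => ?_
    rw [Finset.sum_comm]
    refine Finset.sum_congr rfl fun j _ => ?_
    rw [← Finset.mul_sum]
  rw [h]
  have hz : ∀ c, D6 (dl p.1) (dl p.2) (ev c) F (ev c) G = 0 := fun c =>
    D6_zero (1, false) (2, false) (by decide) rfl
  have hs : D6 (dl p.1) (dl p.2) (ev true) F (ev false) G =
      -D6 (dl p.1) (dl p.2) (ev false) F (ev true) G := D6_swf _ _ _ _ _ _
  simp only [Fintype.sum_bool, hz, hs]
  ring

/-- a mixed form of rank one -/
lemma ew_rank (z : S8 → ℂ) (u : Bool → ℂ) (f : K 2 → ℂ)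
    (h : ∀ s, z s = u (sx s).1 * f (sx s).2) : ew z = ot (pv2 u) (cv f) := by
  funext i j
  unfold ew
  have h1 := sum_sx (fun q => u q.1 * f q.2 * ot (ev q.1) (dl q.2) i j)
  have h2 : ∑ s, z s * BS s i j = ∑ s, u (sx s).1 * f (sx s).2 *
      ot (ev (sx s).1) (dl (sx s).2) i j := by
    refine Finset.sum_congr rfl fun s _ => ?_
    rw [h]
    rfl
  rw [h2]
  refine h1.trans ?_
  unfold ot pv2 cv
  simp only [Finset.sum_mul_sum]
  rw [← Finset.sum_sub_distrib]
  refine Finset.sum_congr rfl fun α _ => ?_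
  rw [← Finset.sum_sub_distrib]
  refine Finset.sum_congr rfl fun b _ => by ring

/-- the value of the polarised Pfaffian on two mixed forms of rank one -/
lemma PB_rank (p : T6) (z w : S8 → ℂ) (u v : Bool → ℂ) (f g : K 2 → ℂ)
    (hz : ∀ s, z s = u (sx s).1 * f (sx s).2) (hw : ∀ s, w s = v (sx s).1 * g (sx s).2) :
    PB (dl p.1) (dl p.2) (ew z) (ew w) =
      4 * E0 * (u false * v true - v false * u true) * st f g p.1 p.2 := by
  rw [ew_rank z u f hz, ew_rank w v g hw, PB_ot, D6_uv, D6_st]
  ring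

lemma PP_wp (p : T6) (β : Fin 2 → Ix 2 → Ix 2 → ℂ) :
    PP (B := Fin (2 + 1)) (Fin.cons (wp p) β) = PB (dl p.1) (dl p.2) (β 0) (β 1) := by
  unfold PP PB
  refine Finset.sum_congr rfl fun σ _ => ?_
  rw [pc3]
  simp only [Fin.cons_zero, Fin.cons_succ, Fin.prod_univ_two]
  rfl

lemma pc_eq (L : Matrix S8 S8 ℂ) (p : T6) (a : Fin 2 → S8) : pc L p a =
    PB (dl p.1) (dl p.2) (ew (fun s => L s (a 0))) (ew (fun s => L s (a 1))) := PP_wp p _

/-- the polarised Pfaffian of three forms without component on the plane -/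
lemma PP_three (z : Fin 3 → S8 → ℂ) (γ : Fin 3 → T6 → ℂ) :
    PP (B := Fin (2 + 1)) (fun b i j => ew (z b) i j + wc (γ b) i j) =
      ∑ b : Fin 3, ∑ p, γ b p * PB (dl p.1) (dl p.2) (ew (z (Equiv.swap 0 b 1)))
        (ew (z (Equiv.swap 0 b 2))) := by
  have h1 : PP (B := Fin (2 + 1)) (fun b i j => ew (z b) i j + wc (γ b) i j) =
      ∑ b : Fin (2 + 1), PP (B := Fin (2 + 1)) (fun b' => if b' = b then wc (γ b') else
        ew (z b')) := by
    unfold PP
    rw [Finset.sum_comm]
    refine Finset.sum_congr rfl fun σ _ => ?_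
    have h2 : ∏ b : Fin (2 + 1), (ew (z b) (σ (b, false)) (σ (b, true)) +
        wc (γ b) (σ (b, false)) (σ (b, true))) =
        ∑ b : Fin (2 + 1), wc (γ b) (σ (b, false)) (σ (b, true)) *
          ∏ b' ∈ univ.erase b, ew (z b') (σ (b', false)) (σ (b', true)) := by
      by_cases hs : sl false σ = sl true σ
      · rw [prod_two _ _ (Or.inl ⟨sl false σ, ew_same (z _) hs, wc_sl (γ _) false σ⟩),
          Finset.prod_eq_zero (Finset.mem_univ (sl false σ)) (ew_same (z _) hs), zero_add]
      · obtain ⟨b, hb0, hb1, hb⟩ := third hs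
        rw [prod_two _ _ (Or.inr ⟨b, fun b' hb' => ?_⟩),
          Finset.prod_eq_zero (Finset.mem_univ b) (ew_sl (z _) hb0 hb1), zero_add]
        rcases hb b' hb' with rfl | rfl
        · exact wc_sl (γ _) false σ
        · exact wc_sl (γ _) true σ
    rw [h2, Finset.mul_sum]
    refine Finset.sum_congr rfl fun b _ => ?_
    congr 1
    rw [← Pool.Agent.TH991.J3417.prod_slot
      (fun b => wc (γ b) (σ (b, false)) (σ (b, true)))
      (fun b => ew (z b) (σ (b, false)) (σ (b, true)))]
    refine Finset.prod_congr rfl fun b' _ => ?_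
    dsimp only
    split_ifs <;> rfl
  rw [h1]
  refine Finset.sum_congr rfl fun b _ => ?_
  rw [← Pool.Agent.TH991.J3417.PP_comp _ (Equiv.swap 0 b)]
  have h3 : (fun b' : Fin (2 + 1) => if b' = b then wc (γ b') else ew (z b')) ∘
      (Equiv.swap 0 b) = Fin.cons (wc (γ b)) (fun i : Fin 2 =>
        ew (z (Equiv.swap 0 b i.succ))) := by
    funext i
    refine Fin.cases ?_ (fun i => ?_) i
    · simp only [Function.comp_apply, Equiv.swap_apply_left, if_true, Fin.cons_zero]
    · simp only [Function.comp_apply, Fin.cons_succ]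
      rw [if_neg]
      intro h
      have := (Equiv.swap (0 : Fin 3) b).injective (h.trans (Equiv.swap_apply_left 0 b).symm)
      exact Fin.succ_ne_zero i this
  have h4 : PP (B := Fin (2 + 1)) ((fun b' : Fin (2 + 1) => if b' = b then wc (γ b') else
      ew (z b')) ∘ (Equiv.swap 0 b)) = PP (B := Fin (2 + 1)) (Fin.cons (wc (γ b))
        (fun i : Fin 2 => ew (z (Equiv.swap 0 b i.succ)))) := by rw [h3]
  have h5 : PP (B := Fin (2 + 1)) (Fin.cons (wc (γ b))
      (fun i : Fin 2 => ew (z (Equiv.swap 0 b i.succ)))) =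
      ∑ p, γ b p * PP (B := Fin (2 + 1)) (Fin.cons (wp p)
        (fun i : Fin 2 => ew (z (Equiv.swap 0 b i.succ)))) := by
    unfold PP
    simp only [Finset.mul_sum]
    rw [Finset.sum_comm]
    refine Finset.sum_congr rfl fun σ _ => ?_
    simp only [pc3, Fin.cons_zero, Fin.cons_succ]
    unfold wc
    rw [Finset.sum_mul, Finset.mul_sum]
    exact Finset.sum_congr rfl fun p _ => by ring
  refine (Eq.trans ?_ h5).trans ?_
  · exact h4
  · refine Finset.sum_congr rfl fun p _ => ?_
    rw [PP_wp]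
    rfl

end Pool.Agent.K1H63.T2
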