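import Pool.Agent.K1H63.T2.DecR

/-!
# The coordinate theorem for a real tensor with a null plane, positive definite mixed block
-/

set_option autoImplicit false

namespace Pool.Agent.K1H63.T2

open Finset Pool.Agent.TH598.GV Pool.Agent.R735.HA
open scoped ComplexConjugate

/-- the coordinate of a pair of indices -/
def si (q : Bool × K 2) : S8 := if q.2.1 = 1 then Sum.inl (q.1, q.2.2) else Sum.inr (q.1, q.2.2)

lemma si_sx (s : S8) : si (sx s) = s := by
  rcases s with ⟨α, c⟩ | ⟨α, c⟩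
  · rfl
  · rfl

lemma sum_sxR (F : Bool × K 2 → ℝ) : ∑ s, F (sx s) = ∑ α, ∑ j, F (α, j) := by
  rw [Fintype.sum_sum_type, Fintype.sum_prod_type, Fintype.sum_prod_type]
  simp only [Fintype.sum_bool, Fintype.sum_prod_type, Fin.sum_univ_two]
  simp only [sx]
  ring

/-- the index type of the atoms -/
def ek : S8 ≃ K 2 ⊕ K 2 :=
  Equiv.sumCongr (Equiv.prodCongr finTwoEquiv.symm (Equiv.refl Bool))
    (Equiv.prodCongr finTwoEquiv.symm (Equiv.refl Bool))

/-- the blocks of the mixed block -/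
def bk (r : Ix 2 → Ix 2 → Ix 2 → Ix 2 → ℝ) (c d : Bool) : Matrix (K 2) (K 2) ℝ := fun i j =>
  r (0, c) (em i) (0, d) (em j)

/-- the factor of the mixed block is invertible -/
lemma det_Lr (a b : S8 → ℝ) (f : S8 → K 2 → ℝ)
    (h : ∀ x y : K 2 → ℝ, (x ≠ 0 ∨ y ≠ 0) →
      0 < ∑ m, (a m * (x ⬝ᵥ f m) + b m * (y ⬝ᵥ f m)) ^ 2) : IsUnit (Lr a b f).det := by
  rw [isUnit_iff_ne_zero]
  intro h0
  obtain ⟨ξ, hξ, hξ0⟩ := Matrix.exists_vecMul_eq_zero_iff.2 h0
  obtain ⟨x, hx⟩ : ∃ x : K 2 → ℝ, ∀ i, x i = ξ (si (false, i)) := ⟨_, fun _ => rfl⟩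
  obtain ⟨y, hy⟩ : ∃ y : K 2 → ℝ, ∀ i, y i = ξ (si (true, i)) := ⟨_, fun _ => rfl⟩
  have hne : x ≠ 0 ∨ y ≠ 0 := by
    by_contra hcon
    push Not at hcon
    apply hξ
    funext s
    rw [← si_sx s]
    obtain ⟨⟨c, i⟩, hs⟩ : ∃ q, q = sx s := ⟨_, rfl⟩
    rw [← hs]
    cases c
    · rw [← hx, hcon.1]
      rfl
    · rw [← hy, hcon.2]
      rfl
  have h1 := h x y hne
  have h2 : ∀ m, a m * (x ⬝ᵥ f m) + b m * (y ⬝ᵥ f m) = 0 := by
    intro m
    have h3 := congrFun hξ0 m
    have h4 : ∑ s, ξ s * Lr a b f s m = 0 := h3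
    have h5 := sum_sxR (fun q => ξ (si q) * (ub a b m q.1 * f m q.2))
    have h6 : ∑ s, ξ (si (sx s)) * (ub a b m (sx s).1 * f m (sx s).2) = 0 := by
      rw [← h4]
      refine Finset.sum_congr rfl fun s _ => ?_
      rw [si_sx]
      rfl
    have h7 := h5.symm.trans h6
    simp only [Fintype.sum_bool, ub, Bool.false_eq_true, if_false, if_true, ← hx, ← hy] at h7
    unfold dotProduct
    rw [← h7, Finset.mul_sum, Finset.mul_sum, add_comm]
    congr 1
    · exact Finset.sum_congr rfl fun i _ => by ring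
    · exact Finset.sum_congr rfl fun i _ => by ring
  simp only [h2] at h1
  simp at h1

/-- nondegeneracy -/
lemma nondeg (a b : S8 → ℝ) (f : S8 → K 2 → ℝ) (hL : IsUnit (Lr a b f).det) (j : S8)
    (y : K 2 → ℝ) (h : ∀ k, sc a b j k * (y ⬝ᵥ f k) = 0) : y = 0 := by
  obtain ⟨ξ, hξ⟩ : ∃ ξ : S8 → ℝ, ∀ s, ξ s = (if (sx s).1 then a j else -b j) * y (sx s).2 :=
    ⟨_, fun _ => rfl⟩
  have h1 : Matrix.vecMul ξ (Lr a b f) = 0 := by
    funext m
    change ∑ s, ξ s * Lr a b f s m = 0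
    have h5 := sum_sxR (fun q => (if q.1 then a j else -b j) * y q.2 * (ub a b m q.1 * f m q.2))
    have h6 : ∑ s, ξ s * Lr a b f s m = ∑ s, (if (sx s).1 then a j else -b j) * y (sx s).2 *
        (ub a b m (sx s).1 * f m (sx s).2) := by
      refine Finset.sum_congr rfl fun s _ => ?_
      rw [hξ]
      rfl
    rw [h6]
    refine h5.trans ?_
    rw [← h m]
    simp only [Fintype.sum_bool, ub, Bool.false_eq_true, if_false, if_true]
    unfold dotProduct sc
    rw [← Finset.sum_add_distrib, Finset.mul_sum]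
    exact Finset.sum_congr rfl fun i _ => by ring
  have h2 : ξ = 0 := by
    have h3 : Matrix.vecMul (Matrix.vecMul ξ (Lr a b f)) (Lr a b f)⁻¹ = ξ := by
      rw [Matrix.vecMul_vecMul, Matrix.mul_nonsing_inv _ hL, Matrix.vecMul_one]
    rw [← h3, h1, Matrix.zero_vecMul]
  have h3 : a j ≠ 0 ∨ b j ≠ 0 := by
    by_contra hcon
    push Not at hcon
    have h4 : (Lr a b f).det = 0 := by
      refine Matrix.det_eq_zero_of_column_eq_zero j fun s => ?_
      unfold Lr ub
      rw [hcon.1, hcon.2]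
      simp
    rw [h4] at hL
    exact not_isUnit_zero hL
  have h4 : ∀ q : Bool × K 2, sx (si q) = q := by
    rintro ⟨c, ⟨i, d⟩⟩
    fin_cases i
    · rfl
    · rfl
  funext i
  rcases h3 with h3 | h3
  · have h5 := congrFun h2 (si (true, i))
    rw [hξ, h4] at h5
    simp only [if_true, Pi.zero_apply] at h5
    exact (mul_eq_zero.1 h5).resolve_left h3
  · have h5 := congrFun h2 (si (false, i))
    rw [hξ, h4] at h5
    simp only [Bool.false_eq_true, if_false, Pi.zero_apply] at h5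
    exact (mul_eq_zero.1 h5).resolve_left (neg_ne_zero.2 h3)

/-- positive definite mixed block -/
theorem posR (r : Ix 2 → Ix 2 → Ix 2 → Ix 2 → ℝ) (hr : RS r)
    (h0 : ∀ k l, r (0, false) (0, true) k l = 0)
    (hb : (bk r false true).transpose = bk r false true)
    (hpos : ∀ x y : K 2 → ℝ, (x ≠ 0 ∨ y ≠ 0) → 0 < x ⬝ᵥ ((bk r false false).mulVec x) +
      2 * (x ⬝ᵥ ((bk r false true).mulVec y)) + y ⬝ᵥ ((bk r true true).mulVec y))
    (hK : RePos (cT r)) : 0 ≤ (GG (cT r)).re := by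
  obtain ⟨f', a', b', hP, hc, hR⟩ := sep (bk r false false) (bk r false true) (bk r true true)
    (by ext i j; exact hr.pair _ _ _ _) hb (by ext i j; exact hr.pair _ _ _ _) hpos
  obtain ⟨f, hf⟩ : ∃ f : S8 → K 2 → ℝ, ∀ m, f m = f' (ek m) := ⟨_, fun _ => rfl⟩
  obtain ⟨a, ha⟩ : ∃ a : S8 → ℝ, ∀ m, a m = a' (ek m) := ⟨_, fun _ => rfl⟩
  obtain ⟨b, hb'⟩ : ∃ b : S8 → ℝ, ∀ m, b m = b' (ek m) := ⟨_, fun _ => rfl⟩
  have hP' : ∀ x y, r (0, false) (em x) (0, false) (em y) =
      ∑ m, a m * a m * (f m x * f m y) := by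
    intro x y
    have h := hP x y
    rw [← Equiv.sum_comp ek] at h
    simp only [← ha, ← hf] at h
    exact h
  have hc' : ∀ x y, r (0, false) (em x) (0, true) (em y) =
      ∑ m, a m * b m * (f m x * f m y) := by
    intro x y
    have h := hc x y
    rw [← Equiv.sum_comp ek] at h
    simp only [← ha, ← hb', ← hf] at h
    exact h
  have hR' : ∀ x y, r (0, true) (em x) (0, true) (em y) =
      ∑ m, b m * b m * (f m x * f m y) := by
    intro x y
    have h := hR x y
    rw [← Equiv.sum_comp ek] at h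
    simp only [← hb', ← hf] at h
    exact h
  have hall : ∀ (c d : Bool) (x y : K 2), r (0, c) (em x) (0, d) (em y) =
      ∑ m, ub a b m c * ub a b m d * (f m x * f m y) := by
    intro c d x y
    cases c <;> cases d
    · exact hP' x y
    · exact hc' x y
    · rw [← hr.pair, hc']
      exact Finset.sum_congr rfl fun m _ => by simp only [ub]; simp; ring
    · exact hR' x y
  have hLs : ∀ s t, ∑ m, Lr a b f s m * Lr a b f t m =
      r (pz s).1 (pz s).2 (pz t).1 (pz t).2 := by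
    intro s t
    change _ = r (0, (sx s).1) (em (sx s).2) (0, (sx t).1) (em (sx t).2)
    rw [hall]
    refine Finset.sum_congr rfl fun m _ => ?_
    unfold Lr
    ring
  have hq : ∀ x y : K 2 → ℝ, x ⬝ᵥ ((bk r false false).mulVec x) +
      2 * (x ⬝ᵥ ((bk r false true).mulVec y)) + y ⬝ᵥ ((bk r true true).mulVec y) =
      ∑ m, (a m * (x ⬝ᵥ f m) + b m * (y ⬝ᵥ f m)) ^ 2 := by
    intro x y
    have e1 : ∀ (c d : Bool) (u v : K 2 → ℝ), u ⬝ᵥ ((bk r c d).mulVec v) =
        ∑ m, ub a b m c * ub a b m d * ((u ⬝ᵥ f m) * (v ⬝ᵥ f m)) := by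
      intro c d u v
      unfold dotProduct Matrix.mulVec dotProduct bk
      simp only [hall, Finset.mul_sum, Finset.sum_mul]
      have h2 : ∀ F : K 2 → K 2 → S8 → ℝ, ∑ x, ∑ y, ∑ r, F x y r = ∑ r, ∑ x, ∑ y, F x y r := by
        intro F
        calc ∑ x, ∑ y, ∑ r, F x y r = ∑ x, ∑ r, ∑ y, F x y r :=
              Finset.sum_congr rfl fun x _ => Finset.sum_comm
          _ = _ := Finset.sum_comm
      rw [h2]
      refine Finset.sum_congr rfl fun m _ => ?_
      rw [Finset.sum_comm]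
      exact Finset.sum_congr rfl fun i _ => Finset.sum_congr rfl fun j _ => by ring
    rw [e1, e1, e1, Finset.mul_sum, ← Finset.sum_add_distrib, ← Finset.sum_add_distrib]
    refine Finset.sum_congr rfl fun m _ => ?_
    simp only [ub, Bool.false_eq_true, if_false, if_true]
    ring
  have hL : IsUnit (Lr a b f).det := det_Lr a b f fun x y h => by
    rw [← hq]
    exact hpos x y h
  obtain ⟨g, Γ, hg, hΓ1, hΓ2, hH⟩ := dec_real r hr h0 a b f hL hLs
  rw [hH] at hK ⊢
  exact coordR a b f g Γ (nondeg a b f hL) hg hΓ1 hΓ2 hK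

end Pool.Agent.K1H63.T2
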