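import Pool.Agent.K1H63.T2.Four

/-!
# The quantitative coordinate theorem for real tensors
-/

set_option autoImplicit false

namespace Pool.Agent.K1H63.T2

open Finset Pool.Agent.TH598.GV Pool.Agent.R735.HA
open scoped ComplexConjugate

/-- the real form of the tensor `U0` -/
noncomputable def Ur : Ix 2 → Ix 2 → Ix 2 → Ix 2 → ℝ := fun i j k l => (U0 i j k l).re

lemma U0_real (i j k l : Ix 2) : conj (U0 i j k l) = U0 i j k l := by
  unfold U0
  rw [map_sum]
  refine Finset.sum_congr rfl fun p _ => ?_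
  split_ifs
  · exact map_zero _
  · rw [map_mul, Pool.Agent.TH367.J4006.W_conj, Pool.Agent.TH367.J4006.W_conj]

lemma Ur_cast (i j k l : Ix 2) : ((Ur i j k l : ℝ) : ℂ) = U0 i j k l :=
  Complex.conj_eq_iff_re.1 (U0_real i j k l)

lemma Ur_RS : RS Ur := by
  constructor
  · intro i j k l
    unfold Ur
    rw [Pool.Agent.TH367.J4006.U0_HS.herm, Complex.conj_re]
  · intro i j k l
    unfold Ur
    rw [Pool.Agent.TH367.J4006.U0_HS.alt, Complex.neg_re]

/-- **Quantitative coordinate theorem.** -/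
theorem quantR6 (r : Ix 2 → Ix 2 → Ix 2 → Ix 2 → ℝ) (hr : RC r) (δ : ℝ) (hδ : 0 ≤ δ)
    (hK : RePosD δ (cT r))
    (h0 : ∀ k l, cT r (0, false) (0, true) k l = δ * UU (0, false) (0, true) k l) :
    2 ^ (2 + 1) * ((2 * (2 + 1)).factorial : ℝ) * δ ^ (2 + 1) ≤ (GG (cT r)).re := by
  obtain ⟨r1, hr1⟩ : ∃ r1 : Ix 2 → Ix 2 → Ix 2 → Ix 2 → ℝ, ∀ i j i' j', r1 i j i' j' =
    r i j i' j' - δ * Ur i j i' j' := ⟨_, fun _ _ _ _ => rfl⟩
  have hcast : ∀ i j i' j', cT r1 i j i' j' = cT r i j i' j' - (δ : ℂ) * U0 i j i' j' := by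
    intro i j i' j'
    unfold cT
    rw [hr1, ← Ur_cast]
    push_cast
    rfl
  have hRS1 : RS r1 := by
    constructor
    · intro i j i' j'
      rw [hr1, hr1, hr.pair, Ur_RS.pair]
    · intro i j i' j'
      rw [hr1, hr1, hr.alt, Ur_RS.alt]
      ring
  have h01' : ∀ k l, cT r1 (0, false) (0, true) k l = 0 := by
    intro k l
    rw [hcast, h0, U0_e1, sub_self]
  have h01 : ∀ k l, r1 (0, false) (0, true) k l = 0 := by
    intro k l
    have := h01' k l
    unfold cT at this
    exact_mod_cast this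
  have hUb : ∀ i j : K 2, Ur (0, false) (em i) (0, true) (em j) = 0 := by
    intro i j
    have h1 : U0 (0, true) (em j) (0, false) (em i) = 0 :=
      Pool.Agent.TH367.J4006.U0_ne _ _ _ _ (by simp [e0]) (em_ne j false)
    rw [← Ur_RS.pair]
    unfold Ur
    rw [h1, Complex.zero_re]
  have hsym : ∀ i j : K 2, r1 (0, false) (em i) (0, true) (em j) =
      r1 (0, false) (em j) (0, true) (em i) := by
    intro i j
    have hz : r (0, true) (0, false) (em i) (em j) = 0 := by
      have h2 : UU (0, false) (0, true) (em i) (em j) = 0 := by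
        unfold UU
        rw [if_neg (em_ne i false).symm, if_neg (em_ne j false).symm]
        ring
      have h3 := h0 (em i) (em j)
      rw [h2, mul_zero] at h3
      unfold cT at h3
      rw [hr.alt]
      have : r (0, false) (0, true) (em i) (em j) = 0 := by exact_mod_cast h3
      rw [this, neg_zero]
    have hbi := hr.bianchi (0, false) (em i) (0, true) (em j)
    rw [hz] at hbi
    have h4 : r (em i) (0, true) (0, false) (em j) = -r (0, false) (em j) (0, true) (em i) := by
      rw [hr.alt, ← hr.pair]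
    rw [h4] at hbi
    rw [hr1, hr1, hUb, hUb]
    linarith
  have hK1 : RePos (cT r1) := by
    intro z w hz hw
    have h1 : qf (cT r1) z w = qf (cT r) z w - (δ : ℂ) * qf U0 z w := by
      unfold qf
      simp only [Finset.mul_sum, ← Finset.sum_sub_distrib]
      refine Finset.sum_congr rfl fun i _ => Finset.sum_congr rfl fun j _ =>
        Finset.sum_congr rfl fun i' _ => Finset.sum_congr rfl fun j' _ => ?_
      rw [hcast]
      ring
    rw [h1, Complex.sub_re, Complex.re_ofReal_mul]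
    have h2 := hK z w hz hw
    have h3 := mul_le_mul_of_nonneg_left (Pool.Agent.TH367.J4006.U0_le_UU z w) hδ
    linarith
  have hG1 : 0 ≤ (GG (cT r1)).re := semiR r1 hRS1 h01 (by
    ext i j
    exact (hsym i j).symm) hK1
  have hlap := Pool.Agent.TH263.J4005.laplace (cT r1) (cT_HS hRS1) (δ : ℂ)
  have hback : (fun i j i' j' => cT r1 i j i' j' + (δ : ℂ) * U0 i j i' j') = cT r := by
    funext i j i' j'
    rw [hcast]
    ring
  rw [hback] at hlap
  have hterm : ∀ p : Ix 2, p ≠ e0 → 2 ^ 2 * ((2 * 2).factorial : ℝ) * δ ^ 2 ≤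
      (GG (fun a b a' b' : K 2 => cT r1 (cp p a) (cp p b) (cp p a') (cp p b'))).re := by
    intro p hp
    have h0 : (fun a b a' b' : K 2 => cT r1 (cp p a) (cp p b) (cp p a') (cp p b')) =
        fun a b a' b' : K 2 => ((r (cp p a) (cp p b) (cp p a') (cp p b') : ℝ) : ℂ) := by
      funext a b a' b'
      rw [hcast, Pool.Agent.TH367.J4006.U0_ne _ _ _ _ (Pool.Agent.TH367.J4006.cp_ne p hp a)
        (Pool.Agent.TH367.J4006.cp_ne p hp b)]
      unfold cT
      ring
    rw [h0]
    refine fourR (fun a b a' b' : K 2 => r (cp p a) (cp p b) (cp p a') (cp p b'))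
      ⟨⟨fun _ _ _ _ => hr.pair _ _ _ _, fun _ _ _ _ => hr.alt _ _ _ _⟩,
        fun _ _ _ _ => hr.bianchi _ _ _ _⟩ δ hδ ?_
    intro z w hz hw
    have hx : ∀ z : K 2 → ℂ, (∀ i, conj (z i) = z i) → ∀ i,
        conj (Pool.Agent.TH367.J4006.xt (cp p) z i) = Pool.Agent.TH367.J4006.xt (cp p) z i := by
      intro z hz i
      unfold Pool.Agent.TH367.J4006.xt
      rw [map_sum]
      refine Finset.sum_congr rfl fun a _ => ?_
      split_ifs
      · exact hz a
      · exact map_zero _
    have h1 := hK (Pool.Agent.TH367.J4006.xt (cp p) z) (Pool.Agent.TH367.J4006.xt (cp p) w)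
      (hx z hz) (hx w hw)
    rw [Pool.Agent.TH367.J4006.qf_xt, Pool.Agent.TH367.J4006.qf_xt,
      Pool.Agent.TH367.J4006.UU_inj (cp p) (fun a b h => Pool.Agent.TH367.J4006.cp_inj p h)] at h1
    exact h1
  have hcard : (univ.erase (e0 : Ix 2)).card = 5 := by
    rw [Finset.card_erase_of_mem (Finset.mem_univ _), Finset.card_univ, Fintype.card_prod,
      Fintype.card_fin, Fintype.card_bool]
  have hsum : (5 : ℝ) * (2 ^ 2 * ((2 * 2).factorial : ℝ) * δ ^ 2) ≤
      (∑ p : Ix 2, (if p = e0 then 0 else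
        GG (fun a b a' b' : K 2 => cT r1 (cp p a) (cp p b) (cp p a') (cp p b')))).re := by
    rw [Complex.re_sum, ← Finset.add_sum_erase _ _ (Finset.mem_univ (e0 : Ix 2)), if_pos rfl,
      Complex.zero_re, zero_add]
    have h5 : (5 : ℝ) = ((univ.erase (e0 : Ix 2)).card : ℝ) := by rw [hcard]; norm_num
    rw [h5, ← nsmul_eq_mul]
    refine Finset.card_nsmul_le_sum _ _ _ fun p hp => ?_
    have hp0 : p ≠ e0 := Finset.ne_of_mem_erase hp
    rw [if_neg hp0]
    exact hterm p hp0
  have hre : (GG (cT r)).re = (GG (cT r1)).re + δ * 12 *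
      (∑ p : Ix 2, (if p = e0 then 0 else
        GG (fun a b a' b' : K 2 => cT r1 (cp p a) (cp p b) (cp p a') (cp p b')))).re := by
    rw [hlap, Complex.add_re]
    congr 1
    have h1 : (δ : ℂ) * (4 * (((2 : ℕ) : ℂ) + 1)) = ((δ * 12 : ℝ) : ℂ) := by
      push_cast
      ring
    rw [h1, Complex.re_ofReal_mul]
  rw [hre]
  have hpos : 0 ≤ δ * 12 := by positivity
  have h5 := mul_le_mul_of_nonneg_left hsum hpos
  have h6 : 2 ^ (2 + 1) * ((2 * (2 + 1)).factorial : ℝ) * δ ^ (2 + 1) =
      δ * 12 * (5 * (2 ^ 2 * ((2 * 2).factorial : ℝ) * δ ^ 2)) := by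
    have e1 : ((2 * (2 + 1)).factorial : ℝ) = 720 := by norm_num [Nat.factorial]
    have e2 : ((2 * 2).factorial : ℝ) = 24 := by norm_num [Nat.factorial]
    rw [e1, e2]
    ring
  rw [h6]
  linarith

end Pool.Agent.K1H63.T2
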