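import Pool.Agent.K1H63.T2.PosR

/-!
# The coordinate theorem for a real tensor with a null plane
-/

set_option autoImplicit false

namespace Pool.Agent.K1H63.T2

open Finset Pool.Agent.TH598.GV Pool.Agent.R735.HA
open scoped ComplexConjugate

lemma zv_real (A : Bool → ℂ) (y : K 2 → ℂ) (hA : ∀ c, conj (A c) = A c)
    (hy : ∀ j, conj (y j) = y j) (i : Ix 2) : conj (zv A y i) = zv A y i := by
  rcases em_or i with ⟨c, rfl⟩ | ⟨x, rfl⟩
  · rw [zv_0, hA]
  · rw [zv_em, hy]

/-- the mixed block is nonnegative on real vectors -/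
lemma mixed_real (H : Ix 2 → Ix 2 → Ix 2 → Ix 2 → ℂ) (hH : HS H)
    (h0 : ∀ k l, H (0, false) (0, true) k l = 0)
    (hK : RePos H) (ξ : S8 → ℂ) (hξ : ∀ s, conj (ξ s) = ξ s) :
    0 ≤ (∑ s, ∑ t, BZ H s t * ξ s * conj (ξ t)).re := by
  obtain ⟨η, hη⟩ : ∃ η : T6 → ℂ, ∀ p, η p = -(xs ξ true p.1 * xs ξ false p.2) :=
    ⟨_, fun _ => rfl⟩
  obtain ⟨a, ha⟩ : ∃ a, a = ∑ s, ∑ t, BZ H s t * ξ s * conj (ξ t) := ⟨_, rfl⟩
  obtain ⟨b, hb⟩ : ∃ b, b = (∑ s : S8, ∑ q : T6, H (pz s).1 (pz s).2 (em q.1) (em q.2) *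
      ξ s * conj (η q)) + ∑ p : T6, ∑ t : S8, H (em p.1) (em p.2) (pz t).1 (pz t).2 *
      η p * conj (ξ t) := ⟨_, rfl⟩
  obtain ⟨c, hc⟩ : ∃ c, c = ∑ p : T6, ∑ q : T6, H (em p.1) (em p.2) (em q.1) (em q.2) *
      η p * conj (η q) := ⟨_, rfl⟩
  have hxs : ∀ (α : Bool) (j : K 2), conj (xs ξ α j) = xs ξ α j := by
    rintro α ⟨i, c⟩
    fin_cases i
    · exact hξ _
    · exact hξ _
  have key : ∀ δ : ℝ, 0 < δ → 0 ≤ a.re + δ * b.re + δ ^ 2 * c.re := by
    intro δ hδ
    have h1 := hK (zv (fun c => if c then 0 else 1) (fun j => -((δ : ℂ) * xs ξ true j)))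
      (zv (fun c => if c then 1 else 0) (fun j => (δ : ℂ) * xs ξ false j))
      (zv_real _ _ (fun c => by cases c <;> simp)
        (fun j => by rw [map_neg, map_mul, Complex.conj_ofReal, hxs]))
      (zv_real _ _ (fun c => by cases c <;> simp)
        (fun j => by rw [map_mul, Complex.conj_ofReal, hxs]))
    have h2 : qf H (zv (fun c => if c then 0 else 1) (fun j => -((δ : ℂ) * xs ξ true j)))
      (zv (fun c => if c then 1 else 0) (fun j => (δ : ℂ) * xs ξ false j)) =
        ((δ ^ 2 : ℝ) : ℂ) * (a + δ * b + ((δ ^ 2 : ℝ) : ℂ) * c) := by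
      rw [qf_hat H hH h0, Fintype.sum_sum_type]
      have e1 : ∀ p : T6, bl (wp p) (zv (fun c => if c then 0 else 1)
          (fun j => -((δ : ℂ) * xs ξ true j)))
          (zv (fun c => if c then 1 else 0) (fun j => (δ : ℂ) * xs ξ false j)) =
          (δ : ℂ) ^ 2 * η p := by
        intro p
        rw [bl_wp, zv_em, zv_em, hη]
        ring
      simp only [Fintype.sum_sum_type (α₁ := S8) (α₂ := T6)]
      simp only [bb, pb, Sum.elim_inl, Sum.elim_inr, bl_scaled, e1, map_mul, map_pow,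
        Complex.conj_ofReal]
      rw [ha, hb, hc]
      unfold BZ
      simp only [Finset.mul_sum, mul_add, Finset.sum_add_distrib]
      push_cast
      rw [add_assoc, add_assoc, add_assoc]
      congr 1
      · exact Finset.sum_congr rfl fun s _ => Finset.sum_congr rfl fun t _ => by ring
      congr 1
      · exact Finset.sum_congr rfl fun s _ => Finset.sum_congr rfl fun t _ => by ring
      congr 1
      · exact Finset.sum_congr rfl fun s _ => Finset.sum_congr rfl fun t _ => by ring
      · exact Finset.sum_congr rfl fun s _ => Finset.sum_congr rfl fun t _ => by ring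
    rw [h2, Complex.re_ofReal_mul, Complex.add_re, Complex.add_re, Complex.re_ofReal_mul,
      Complex.re_ofReal_mul] at h1
    exact nonneg_of_mul_nonneg_right h1 (by positivity)
  rw [← ha]
  have ht : Filter.Tendsto (fun δ : ℝ => a.re + δ * b.re + δ ^ 2 * c.re)
      (nhdsWithin 0 (Set.Ioi 0)) (nhds a.re) := by
    have hcont : Continuous fun δ : ℝ => a.re + δ * b.re + δ ^ 2 * c.re := by fun_prop
    have h3 := (hcont.tendsto 0).mono_left (nhdsWithin_le_nhds (s := Set.Ioi 0))
    simpa using h3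
  exact ge_of_tendsto ht (Filter.eventually_of_mem self_mem_nhdsWithin fun ε hε => key ε hε)

/-- the mixed block is nonnegative -/
lemma mixed_q (r : Ix 2 → Ix 2 → Ix 2 → Ix 2 → ℝ) (hr : RS r)
    (h0 : ∀ k l, r (0, false) (0, true) k l = 0) (hK : RePos (cT r)) (x y : K 2 → ℝ) :
    0 ≤ x ⬝ᵥ ((bk r false false).mulVec x) +
      2 * (x ⬝ᵥ ((bk r false true).mulVec y)) + y ⬝ᵥ ((bk r true true).mulVec y) := by
  obtain ⟨X, hX⟩ : ∃ X : Bool × K 2 → ℝ, ∀ q, X q = if q.1 then y q.2 else x q.2 :=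
    ⟨_, fun _ => rfl⟩
  have h1 := mixed_real (cT r) (cT_HS hr) (fun k l => by
    unfold cT; rw [h0]; exact Complex.ofReal_zero) hK (fun s => ((X (sx s) : ℝ) : ℂ))
    (fun s => Complex.conj_ofReal _)
  have h2 : (∑ s, ∑ t, BZ (cT r) s t * ((X (sx s) : ℝ) : ℂ) * conj ((X (sx t) : ℝ) : ℂ)) =
      ((∑ s, ∑ t, r (0, (sx s).1) (em (sx s).2) (0, (sx t).1) (em (sx t).2) * X (sx s) *
        X (sx t) : ℝ) : ℂ) := by
    simp only [Complex.conj_ofReal]
    push_cast
    rfl
  rw [h2, Complex.ofReal_re] at h1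
  have h3 : ∑ s, ∑ t, r (0, (sx s).1) (em (sx s).2) (0, (sx t).1) (em (sx t).2) * X (sx s) *
        X (sx t) = ∑ α, ∑ i, ∑ β, ∑ j, r (0, α) (em i) (0, β) (em j) * X (α, i) * X (β, j) := by
    have h4 : ∀ s, ∑ t, r (0, (sx s).1) (em (sx s).2) (0, (sx t).1) (em (sx t).2) * X (sx s) *
        X (sx t) = ∑ β, ∑ j, r (0, (sx s).1) (em (sx s).2) (0, β) (em j) * X (sx s) * X (β, j) :=
      fun s => sum_sxR (fun q => r (0, (sx s).1) (em (sx s).2) (0, q.1) (em q.2) * X (sx s) * X q)
    rw [Finset.sum_congr rfl fun s _ => h4 s]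
    exact sum_sxR (fun q => ∑ β, ∑ j, r (0, q.1) (em q.2) (0, β) (em j) * X q * X (β, j))
  rw [h3] at h1
  refine h1.trans (le_of_eq ?_)
  simp only [Fintype.sum_bool, hX, if_true, Bool.false_eq_true, if_false]
  unfold dotProduct Matrix.mulVec dotProduct bk
  have h5 : ∑ i, ∑ j, r (0, true) (em i) (0, false) (em j) * y i * x j =
      ∑ i, ∑ j, r (0, false) (em i) (0, true) (em j) * x i * y j := by
    rw [Finset.sum_comm]
    exact Finset.sum_congr rfl fun i _ => Finset.sum_congr rfl fun j _ => by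
      rw [← hr.pair]; ring
  simp only [Finset.sum_add_distrib]
  rw [h5]
  have e : ∀ u v w u' v' w' : ℝ, u = w' → v = v' → w = u' →
      u + v + (v + w) = u' + 2 * v' + w' := by
    intros
    linarith
  refine e _ _ _ _ _ _ ?_ ?_ ?_
  · exact Finset.sum_congr rfl fun i _ => by
      rw [Finset.mul_sum]
      exact Finset.sum_congr rfl fun j _ => by ring
  · exact Finset.sum_congr rfl fun i _ => by
      rw [Finset.mul_sum]
      exact Finset.sum_congr rfl fun j _ => by ring
  · exact Finset.sum_congr rfl fun i _ => by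
      rw [Finset.mul_sum]
      exact Finset.sum_congr rfl fun j _ => by ring

/-- the real identity tensor of the mixed block -/
noncomputable def Nr : Ix 2 → Ix 2 → Ix 2 → Ix 2 → ℝ := fun i j k l => (NN i j k l).re

lemma NN_real (i j k l : Ix 2) : conj (NN i j k l) = NN i j k l := by
  unfold NN
  rw [map_sum]
  exact Finset.sum_congr rfl fun s _ => by rw [map_mul, BS_real, BS_real]

lemma cT_Nr : cT Nr = NN := by
  funext i j k l
  exact Complex.conj_eq_iff_re.1 (NN_real i j k l)

lemma Nr_RS : RS Nr := by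
  constructor
  · intro i j k l
    unfold Nr
    rw [NN_HS.herm, Complex.conj_re]
  · intro i j k l
    unfold Nr
    rw [NN_HS.alt, Complex.neg_re]

lemma Nr_zero (k l : Ix 2) : Nr (0, false) (0, true) k l = 0 := by
  unfold Nr NN
  rw [Finset.sum_eq_zero fun s _ => by rw [BS_zero, zero_mul], Complex.zero_re]

lemma Nr_bk (c d : Bool) (i j : K 2) : bk Nr c d i j = if (c, i) = (d, j) then 1 else 0 := by
  unfold bk Nr NN
  simp only [BS_em]
  have h := sum_sx (fun q => (if q = (c, i) then (1 : ℂ) else 0) * (if q = (d, j) then 1 else 0))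
  have h1 : ∑ s, (if sx s = (c, i) then (1 : ℂ) else 0) * (if sx s = (d, j) then 1 else 0) =
      if (c, i) = (d, j) then 1 else 0 := by
    refine h.trans ?_
    rw [← Fintype.sum_prod_type (fun q : Bool × K 2 => (if q = (c, i) then (1 : ℂ) else 0) *
      (if q = (d, j) then 1 else 0)), Finset.sum_eq_single (c, i)]
    · rw [if_pos rfl, one_mul]
    · intro q _ hq
      rw [if_neg hq, zero_mul]
    · intro h
      exact absurd (Finset.mem_univ _) h
  rw [h1]
  split_ifs <;> simp

lemma bk_ft : bk Nr false true = 0 := by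
  ext i j
  rw [Nr_bk, if_neg (by simp)]
  rfl

lemma bk_ff : bk Nr false false = 1 := by
  ext i j
  rw [Nr_bk, Matrix.one_apply]
  by_cases h : i = j
  · simp [h]
  · simp [h]

lemma bk_tt : bk Nr true true = 1 := by
  ext i j
  rw [Nr_bk, Matrix.one_apply]
  by_cases h : i = j
  · simp [h]
  · simp [h]

/-- **The coordinate theorem for real tensors with a null plane.** -/
theorem semiR (r : Ix 2 → Ix 2 → Ix 2 → Ix 2 → ℝ) (hr : RS r)
    (h0 : ∀ k l, r (0, false) (0, true) k l = 0)
    (hb : (bk r false true).transpose = bk r false true)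
    (hK : RePos (cT r)) : 0 ≤ (GG (cT r)).re := by
  obtain ⟨re, hre⟩ : ∃ re : ℝ → Ix 2 → Ix 2 → Ix 2 → Ix 2 → ℝ, re = fun (ε : ℝ) i j i' j' =>
    r i j i' j' + ε * Nr i j i' j' := ⟨_, rfl⟩
  have hpos : ∀ ε : ℝ, 0 < ε → 0 ≤ (GG (cT (re ε))).re := by
    intro ε hε
    have hbk : ∀ c d, bk (re ε) c d = bk r c d + ε • bk Nr c d := by
      intro c d
      ext i j
      simp only [bk, hre, Matrix.add_apply, Matrix.smul_apply, smul_eq_mul]
    refine posR (re ε) ⟨?_, ?_⟩ ?_ ?_ ?_ ?_
    · intro i j i' j'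
      simp only [hre]
      rw [hr.pair, Nr_RS.pair]
    · intro i j i' j'
      simp only [hre]
      rw [hr.alt, Nr_RS.alt]
      ring
    · intro k l
      simp only [hre]
      rw [h0, Nr_zero]
      ring
    · rw [hbk, bk_ft, smul_zero, add_zero, hb]
    · intro x y hxy
      rw [hbk, hbk, hbk, bk_ft, bk_ff, bk_tt, smul_zero, add_zero]
      simp only [Matrix.add_mulVec, Matrix.smul_mulVec, Matrix.one_mulVec, dotProduct_add,
        dotProduct_smul, smul_eq_mul]
      have h1 := mixed_q r hr h0 hK x y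
      have h2 : 0 < x ⬝ᵥ x + y ⬝ᵥ y := by
        have hn : ∀ v : K 2 → ℝ, 0 ≤ v ⬝ᵥ v := fun v =>
          Finset.sum_nonneg fun i _ => mul_self_nonneg _
        have hp : ∀ v : K 2 → ℝ, v ≠ 0 → 0 < v ⬝ᵥ v := fun v hv =>
          lt_of_le_of_ne (hn v) (fun h => hv (dotProduct_self_eq_zero.1 h.symm))
        rcases hxy with h | h
        · have := hp x h
          have := hn y
          linarith
        · have := hp y h
          have := hn x
          linarith
      have h3 := mul_pos hε h2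
      rw [mul_add] at h3
      linarith
    · intro z w hz hw
      have hq : qf (cT (re ε)) z w = qf (cT r) z w + (ε : ℂ) * qf NN z w := by
        rw [← cT_Nr]
        unfold qf
        simp only [hre, cT, Complex.ofReal_add, Complex.ofReal_mul, add_mul,
          Finset.sum_add_distrib, Finset.mul_sum]
        congr 1
        refine Finset.sum_congr rfl fun i _ => Finset.sum_congr rfl fun j _ =>
          Finset.sum_congr rfl fun i' _ => Finset.sum_congr rfl fun j' _ => by ring
      rw [hq, Complex.add_re, Complex.re_ofReal_mul]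
      exact add_nonneg (hK z w hz hw) (mul_nonneg hε.le (qf_NN z w))
  have hc : Continuous fun ε : ℝ => (GG (cT (re ε))).re := by
    unfold GG
    simp only [hre, cT]
    fun_prop
  have h0 : (GG (cT (re 0))).re = (GG (cT r)).re := by
    congr 2
    funext i j i' j'
    simp [hre, cT]
  have ht : Filter.Tendsto (fun ε : ℝ => (GG (cT (re ε))).re) (nhdsWithin 0 (Set.Ioi 0))
      (nhds (GG (cT r)).re) := by
    rw [← h0]
    exact (hc.tendsto 0).mono_left nhdsWithin_le_nhds
  exact ge_of_tendsto ht (Filter.eventually_of_mem self_mem_nhdsWithin fun ε hε => hpos ε hε)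

end Pool.Agent.K1H63.T2
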