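import Mathlib

/-!
# The trace of the square of a matrix which is symmetric modulo a kernel vector
-/

set_option autoImplicit false

namespace Pool.Agent.K1H63.T2

open Finset Matrix

variable {ι : Type} [Fintype ι] [DecidableEq ι]

/-- If `S f = 0` and `S` is orthogonal to the alternating matrices which kill `f`, the trace of
`S * S` is nonnegative. -/
theorem trace_sq_nonneg (S : Matrix ι ι ℝ) (f : ι → ℝ) (hS : S *ᵥ f = 0)
    (h : ∀ x : Matrix ι ι ℝ, xᵀ = -x → x *ᵥ f = 0 → (xᵀ * S).trace = 0) :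
    0 ≤ (S * S).trace := by
  obtain ⟨P, hP⟩ : ∃ P : Matrix ι ι ℝ, P = 1 - (f ⬝ᵥ f)⁻¹ • vecMulVec f f := ⟨_, rfl⟩
  have hPt : Pᵀ = P := by
    rw [hP, transpose_sub, transpose_one, transpose_smul, transpose_vecMulVec]
  have hPf : P *ᵥ f = 0 := by
    rw [hP, sub_mulVec, one_mulVec, smul_mulVec, vecMulVec_mulVec]
    by_cases hf : f ⬝ᵥ f = 0
    · have : f = 0 := dotProduct_self_eq_zero.1 hf
      simp [this]
    · ext i
      simp only [Pi.sub_apply, Pi.smul_apply, MulOpposite.smul_eq_mul_unop, MulOpposite.unop_op,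
        smul_eq_mul, Pi.zero_apply]
      field_simp
      ring
  have hPP : P * P = P := by
    have h0 : f ᵥ* P = 0 := by
      rw [← mulVec_transpose, hPt, hPf]
    have h1 : (1 - (f ⬝ᵥ f)⁻¹ • vecMulVec f f) * P = P := by
      rw [sub_mul, one_mul, Matrix.smul_mul, vecMulVec_mul, h0]
      simp
    rw [← hP] at h1
    exact h1
  have hSP : S * P = S := by
    rw [hP, mul_sub, mul_one, Matrix.mul_smul, mul_vecMulVec, hS]
    simp
  obtain ⟨R, hR⟩ : ∃ R : Matrix ι ι ℝ, R = P * S * P := ⟨_, rfl⟩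
  have hRP : R * P = R := by rw [hR, Matrix.mul_assoc, hPP]
  have hPR : P * R = R := by rw [hR, ← Matrix.mul_assoc, ← Matrix.mul_assoc, hPP]
  have hRf : R *ᵥ f = 0 := by
    rw [hR, ← mulVec_mulVec, hPf, mulVec_zero]
  have hRtf : Rᵀ *ᵥ f = 0 := by
    rw [hR, transpose_mul, transpose_mul, hPt, ← Matrix.mul_assoc, ← mulVec_mulVec, hPf,
      mulVec_zero]
  have h1 := h (R - Rᵀ) (by rw [transpose_sub, transpose_transpose, neg_sub])
    (by rw [sub_mulVec, hRf, hRtf, sub_zero])
  rw [transpose_sub, transpose_transpose] at h1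
  -- replace `S` by `R`
  have h2 : ∀ Y : Matrix ι ι ℝ, Y * P = Y → P * Y = Y → (Y * S).trace = (Y * R).trace := by
    intro Y hY1 hY2
    have e : (Y * R).trace = (P * Y * P * S).trace := by
      rw [hR]
      calc (Y * (P * S * P)).trace = (Y * P * S * P).trace := by simp only [Matrix.mul_assoc]
        _ = (P * (Y * P * S)).trace := trace_mul_comm _ _
        _ = _ := by simp only [Matrix.mul_assoc]
    rw [e, hY2, hY1]
  have hRtP : Rᵀ * P = Rᵀ := by
    rw [← hPt, ← transpose_mul, hPR]
  have hPRt : P * Rᵀ = Rᵀ := by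
    rw [← hPt, ← transpose_mul, hRP]
  have h3 : ((Rᵀ - R) * R).trace = 0 := by
    rw [← h2 (Rᵀ - R) (by rw [sub_mul, hRtP, hRP]) (by rw [mul_sub, hPRt, hPR])]
    exact h1
  have h4 : (Rᵀ * R).trace = (R * R).trace := by
    rw [sub_mul, trace_sub] at h3
    linarith
  have h5 : (S * S).trace = (R * R).trace := by
    calc (S * S).trace = (S * P * (S * P)).trace := by rw [hSP]
      _ = (S * P * S * P).trace := by simp only [Matrix.mul_assoc]
      _ = (P * (S * P * S)).trace := trace_mul_comm _ _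
      _ = (P * P * (S * P * S)).trace := by rw [hPP]
      _ = (P * (P * S * P * S)).trace := by simp only [Matrix.mul_assoc]
      _ = (P * S * P * S * P).trace := trace_mul_comm _ _
      _ = (P * S * (P * P) * S * P).trace := by rw [hPP]
      _ = (R * R).trace := by rw [hR]; simp only [Matrix.mul_assoc]
  rw [h5, ← h4]
  rw [Matrix.trace]
  refine Finset.sum_nonneg fun i _ => ?_
  rw [Matrix.diag_apply, Matrix.mul_apply]
  exact Finset.sum_nonneg fun j _ => by
    rw [Matrix.transpose_apply]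
    exact mul_self_nonneg _

end Pool.Agent.K1H63.T2
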