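import Pool.Agent.K1H63.T2.Ident
import Pool.Agent.K1H63.T2.Sym

/-!
# The linear system for the symmetrising field
-/

set_option autoImplicit false

namespace Pool.Agent.K1H63.T2

open Finset Matrix

variable {K ι : Type} [Fintype K] [DecidableEq K] [Fintype ι] [DecidableEq ι]

/-- fields of alternating matrices, the matrix at the atom `j` kills `f j` -/
def Es (f : K → ι → ℝ) : Submodule ℝ (K → Matrix ι ι ℝ) where
  carrier := {x | ∀ j, (x j)ᵀ = -(x j) ∧ x j *ᵥ f j = 0}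
  add_mem' := by
    intro x y hx hy j
    refine ⟨?_, ?_⟩
    · rw [Pi.add_apply, transpose_add, (hx j).1, (hy j).1, neg_add]
    · rw [Pi.add_apply, add_mulVec, (hx j).2, (hy j).2, add_zero]
  zero_mem' := by
    intro j
    simp
  smul_mem' := by
    intro c x hx j
    refine ⟨?_, ?_⟩
    · rw [Pi.smul_apply, transpose_smul, (hx j).1, smul_neg]
    · rw [Pi.smul_apply, smul_mulVec, (hx j).2, smul_zero]

/-- the form of the linear system -/
noncomputable def Bf (a b : K → ℝ) (f : K → ι → ℝ) (x y : K → Matrix ι ι ℝ) : ℝ :=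
  ∑ j, ∑ k, (gc a b k k * ((x j *ᵥ f k) ⬝ᵥ (y j *ᵥ f k)) +
    gc a b j k * ((x k *ᵥ f j) ⬝ᵥ (y j *ᵥ f k)))

lemma Bf_self (a b : K → ℝ) (f : K → ι → ℝ) (x : K → Matrix ι ι ℝ) :
    2 * Bf a b f x x = ∑ j, ∑ k, ((a k • (x j *ᵥ f k) + a j • (x k *ᵥ f j)) ⬝ᵥ
      (a k • (x j *ᵥ f k) + a j • (x k *ᵥ f j)) +
      (b k • (x j *ᵥ f k) + b j • (x k *ᵥ f j)) ⬝ᵥ
      (b k • (x j *ᵥ f k) + b j • (x k *ᵥ f j))) := by
  have h1 : Bf a b f x x = ∑ j, ∑ k, (gc a b j j * ((x k *ᵥ f j) ⬝ᵥ (x k *ᵥ f j)) +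
      gc a b j k * ((x k *ᵥ f j) ⬝ᵥ (x j *ᵥ f k))) := by
    unfold Bf
    rw [Finset.sum_comm]
    refine Finset.sum_congr rfl fun j _ => Finset.sum_congr rfl fun k _ => ?_
    have : gc a b k j = gc a b j k := by unfold gc; ring
    rw [this, dotProduct_comm (x j *ᵥ f k) (x k *ᵥ f j)]
  rw [two_mul]
  conv_lhs => arg 1; rw [Bf]
  rw [h1, ← Finset.sum_add_distrib]
  refine Finset.sum_congr rfl fun j _ => ?_
  rw [← Finset.sum_add_distrib]
  refine Finset.sum_congr rfl fun k _ => ?_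
  simp only [dotProduct_add, add_dotProduct, smul_dotProduct, dotProduct_smul, smul_eq_mul]
  rw [dotProduct_comm (x j *ᵥ f k) (x k *ᵥ f j)]
  unfold gc
  ring

lemma Bf_pos (a b : K → ℝ) (f : K → ι → ℝ)
    (hnd : ∀ j, ∀ y : ι → ℝ, (∀ k, sc a b j k * (y ⬝ᵥ f k) = 0) → y = 0)
    (x : K → Matrix ι ι ℝ) (h : Bf a b f x x = 0) : x = 0 := by
  have h1 := Bf_self a b f x
  rw [h, mul_zero] at h1
  have hn : ∀ v : ι → ℝ, 0 ≤ v ⬝ᵥ v := fun v => Finset.sum_nonneg fun i _ => mul_self_nonneg _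
  have h2 := (Finset.sum_eq_zero_iff_of_nonneg fun j _ =>
    Finset.sum_nonneg fun k _ => add_nonneg (hn _) (hn _)).1 h1.symm
  funext j
  have h3 := (Finset.sum_eq_zero_iff_of_nonneg fun k _ => add_nonneg (hn _) (hn _)).1
    (h2 j (Finset.mem_univ j))
  have h4 : ∀ k, sc a b j k • (x j *ᵥ f k) = 0 := by
    intro k
    have h5 := h3 k (Finset.mem_univ k)
    have h6 := (add_eq_zero_iff_of_nonneg (hn _) (hn _)).1 h5
    have h7 := dotProduct_self_eq_zero.1 h6.1
    have h8 := dotProduct_self_eq_zero.1 h6.2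
    have h9 : sc a b j k • (x j *ᵥ f k) =
        a j • (b k • (x j *ᵥ f k) + b j • (x k *ᵥ f j)) -
        b j • (a k • (x j *ᵥ f k) + a j • (x k *ᵥ f j)) := by
      ext i
      simp only [sc, Pi.smul_apply, Pi.sub_apply, Pi.add_apply, smul_eq_mul]
      ring
    rw [h9, h7, h8]
    simp
  ext i i'
  have h5 : (x j) i = 0 := by
    refine hnd j _ fun k => ?_
    have := congrFun (h4 k) i
    simp only [Pi.smul_apply, smul_eq_mul, Pi.zero_apply] at this
    exact this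
  rw [h5]
  rfl

/-- the form as a bilinear map -/
noncomputable def Bl (a b : K → ℝ) (f : K → ι → ℝ) :
    (K → Matrix ι ι ℝ) →ₗ[ℝ] (K → Matrix ι ι ℝ) →ₗ[ℝ] ℝ :=
  LinearMap.mk₂ ℝ (Bf a b f)
    (by
      intro x x' y
      unfold Bf
      rw [← Finset.sum_add_distrib]
      refine Finset.sum_congr rfl fun j _ => ?_
      rw [← Finset.sum_add_distrib]
      refine Finset.sum_congr rfl fun k _ => ?_
      simp only [Pi.add_apply, add_mulVec, add_dotProduct]
      ring)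
    (by
      intro c x y
      unfold Bf
      rw [smul_eq_mul, Finset.mul_sum]
      refine Finset.sum_congr rfl fun j _ => ?_
      rw [Finset.mul_sum]
      refine Finset.sum_congr rfl fun k _ => ?_
      simp only [Pi.smul_apply, smul_mulVec, smul_dotProduct, smul_eq_mul]
      ring)
    (by
      intro x y y'
      unfold Bf
      rw [← Finset.sum_add_distrib]
      refine Finset.sum_congr rfl fun j _ => ?_
      rw [← Finset.sum_add_distrib]
      refine Finset.sum_congr rfl fun k _ => ?_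
      simp only [Pi.add_apply, add_mulVec, dotProduct_add]
      ring)
    (by
      intro c x y
      unfold Bf
      rw [smul_eq_mul, Finset.mul_sum]
      refine Finset.sum_congr rfl fun j _ => ?_
      rw [Finset.mul_sum]
      refine Finset.sum_congr rfl fun k _ => ?_
      simp only [Pi.smul_apply, smul_mulVec, dotProduct_smul, smul_eq_mul]
      ring)

/-- the linear system has a solution -/
theorem solve (a b : K → ℝ) (f : K → ι → ℝ)
    (hnd : ∀ j, ∀ y : ι → ℝ, (∀ k, sc a b j k * (y ⬝ᵥ f k) = 0) → y = 0)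
    (φ : (K → Matrix ι ι ℝ) →ₗ[ℝ] ℝ) :
    ∃ x ∈ Es f, ∀ y ∈ Es f, Bf a b f x y = φ y := by
  obtain ⟨Φ, hΦ⟩ : ∃ Φ : Es f →ₗ[ℝ] Module.Dual ℝ (Es f), ∀ x y, Φ x y =
      Bf a b f x.1 y.1 :=
    ⟨((Bl a b f).domRestrict₁₂ (Es f) (Es f)), fun x y => rfl⟩
  have hinj : Function.Injective Φ := by
    rw [← LinearMap.ker_eq_bot, LinearMap.ker_eq_bot']
    intro x hx
    have h1 : Bf a b f x.1 x.1 = 0 := by rw [← hΦ, hx]; rfl
    exact Subtype.ext (Bf_pos a b f hnd x.1 h1)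
  have hsur : Function.Surjective Φ :=
    (LinearMap.injective_iff_surjective_of_finrank_eq_finrank
      (Subspace.dual_finrank_eq).symm).1 hinj
  obtain ⟨x, hx⟩ := hsur (φ ∘ₗ (Es f).subtype)
  refine ⟨x.1, x.2, fun y hy => ?_⟩
  have h1 := hΦ x ⟨y, hy⟩
  rw [hx] at h1
  exact h1.symm

end Pool.Agent.K1H63.T2
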