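import Pool.Agent.R735.HA.Quant

/-!
# The star of the product of two covectors in dimension four
-/

set_option autoImplicit false

namespace Pool.Agent.K1H63.T2

open Finset Pool.Agent.TH598.GV Pool.Agent.R735.HA

variable {R : Type} [CommRing R]

/-- minors -/
def mn (f g : K 2 → R) (x y : K 2) : R := f x * g y - f y * g x

/-- the star of the product of two covectors -/
def st (f g : K 2 → R) : K 2 → K 2 → R
  | (0, false), (0, false) => 0
  | (0, false), (0, true) => mn f g (1, false) (1, true)
  | (0, false), (1, false) => -mn f g (0, true) (1, true)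
  | (0, false), (1, true) => mn f g (0, true) (1, false)
  | (0, true), (0, false) => -mn f g (1, false) (1, true)
  | (0, true), (0, true) => 0
  | (0, true), (1, false) => mn f g (0, false) (1, true)
  | (0, true), (1, true) => -mn f g (0, false) (1, false)
  | (1, false), (0, false) => mn f g (0, true) (1, true)
  | (1, false), (0, true) => -mn f g (0, false) (1, true)
  | (1, false), (1, false) => 0
  | (1, false), (1, true) => mn f g (0, false) (0, true)
  | (1, true), (0, false) => -mn f g (0, true) (1, false)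
  | (1, true), (0, true) => mn f g (0, false) (1, false)
  | (1, true), (1, false) => -mn f g (0, false) (0, true)
  | (1, true), (1, true) => 0

lemma st_anti (f g : K 2 → R) : ∀ x y, st f g y x = -st f g x y := by
  refine all4 (all4 ?_ ?_ ?_ ?_) (all4 ?_ ?_ ?_ ?_) (all4 ?_ ?_ ?_ ?_) (all4 ?_ ?_ ?_ ?_)
  all_goals simp only [st, mn]
  all_goals ring

lemma st_swap (f g : K 2 → R) : ∀ x y, st g f x y = -st f g x y := by
  refine all4 (all4 ?_ ?_ ?_ ?_) (all4 ?_ ?_ ?_ ?_) (all4 ?_ ?_ ?_ ?_) (all4 ?_ ?_ ?_ ?_)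
  all_goals simp only [st, mn]
  all_goals ring

lemma sum4 (F : K 2 → R) : ∑ x, F x = F (0, false) + F (0, true) + F (1, false) + F (1, true) := by
  rw [Fintype.sum_prod_type]
  simp only [Fintype.sum_bool, Fin.sum_univ_two]
  ring

lemma st_left (f g : K 2 → R) : ∀ x, ∑ y, st f g x y * f y = 0 := by
  refine all4 ?_ ?_ ?_ ?_
  all_goals simp only [sum4, st, mn]
  all_goals ring

lemma st_right (f g : K 2 → R) : ∀ x, ∑ y, st f g x y * g y = 0 := by
  refine all4 ?_ ?_ ?_ ?_
  all_goals simp only [sum4, st, mn]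
  all_goals ring

/-- covectors which annihilate `f` and `g` are combinations of the rows of the star -/
lemma st_ann (f g A : K 2 → R) (hf : ∑ y, A y * f y = 0) (hg : ∑ y, A y * g y = 0) :
    ∀ p q x, st f g p q * A x = st f g p x * A q - st f g q x * A p := by
  rw [sum4] at hf hg
  refine all4 (all4 (all4 ?_ ?_ ?_ ?_) (all4 ?_ ?_ ?_ ?_) (all4 ?_ ?_ ?_ ?_) (all4 ?_ ?_ ?_ ?_))
    (all4 (all4 ?_ ?_ ?_ ?_) (all4 ?_ ?_ ?_ ?_) (all4 ?_ ?_ ?_ ?_) (all4 ?_ ?_ ?_ ?_))
    (all4 (all4 ?_ ?_ ?_ ?_) (all4 ?_ ?_ ?_ ?_) (all4 ?_ ?_ ?_ ?_) (all4 ?_ ?_ ?_ ?_))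
    (all4 (all4 ?_ ?_ ?_ ?_) (all4 ?_ ?_ ?_ ?_) (all4 ?_ ?_ ?_ ?_) (all4 ?_ ?_ ?_ ?_))
  all_goals simp only [st, mn]
  all_goals first
    | ring1
    | linear_combination g (0, false) * hf - f (0, false) * hg
    | linear_combination g (0, true) * hf - f (0, true) * hg
    | linear_combination g (1, false) * hf - f (1, false) * hg
    | linear_combination g (1, true) * hf - f (1, true) * hg
    | linear_combination f (0, false) * hg - g (0, false) * hf
    | linear_combination f (0, true) * hg - g (0, true) * hf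
    | linear_combination f (1, false) * hg - g (1, false) * hf
    | linear_combination f (1, true) * hg - g (1, true) * hf

/-- the star is decomposable -/
lemma st_dec (f g : K 2 → R) (p q x y : K 2) :
    st f g p x * st f g q y - st f g p y * st f g q x = st f g p q * st f g x y := by
  have h := st_ann f g (fun x => st f g y x) (st_left f g y) (st_right f g y) p q x
  rw [st_anti f g x y, st_anti f g q y, st_anti f g p y] at h
  linear_combination h

lemma st_map {S : Type} [CommRing S] (φ : R →+* S) (f g : K 2 → R) :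
    ∀ x y, st (fun i => φ (f i)) (fun i => φ (g i)) x y = φ (st f g x y) := by
  refine all4 (all4 ?_ ?_ ?_ ?_) (all4 ?_ ?_ ?_ ?_) (all4 ?_ ?_ ?_ ?_) (all4 ?_ ?_ ?_ ?_)
  all_goals simp only [st, mn, map_sub, map_mul, map_neg, map_zero]

end Pool.Agent.K1H63.T2
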